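import Mathlib

/-!
Point-line configurations in which every line has three points and every point is on three
lines, and the reduction that removes one incident point-line pair.
-/

namespace Pool.Agent.Cfg3

/-- Every line has three points, every point is on three lines, two points are on at most one
common line. -/
structure Conf3 {P L : Type*} (I : P → L → Prop) : Prop where
  row : ∀ l, {p | I p l}.ncard = 3
  col : ∀ p, {l | I p l}.ncard = 3
  lin : ∀ p q l m, p ≠ q → I p l → I q l → I p m → I q m → l = m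

theorem Conf3.dual {P L : Type*} {I : P → L → Prop} (h : Conf3 I) : Conf3 (fun l p => I p l) where
  row := h.col
  col := h.row
  lin := fun l m p q hlm h1 h2 h3 h4 => by
    by_contra hpq
    exact hlm (h.lin p q l m hpq h1 h3 h2 h4)

/-- A reducible flag. -/
structure Flag {P L : Type*} (I : P → L → Prop) (p : P) (l m k : L) (a b : P) : Prop where
  pl : I p l
  pm : I p m
  pk : I p k
  nlm : l ≠ m
  nlk : l ≠ k
  nmk : m ≠ k
  al : I a l
  bl : I b l
  ap : a ≠ p
  bp : b ≠ p
  ab : a ≠ b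
  nam : ∀ y x, y ≠ l → I a y → x ≠ p → I x m → ¬ I x y
  nbk : ∀ y x, y ≠ l → I b y → x ≠ p → I x k → ¬ I x y

theorem Flag.dual {P L : Type*} {I : P → L → Prop} {p : P} {l m k : L} {a b : P}
    (h : Flag I p l m k a b) : Flag (fun l p => I p l) l p a b m k where
  pl := h.pl
  pm := h.al
  pk := h.bl
  nlm := h.ap.symm
  nlk := h.bp.symm
  nmk := h.ab
  al := h.pm
  bl := h.pk
  ap := h.nlm.symm
  bp := h.nlk.symm
  ab := h.nmk
  nam := fun Y X hY h1 hX h2 h3 => h.nam X Y hX h2 hY h1 h3
  nbk := fun Y X hY h1 hX h2 h3 => h.nbk X Y hX h2 hY h1 h3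

theorem set_eq_of_ncard_three {α : Type*} {s : Set α} (hs : s.ncard = 3) {x y z : α}
    (hx : x ∈ s) (hy : y ∈ s) (hz : z ∈ s) (hxy : x ≠ y) (hxz : x ≠ z) (hyz : y ≠ z) :
    s = {x, y, z} := by
  have hfin : s.Finite := Set.finite_of_ncard_ne_zero (by rw [hs]; norm_num)
  symm
  apply Set.eq_of_subset_of_ncard_le _ _ hfin
  · intro w hw
    simp only [Set.mem_insert_iff, Set.mem_singleton_iff] at hw
    rcases hw with rfl | rfl | rfl <;> assumption
  · rw [hs, Set.ncard_eq_three.2 ⟨x, y, z, hxy, hxz, hyz, rfl⟩]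

theorem Conf3.lines_eq {P L : Type*} {I : P → L → Prop} (h : Conf3 I) {p : P} {l m k : L}
    (hl : I p l) (hm : I p m) (hk : I p k) (h1 : l ≠ m) (h2 : l ≠ k) (h3 : m ≠ k) {y : L}
    (hy : I p y) : y = l ∨ y = m ∨ y = k := by
  have := set_eq_of_ncard_three (h.col p) (x := l) (y := m) (z := k) hl hm hk h1 h2 h3
  have h' : y ∈ ({l, m, k} : Set L) := this ▸ hy
  simpa using h'

theorem Conf3.points_eq {P L : Type*} {I : P → L → Prop} (h : Conf3 I) {l : L} {p a b : P}
    (hp : I p l) (ha : I a l) (hb : I b l) (h1 : p ≠ a) (h2 : p ≠ b) (h3 : a ≠ b) {x : P}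
    (hx : I x l) : x = p ∨ x = a ∨ x = b :=
  h.dual.lines_eq hp ha hb h1 h2 h3 hx

theorem ncard_castSucc_mem {n : ℕ} (S : Set (Fin (n + 1))) (h : Fin.last n ∈ S) :
    {x : Fin n | x.castSucc ∈ S}.ncard = S.ncard - 1 := by
  rw [← Set.ncard_sdiff_singleton_of_mem h,
    ← Set.ncard_image_of_injective {x : Fin n | x.castSucc ∈ S} (Fin.castSucc_injective n)]
  congr 1
  ext x
  simp only [Set.mem_image, Set.mem_ofPred_eq, Set.mem_sdiff, Set.mem_singleton_iff]
  constructor
  · rintro ⟨y, hy, rfl⟩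
    exact ⟨hy, Fin.castSucc_ne_last y⟩
  · rintro ⟨h1, h2⟩
    obtain ⟨y, rfl⟩ := Fin.exists_castSucc_eq.2 h2
    exact ⟨y, h1, rfl⟩

theorem ncard_castSucc_not_mem {n : ℕ} (S : Set (Fin (n + 1))) (h : Fin.last n ∉ S) :
    {x : Fin n | x.castSucc ∈ S}.ncard = S.ncard := by
  rw [← Set.ncard_image_of_injective {x : Fin n | x.castSucc ∈ S} (Fin.castSucc_injective n)]
  congr 1
  ext x
  simp only [Set.mem_image, Set.mem_ofPred_eq]
  constructor
  · rintro ⟨y, hy, rfl⟩
    exact hy
  · intro h1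
    have h2 : x ≠ Fin.last n := fun h' => h (h' ▸ h1)
    obtain ⟨y, rfl⟩ := Fin.exists_castSucc_eq.2 h2
    exact ⟨y, h1, rfl⟩

/-- The reduced incidence relation. -/
def red {n : ℕ} (I : Fin (n + 1) → Fin (n + 1) → Prop) (m k a b : Fin n) :
    Fin n → Fin n → Prop :=
  fun x y => I x.castSucc y.castSucc ∨ (x = a ∧ y = m) ∨ (x = b ∧ y = k)

section
variable {n : ℕ} {I : Fin (n + 1) → Fin (n + 1) → Prop} {m k a b : Fin n}

theorem Flag.a_not_m {P L : Type*} {I : P → L → Prop} (hI : Conf3 I) {p : P} {l m k : L}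
    {a b : P} (h : Flag I p l m k a b) : ¬ I a m :=
  fun h' => h.nlm (hI.lin a p l m h.ap h.al h.pl h' h.pm)

theorem Flag.b_not_m {P L : Type*} {I : P → L → Prop} (hI : Conf3 I) {p : P} {l m k : L}
    {a b : P} (h : Flag I p l m k a b) : ¬ I b m :=
  fun h' => h.nlm (hI.lin b p l m h.bp h.bl h.pl h' h.pm)

theorem Flag.a_not_k {P L : Type*} {I : P → L → Prop} (hI : Conf3 I) {p : P} {l m k : L}
    {a b : P} (h : Flag I p l m k a b) : ¬ I a k :=
  fun h' => h.nlk (hI.lin a p l k h.ap h.al h.pl h' h.pk)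

theorem Flag.b_not_k {P L : Type*} {I : P → L → Prop} (hI : Conf3 I) {p : P} {l m k : L}
    {a b : P} (h : Flag I p l m k a b) : ¬ I b k :=
  fun h' => h.nlk (hI.lin b p l k h.bp h.bl h.pl h' h.pk)

theorem red_row (hI : Conf3 I)
    (h : Flag I (Fin.last n) (Fin.last n) m.castSucc k.castSucc a.castSucc b.castSucc)
    (y : Fin n) : {x | red I m k a b x y}.ncard = 3 := by
  have hmk : m ≠ k := fun h' => h.nmk (congrArg _ h')
  by_cases hm : y = m
  · subst hm
    have h1 := ncard_castSucc_mem {x | I x y.castSucc} h.pm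
    rw [hI.row] at h1
    have h2 : {x | red I y k a b x y} = insert a {x : Fin n | x.castSucc ∈ {x | I x y.castSucc}} := by
      ext x
      simp only [red, Set.mem_ofPred_eq, Set.mem_insert_iff]
      constructor
      · rintro (h' | ⟨h', -⟩ | ⟨-, h'⟩)
        · exact Or.inr h'
        · exact Or.inl h'
        · exact absurd h' hmk
      · rintro (h' | h')
        · exact Or.inr (Or.inl ⟨h', trivial⟩)
        · exact Or.inl h'
    rw [h2, Set.ncard_insert_of_notMem, h1]
    exact h.a_not_m hI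
  · by_cases hk : y = k
    · subst hk
      have h1 := ncard_castSucc_mem {x | I x y.castSucc} h.pk
      rw [hI.row] at h1
      have h2 : {x | red I m y a b x y} = insert b {x : Fin n | x.castSucc ∈ {x | I x y.castSucc}} := by
        ext x
        simp only [red, Set.mem_ofPred_eq, Set.mem_insert_iff]
        constructor
        · rintro (h' | ⟨-, h'⟩ | ⟨h', -⟩)
          · exact Or.inr h'
          · exact absurd h' hm
          · exact Or.inl h'
        · rintro (h' | h')
          · exact Or.inr (Or.inr ⟨h', trivial⟩)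
          · exact Or.inl h'
      rw [h2, Set.ncard_insert_of_notMem, h1]
      exact h.b_not_k hI
    · have h0 : Fin.last n ∉ {x | I x y.castSucc} := by
        intro h'
        rcases hI.lines_eq h.pl h.pm h.pk h.nlm h.nlk h.nmk h' with h'' | h'' | h''
        · exact Fin.castSucc_ne_last y h''
        · exact hm (Fin.castSucc_injective n h'')
        · exact hk (Fin.castSucc_injective n h'')
      have h1 := ncard_castSucc_not_mem _ h0
      rw [hI.row] at h1
      rw [← h1]
      congr 1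
      ext x
      simp only [red, Set.mem_ofPred_eq]
      constructor
      · rintro (h' | ⟨-, h'⟩ | ⟨-, h'⟩)
        · exact h'
        · exact absurd h' hm
        · exact absurd h' hk
      · exact Or.inl

theorem red_dual : (fun y x => red I m k a b x y) = red (fun l p => I p l) a b m k := by
  funext y x
  simp only [red, and_comm]

/-- No bad rectangle through the new incidence. -/
theorem red_no_rect (hI : Conf3 I)
    (h : Flag I (Fin.last n) (Fin.last n) m.castSucc k.castSucc a.castSucc b.castSucc)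
    {x' y' : Fin n} (hx : a ≠ x') (hy : m ≠ y') (h2 : red I m k a b x' m)
    (h3 : red I m k a b a y') (h4 : red I m k a b x' y') : False := by
  have hmk : m ≠ k := fun h' => h.nmk (congrArg _ h')
  have hab : a ≠ b := fun h' => h.ab (congrArg _ h')
  rcases h2 with h2 | ⟨h2, -⟩ | ⟨-, h2⟩
  · rcases h3 with h3 | ⟨-, h3⟩ | ⟨h3, -⟩
    · rcases h4 with h4 | ⟨h4, -⟩ | ⟨h4, h5⟩
      · exact h.nam y'.castSucc x'.castSucc (Fin.castSucc_ne_last y') h3
          (Fin.castSucc_ne_last x') h2 h4
      · exact hx h4.symm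
      · subst h4
        exact h.b_not_m hI h2
    · exact hy h3.symm
    · exact hab h3
  · exact hx h2.symm
  · exact hmk h2

theorem red_lin (hI : Conf3 I)
    (h : Flag I (Fin.last n) (Fin.last n) m.castSucc k.castSucc a.castSucc b.castSucc)
    (h' : Flag I (Fin.last n) (Fin.last n) k.castSucc m.castSucc b.castSucc a.castSucc)
    (x x' y y' : Fin n) (hx : x ≠ x') (h1 : red I m k a b x y) (h2 : red I m k a b x' y)
    (h3 : red I m k a b x y') (h4 : red I m k a b x' y') : y = y' := by
  by_contra hy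
  have sw : ∀ x y, red I m k a b x y → red I k m b a x y := by
    rintro x y (h | h | h)
    · exact Or.inl h
    · exact Or.inr (Or.inr h)
    · exact Or.inr (Or.inl h)
  have key : ∀ (x x' y y' : Fin n), x ≠ x' → y ≠ y' → red I m k a b x y → red I m k a b x' y →
      red I m k a b x y' → red I m k a b x' y' → I x.castSucc y.castSucc := by
    intro x x' y y' hx hy h1 h2 h3 h4
    rcases h1 with h1 | ⟨rfl, rfl⟩ | ⟨rfl, rfl⟩
    · exact h1
    · exact (red_no_rect hI h hx hy h2 h3 h4).elim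
    · exact (red_no_rect hI h' hx hy (sw _ _ h2) (sw _ _ h3) (sw _ _ h4)).elim
  have e1 := key x x' y y' hx hy h1 h2 h3 h4
  have e2 := key x' x y y' hx.symm hy h2 h1 h4 h3
  have e3 := key x x' y' y hx (Ne.symm hy) h3 h4 h1 h2
  have e4 := key x' x y' y hx.symm (Ne.symm hy) h4 h3 h2 h1
  exact hy (Fin.castSucc_injective n (hI.lin _ _ _ _
    (fun h => hx (Fin.castSucc_injective n h)) e1 e2 e3 e4))

theorem Flag.swap {P L : Type*} {I : P → L → Prop} {p : P} {l m k : L} {a b : P}
    (h : Flag I p l m k a b) : Flag I p l k m b a where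
  pl := h.pl
  pm := h.pk
  pk := h.pm
  nlm := h.nlk
  nlk := h.nlm
  nmk := h.nmk.symm
  al := h.bl
  bl := h.al
  ap := h.bp
  bp := h.ap
  ab := h.ab.symm
  nam := h.nbk
  nbk := h.nam

theorem red_conf (hI : Conf3 I)
    (h : Flag I (Fin.last n) (Fin.last n) m.castSucc k.castSucc a.castSucc b.castSucc) :
    Conf3 (red I m k a b) where
  row := red_row hI h
  col := fun x => by
    have h1 := red_row hI.dual h.dual x
    rw [← red_dual] at h1
    exact h1
  lin := red_lin hI h h.swap

end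

/-- The closed neighbourhood of a point has seven points. -/
theorem Conf3.seven {P L : Type*} {I : P → L → Prop} (hI : Conf3 I) (p : P) :
    {x | ∃ l, I p l ∧ I x l}.ncard = 7 := by
  obtain ⟨l, m, k, hlm, hlk, hmk, hS⟩ := Set.ncard_eq_three.1 (hI.col p)
  have hl : I p l := by
    have : l ∈ {l | I p l} := by rw [hS]; simp
    exact this
  have hm : I p m := by
    have : m ∈ {l | I p l} := by rw [hS]; simp
    exact this
  have hk : I p k := by
    have : k ∈ {l | I p l} := by rw [hS]; simp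
    exact this
  have two : ∀ l, I p l → ∃ a b, a ≠ b ∧ a ≠ p ∧ b ≠ p ∧ {x | I x l} = {p, a, b} := by
    intro l hl
    have h1 : ({x | I x l} \ {p}).ncard = 2 := by
      rw [Set.ncard_sdiff_singleton_of_mem (show p ∈ {x | I x l} from hl), hI.row]
    obtain ⟨a, b, hab, h2⟩ := Set.ncard_eq_two.1 h1
    have ha : a ∈ {x | I x l} \ {p} := by rw [h2]; simp
    have hb : b ∈ {x | I x l} \ {p} := by rw [h2]; simp
    refine ⟨a, b, hab, ha.2, hb.2, ?_⟩
    rw [← h2]
    ext x
    by_cases hx : x = p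
    · simp [hx, hl]
    · simp [hx]
  obtain ⟨a1, b1, e1, e1a, e1b, s1⟩ := two l hl
  obtain ⟨a2, b2, e2, e2a, e2b, s2⟩ := two m hm
  obtain ⟨a3, b3, e3, e3a, e3b, s3⟩ := two k hk
  have sep : ∀ l m x, l ≠ m → I p l → I p m → x ≠ p → I x l → I x m → False := by
    intro l m x hlm h1 h2 hx h3 h4
    exact hlm (hI.lin x p l m hx h3 h1 h4 h2)
  have m1 : ∀ x, I x l ↔ x = p ∨ x = a1 ∨ x = b1 := fun x => by
    have := Set.ext_iff.1 s1 x
    simpa using this
  have m2 : ∀ x, I x m ↔ x = p ∨ x = a2 ∨ x = b2 := fun x => by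
    have := Set.ext_iff.1 s2 x
    simpa using this
  have m3 : ∀ x, I x k ↔ x = p ∨ x = a3 ∨ x = b3 := fun x => by
    have := Set.ext_iff.1 s3 x
    simpa using this
  have hset : {x | ∃ l, I p l ∧ I x l} = {p, a1, b1, a2, b2, a3, b3} := by
    ext x
    simp only [Set.mem_ofPred_eq, Set.mem_insert_iff, Set.mem_singleton_iff]
    constructor
    · rintro ⟨y, hy, hxy⟩
      have hy' : y ∈ {l | I p l} := hy
      rw [hS] at hy'
      simp only [Set.mem_insert_iff, Set.mem_singleton_iff] at hy'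
      rcases hy' with rfl | rfl | rfl
      · rcases (m1 x).1 hxy with h | h | h <;> simp [h]
      · rcases (m2 x).1 hxy with h | h | h <;> simp [h]
      · rcases (m3 x).1 hxy with h | h | h <;> simp [h]
    · rintro (rfl | rfl | rfl | rfl | rfl | rfl | rfl)
      · exact ⟨l, hl, hl⟩
      · exact ⟨l, hl, (m1 _).2 (by simp)⟩
      · exact ⟨l, hl, (m1 _).2 (by simp)⟩
      · exact ⟨m, hm, (m2 _).2 (by simp)⟩
      · exact ⟨m, hm, (m2 _).2 (by simp)⟩
      · exact ⟨k, hk, (m3 _).2 (by simp)⟩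
      · exact ⟨k, hk, (m3 _).2 (by simp)⟩
  have A1 : I a1 l := (m1 _).2 (by simp)
  have B1 : I b1 l := (m1 _).2 (by simp)
  have A2 : I a2 m := (m2 _).2 (by simp)
  have B2 : I b2 m := (m2 _).2 (by simp)
  have A3 : I a3 k := (m3 _).2 (by simp)
  have B3 : I b3 k := (m3 _).2 (by simp)
  rw [hset]
  rw [Set.ncard_insert_of_notMem, Set.ncard_insert_of_notMem, Set.ncard_insert_of_notMem,
    Set.ncard_insert_of_notMem, Set.ncard_insert_of_notMem, Set.ncard_insert_of_notMem,
    Set.ncard_singleton]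
  · simp only [Set.mem_singleton_iff]; exact e3
  · simp only [Set.mem_insert_iff, Set.mem_singleton_iff, not_or]
    exact ⟨fun h => sep m k b2 hmk hm hk e2b B2 (h ▸ A3), fun h => sep m k b2 hmk hm hk e2b B2 (h ▸ B3)⟩
  · simp only [Set.mem_insert_iff, Set.mem_singleton_iff, not_or]
    exact ⟨e2, fun h => sep m k a2 hmk hm hk e2a A2 (h ▸ A3), fun h => sep m k a2 hmk hm hk e2a A2 (h ▸ B3)⟩
  · simp only [Set.mem_insert_iff, Set.mem_singleton_iff, not_or]
    exact ⟨fun h => sep l m b1 hlm hl hm e1b B1 (h ▸ A2), fun h => sep l m b1 hlm hl hm e1b B1 (h ▸ B2),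
      fun h => sep l k b1 hlk hl hk e1b B1 (h ▸ A3), fun h => sep l k b1 hlk hl hk e1b B1 (h ▸ B3)⟩
  · simp only [Set.mem_insert_iff, Set.mem_singleton_iff, not_or]
    exact ⟨e1, fun h => sep l m a1 hlm hl hm e1a A1 (h ▸ A2), fun h => sep l m a1 hlm hl hm e1a A1 (h ▸ B2),
      fun h => sep l k a1 hlk hl hk e1a A1 (h ▸ A3), fun h => sep l k a1 hlk hl hk e1a A1 (h ▸ B3)⟩
  · simp only [Set.mem_insert_iff, Set.mem_singleton_iff, not_or]
    exact ⟨e1a.symm, e1b.symm, e2a.symm, e2b.symm, e3a.symm, e3b.symm⟩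

end Pool.Agent.Cfg3
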