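/-!
Functions on natural numbers used in the checks of the lists of configurations. Incidence
matrices are stored in natural numbers: bit 16 y + x says that point x is on line y.
-/

namespace Pool.Agent.Cfg3

noncomputable section

/-- ones n has the bits 0, 16, 32, ..., 16 (n-1). -/
def ones : Nat → Nat
  | 0 => 0
  | n + 1 => 65536 * ones n + 1

/-- One bit. -/
def tb (M k : Nat) : Bool := Nat.beq (Nat.land (Nat.shiftRight M k) 1) 1

/-- Remove the lowest bit. -/
def clr (r : Nat) : Nat := Nat.land r (Nat.sub r 1)

/-- The extension step on numbers. -/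
def extN (n M i16 A j16 B : Nat) : Nat :=
  (fun a b => Nat.xor (Nat.xor M (Nat.shiftLeft (Nat.lor a (Nat.shiftLeft 1 n)) i16))
    (Nat.xor (Nat.shiftLeft (Nat.lor b (Nat.shiftLeft 1 n)) j16)
      (Nat.shiftLeft (Nat.lor (Nat.lor a b) (Nat.shiftLeft 1 n)) (Nat.mul 16 n))))
    (Nat.shiftLeft 1 A) (Nat.shiftLeft 1 B)

/-- Columns of M moved according to the four-bit digits of c. -/
def permG (M c : Nat) : Nat :=
  (Nat.lor (Nat.lor (Nat.lor (Nat.lor (Nat.lor (Nat.lor (Nat.lor (Nat.lor (Nat.lor (Nat.lor (Nat.lor (Nat.lor (Nat.lor (Nat.shiftLeft (Nat.land (Nat.shiftRight M 0) 0x1000000010001000100010001000100010001000100010001000100010001) (Nat.land (Nat.shiftRight c 0) 15))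
    (Nat.shiftLeft (Nat.land (Nat.shiftRight M 1) 0x1000000010001000100010001000100010001000100010001000100010001) (Nat.land (Nat.shiftRight c 4) 15)))
    (Nat.shiftLeft (Nat.land (Nat.shiftRight M 2) 0x1000000010001000100010001000100010001000100010001000100010001) (Nat.land (Nat.shiftRight c 8) 15)))
    (Nat.shiftLeft (Nat.land (Nat.shiftRight M 3) 0x1000000010001000100010001000100010001000100010001000100010001) (Nat.land (Nat.shiftRight c 12) 15)))
    (Nat.shiftLeft (Nat.land (Nat.shiftRight M 4) 0x1000000010001000100010001000100010001000100010001000100010001) (Nat.land (Nat.shiftRight c 16) 15)))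
    (Nat.shiftLeft (Nat.land (Nat.shiftRight M 5) 0x1000000010001000100010001000100010001000100010001000100010001) (Nat.land (Nat.shiftRight c 20) 15)))
    (Nat.shiftLeft (Nat.land (Nat.shiftRight M 6) 0x1000000010001000100010001000100010001000100010001000100010001) (Nat.land (Nat.shiftRight c 24) 15)))
    (Nat.shiftLeft (Nat.land (Nat.shiftRight M 7) 0x1000000010001000100010001000100010001000100010001000100010001) (Nat.land (Nat.shiftRight c 28) 15)))
    (Nat.shiftLeft (Nat.land (Nat.shiftRight M 8) 0x1000000010001000100010001000100010001000100010001000100010001) (Nat.land (Nat.shiftRight c 32) 15)))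
    (Nat.shiftLeft (Nat.land (Nat.shiftRight M 9) 0x1000000010001000100010001000100010001000100010001000100010001) (Nat.land (Nat.shiftRight c 36) 15)))
    (Nat.shiftLeft (Nat.land (Nat.shiftRight M 10) 0x1000000010001000100010001000100010001000100010001000100010001) (Nat.land (Nat.shiftRight c 40) 15)))
    (Nat.shiftLeft (Nat.land (Nat.shiftRight M 11) 0x1000000010001000100010001000100010001000100010001000100010001) (Nat.land (Nat.shiftRight c 44) 15)))
    (Nat.shiftLeft (Nat.land (Nat.shiftRight M 12) 0x1000000010001000100010001000100010001000100010001000100010001) (Nat.land (Nat.shiftRight c 48) 15)))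
    (Nat.shiftLeft (Nat.land (Nat.shiftRight M 13) 0x1000000010001000100010001000100010001000100010001000100010001) (Nat.land (Nat.shiftRight c 52) 15)))

/-- Lanes of G (with 15 lanes) compared with all rows of M2. -/
def rowsT (M2 G : Nat) : Nat := Nat.add (Nat.xor
  (Nat.mul M2 0x10000000000000000000000000000000000000000000000000000000100000000000000000000000000000000000000000000000000000001000000000000000000000000000000000000000000000000000000010000000000000000000000000000000000000000000000000000000100000000000000000000000000000000000000000000000000000001000000000000000000000000000000000000000000000000000000010000000000000000000000000000000000000000000000000000000100000000000000000000000000000000000000000000000000000001000000000000000000000000000000000000000000000000000000010000000000000000000000000000000000000000000000000000000100000000000000000000000000000000000000000000000000000001000000000000000000000000000000000000000000000000000000010000000000000000000000000000000000000000000000000000000100000000000000000000000000000000000000000000000000000001)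
  (Nat.mul G 0x1000000000000000000000000000000000000000000000000000000000001000000000000000000000000000000000000000000000000000000000001000000000000000000000000000000000000000000000000000000000001000000000000000000000000000000000000000000000000000000000001000000000000000000000000000000000000000000000000000000000001000000000000000000000000000000000000000000000000000000000001000000000000000000000000000000000000000000000000000000000001000000000000000000000000000000000000000000000000000000000001000000000000000000000000000000000000000000000000000000000001000000000000000000000000000000000000000000000000000000000001000000000000000000000000000000000000000000000000000000000001000000000000000000000000000000000000000000000000000000000001000000000000000000000000000000000000000000000000000000000001))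
  0x7fff7fff7fff7fff7fff7fff7fff7fff7fff7fff7fff7fff7fff7fff7fff7fff7fff7fff7fff7fff7fff7fff7fff7fff7fff7fff7fff7fff7fff7fff7fff7fff7fff7fff7fff7fff7fff7fff7fff7fff7fff7fff7fff7fff7fff7fff7fff7fff7fff7fff7fff7fff7fff7fff7fff7fff7fff7fff7fff7fff7fff7fff7fff7fff7fff7fff7fff7fff7fff7fff7fff7fff7fff7fff7fff7fff7fff7fff7fff7fff7fff7fff7fff7fff7fff7fff7fff7fff7fff7fff7fff7fff7fff7fff7fff7fff7fff7fff7fff7fff7fff7fff7fff7fff7fff7fff7fff7fff7fff7fff7fff7fff7fff7fff7fff7fff7fff7fff7fff7fff7fff7fff7fff7fff7fff7fff7fff7fff7fff7fff7fff7fff7fff7fff7fff7fff7fff7fff7fff7fff7fff7fff7fff7fff7fff7fff7fff7fff7fff7fff7fff7fff7fff7fff7fff7fff7fff7fff7fff7fff7fff7fff7fff7fff7fff7fff7fff7fff7fff7fff7fff7fff7fff7fff7fff7fff7fff7fff7fff7fff7fff7fff7fff7fff7fff7fff7fff7fff7fff7fff7fff7fff7fff7fff7fff7fff7fff7fff7fff7fff7fff7fff7fff7fff7fff7fff7fff7fff7fff7fff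

def fold (a s : Nat) : Nat := Nat.land a (Nat.shiftRight a s)

/-- Bits 16 i + 15 for i < 14 that stay set show lanes of G different from all rows of M2. -/
def rowsZ (M2 G : Nat) : Nat :=
  Nat.land (fold (fold (fold (fold (rowsT M2 G) 1680) 720) 480) 240) 0x80008000800080008000800080008000800080008000800080008000

/-- The test. -/
def isoCheck (full M c M2 : Nat) : Bool :=
  (fun G => @Bool.rec (fun _ => Bool) false
    (Nat.beq (rowsZ M2 (Nat.land G 0xffffffffffffffffffffffffffffffffffffffffffffffffffffffff)) 0) (Nat.beq (Nat.shiftRight G 240) full))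
    (permG (Nat.lor M (Nat.shiftLeft full 240)) c)

/-- Binary trees whose leaves hold numbers; each leaf packs entries of 224 bits. -/
inductive Tr : Type
  | leaf (v : Nat) : Tr
  | node (l r : Tr) : Tr

/-- Entry k of a leaf. -/
def entry (v k : Nat) : Nat := Nat.land (Nat.shiftRight v (Nat.mul k 224)) 0xffffffffffffffffffffffffffffffffffffffffffffffffffffffff

/-- Entry k of a tree. -/
def look (t : Tr) : Nat → Nat :=
  @Tr.rec (fun _ => Nat → Nat) (fun v k => entry v k)
    (fun _ _ il ir k => @Bool.rec (fun _ => Nat) (ir (Nat.shiftRight k 1)) (il (Nat.shiftRight k 1))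
      (Nat.beq (Nat.land k 1) 0)) t

/-- A line with its three points and the columns of these points. -/
structure Row : Type where
  i16 : Nat
  r : Nat
  a : Nat
  ca : Nat
  b : Nat
  cb : Nat
  c : Nat
  cc : Nat

def col (M x : Nat) : Nat := Nat.land (Nat.shiftRight M x) 0x10001000100010001000100010001000100010001000100010001

def mkRow' (M i16 r a b c : Nat) : Row := Row.mk i16 r a (col M a) b (col M b) c (col M c)

/-- The number i if b is 2 ^ i, for i < 14. -/
def pos (b : Nat) : Nat := Nat.land (Nat.shiftRight 0x9a4b750c0836002d100 (Nat.mul 4 (Nat.mod b 19))) 15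

def mkRow (M i16 : Nat) : Row :=
  (fun r => (fun r1 => (fun r2 => mkRow' M i16 r (pos r2) (pos (Nat.xor r1 r2)) (pos (Nat.xor r r1)))
    (clr r1)) (clr r)) (Nat.land (Nat.shiftRight M i16) 65535)

def rowOK (p : Row) : Bool :=
  Nat.beq p.r (Nat.lor (Nat.lor (Nat.shiftLeft 1 p.a) (Nat.shiftLeft 1 p.b)) (Nat.shiftLeft 1 p.c))

/-- The list of n rows from position i16 on. -/
def rowsFrom (M : Nat) : Nat → Nat → List Row :=
  fun n => @Nat.rec (fun _ => Nat → List Row) (fun _ => [])
    (fun _ ih i16 => mkRow M i16 :: ih (Nat.add i16 16)) n

def allOK (ps : List Row) : Bool :=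
  @List.rec Row (fun _ => Bool) true (fun p _ ih => @Bool.rec (fun _ => Bool) false ih (rowOK p)) ps

/-- One extension; C is the stream of certificates. -/
def step (t : Tr) (N n full M i16 A cA j16 B cB C : Nat) : Nat :=
  @Bool.rec (fun _ => Nat) C
    ((fun k => @Bool.rec (fun _ => Nat) 0
      (@Bool.rec (fun _ => Nat) 0 (Nat.shiftRight C 72)
        (isoCheck full (extN n M i16 A j16 B) (Nat.land C 0xffffffffffffff) (look t k)))
      (Nat.ble (Nat.succ k) N)) (Nat.land (Nat.shiftRight C 56) 65535))
    (Nat.beq (Nat.land cA cB) 0)

def pairStep (t : Tr) (N n full M : Nat) (p q : Row) (C : Nat) : Nat :=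
  @Bool.rec (fun _ => Nat) C
    (step t N n full M p.i16 p.c p.cc q.i16 q.c q.cc
    (step t N n full M p.i16 p.c p.cc q.i16 q.b q.cb
    (step t N n full M p.i16 p.c p.cc q.i16 q.a q.ca
    (step t N n full M p.i16 p.b p.cb q.i16 q.c q.cc
    (step t N n full M p.i16 p.b p.cb q.i16 q.b q.cb
    (step t N n full M p.i16 p.b p.cb q.i16 q.a q.ca
    (step t N n full M p.i16 p.a p.ca q.i16 q.c q.cc
    (step t N n full M p.i16 p.a p.ca q.i16 q.b q.cb
    (step t N n full M p.i16 p.a p.ca q.i16 q.a q.ca
    C)))))))))
    (Nat.beq (Nat.land p.r q.r) 0)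

def inner (t : Tr) (N n full M : Nat) (p : Row) (qs : List Row) : Nat → Nat :=
  @List.rec Row (fun _ => Nat → Nat) (fun C => C) (fun q _ ih C => ih (pairStep t N n full M p q C)) qs

def outer (t : Tr) (N n full M : Nat) (ps : List Row) : Nat → Nat :=
  @List.rec Row (fun _ => Nat → Nat) (fun C => C) (fun p qs ih C => ih (inner t N n full M p qs C)) ps

/-- The whole check for the configuration M. -/
def chkD (t : Tr) (N n full M C : Nat) : Bool :=
  (fun ps => @Bool.rec (fun _ => Bool) false (Nat.ble 1 (outer t N n full M ps C)) (allOK ps))
    (rowsFrom M n 0)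

/-- Short-circuit conjunction. -/
def an (a b : Bool) : Bool := @Bool.rec (fun _ => Bool) false b a

/-- Conditional. -/
def pif (b : Bool) (x y : Nat) : Nat := @Bool.rec (fun _ => Nat) y x b

def pifB (b x y : Bool) : Bool := @Bool.rec (fun _ => Bool) y x b

/-- At least three bits are set. -/
def deg3 (r : Nat) : Bool := Nat.ble 1 (clr (clr r))

def rowN (M y : Nat) : Nat := Nat.land (Nat.shiftRight M (Nat.mul 16 y)) 65535

/-- No line through x meets line y. -/
def cyc (M x y : Nat) : Bool :=
  Nat.beq (Nat.land (Nat.shiftRight (Nat.add (Nat.land M (Nat.mul (rowN M y) 0x10001000100010001000100010001000100010001000100010001)) 0x7fff7fff7fff7fff7fff7fff7fff7fff7fff7fff7fff7fff7fff7fff) 15)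
    (col M x)) 0

def feas (M x y : Nat) : Bool :=
  pifB (deg3 (col M x)) false (pifB (deg3 (rowN M y)) false (cyc M x y))

def bitN (x y : Nat) : Nat := Nat.shiftLeft 1 (Nat.add (Nat.mul 16 y) x)

/-- Continue with the incidence x, y added (or already there), unless it is impossible. -/
def addK (M x y : Nat) (k : Nat → Nat → Nat) (C : Nat) : Nat :=
  pif (tb M (Nat.add (Nat.mul 16 y) x)) (k M C) (pif (feas M x y) (k (Nat.lor M (bitN x y)) C) C)

/-- The same, but stop if the incidence is already there. -/
def addN (M x y : Nat) (k : Nat → Nat → Nat) (C : Nat) : Nat :=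
  pif (tb M (Nat.add (Nat.mul 16 y) x)) C (pif (feas M x y) (k (Nat.lor M (bitN x y)) C) C)

def loop (body : Nat → Nat → Nat) (n : Nat) : Nat → Nat :=
  @Nat.rec (fun _ => Nat → Nat) (fun C => C) (fun i ih C => body i (ih C)) n

def allB (f : Nat → Bool) (n : Nat) : Bool :=
  @Nat.rec (fun _ => Bool) true (fun i ih => an ih (f i)) n

/-- One row of the containment test. -/
def embRow (G s T y : Nat) : Bool :=
  (fun g => Nat.beq (Nat.land g (rowN T (Nat.land (Nat.shiftRight s (Nat.mul 4 y)) 15))) g) (rowN G y)

/-- S with labels moved by the permutations p and s is contained in T. -/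
def embCheck (S p s T : Nat) : Bool :=
  (fun G => an (Nat.beq (Nat.shiftRight G 240) 16383)
      (an (Nat.beq (Nat.shiftRight (permG (Nat.shiftLeft 16383 240) s) 240) 16383)
        (allB (fun y => embRow G s T y) 14)))
    (permG (Nat.lor S (Nat.shiftLeft 16383 240)) p)

/-- Match the state M with a later state of the list. -/
def mtch (t : Tr) (N idx M C : Nat) : Nat :=
  (fun j => pif (Nat.ble (Nat.succ idx) j) (pif (Nat.ble (Nat.succ j) N)
    (pif (embCheck (look t j) (Nat.land (Nat.shiftRight C 16) 0xffffffffffffff)
      (Nat.land (Nat.shiftRight C 72) 0xffffffffffffff) M) (Nat.shiftRight C 128) 0) 0) 0) (Nat.land C 65535)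

/-- Number of labels to try when the first U labels are in use. -/
def lab (U : Nat) : Nat := Nat.sub 14 (Nat.sub 13 U)

def boundP (M U : Nat) : Bool :=
  Nat.beq (Nat.land M (Nat.mul (Nat.sub 65536 (Nat.shiftLeft 1 U)) 0x10001000100010001000100010001000100010001000100010001)) 0

def boundL (M V : Nat) : Bool := Nat.beq (Nat.shiftRight M (Nat.mul 16 V)) 0

def notB (b : Bool) : Bool := @Bool.rec (fun _ => Bool) true false b

/-- Saturate point w. -/
def ruleP (t : Tr) (N idx M w V C : Nat) : Nat :=
  pif (boundL M V) (pif (notB (deg3 (col M w))) (pif (Nat.ble 1 (col M w))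
    (loop (fun y => addN M w y (mtch t N idx)) (lab V) C) 0) 0) 0

/-- Saturate line w. -/
def ruleL (t : Tr) (N idx M w U C : Nat) : Nat :=
  pif (boundP M U) (pif (notB (deg3 (rowN M w))) (pif (Nat.ble 1 (rowN M w))
    (loop (fun x => addN M x w (mtch t N idx)) (lab U) C) 0) 0) 0

/-- All hexagons through a, l, p, m. -/
def half (t : Tr) (N idx M p l m a U V : Nat) : Nat → Nat :=
  loop (fun x C => pif (Nat.beq x p) C
    (addK M x m (fun M1 => loop (fun y C => pif (Nat.beq y l) C
      (addK M1 a y (fun M2 => addK M2 x y (mtch t N idx)) C)) (lab V)) C)) (lab U)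

def five (M p l m k a b : Nat) : Bool :=
  an (tb M (Nat.add (Nat.mul 16 l) p)) (an (tb M (Nat.add (Nat.mul 16 m) p))
    (an (tb M (Nat.add (Nat.mul 16 k) p)) (an (tb M (Nat.add (Nat.mul 16 l) a))
      (tb M (Nat.add (Nat.mul 16 l) b)))))

def ne3 (a b c : Nat) : Bool :=
  an (notB (Nat.beq a b)) (an (notB (Nat.beq a c)) (notB (Nat.beq b c)))

/-- Use that the flag p, l with the matching (a, m), (b, k) is not reducible. -/
def ruleR (t : Tr) (N idx M p l m k a b U V C : Nat) : Nat :=
  pif (boundP M U) (pif (boundL M V) (pif (five M p l m k a b) (pif (ne3 p a b) (pif (ne3 l m k)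
    (half t N idx M p l k b U V (half t N idx M p l m a U V C)) 0) 0) 0) 0) 0

/-- M is closed: a configuration with n points and lines. -/
def closed (n msk M : Nat) : Bool :=
  an (Nat.beq (Nat.land M msk) M) (an (allB (fun y => deg3 (rowN M y)) n)
    (allB (fun x => deg3 (col M x)) n))

def ruleF (tab : Nat → Tr) (num : Nat → Nat) (t : Tr) (N idx M n msk c j C : Nat) : Nat :=
  pif (closed n msk M) (pif (Nat.ble 7 n) (pif (Nat.ble n 14) (pif (Nat.ble (Nat.succ j) (num n))
    (pif (isoCheck (Nat.sub (Nat.shiftLeft 1 n) 1) M c (look (tab n) j))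
      (pif (Nat.beq n 7) (mtch t N idx (Nat.lor M (bitN 7 7)) C) C) 0) 0) 0) 0) 0

def dg (C i : Nat) : Nat := Nat.land (Nat.shiftRight C (Nat.mul 4 i)) 15

/-- Full supports. -/
def smask (n : Nat) : Nat := Nat.mul (Nat.sub (Nat.shiftLeft 1 n) 1) (ones n)

/-- The check of one state. The stream starts with four-bit digits that give the rule. -/
def stCheck (tab : Nat → Tr) (num : Nat → Nat) (t : Tr) (N idx C : Nat) : Bool :=
  (fun M => an (Nat.beq (Nat.land M 0x3fff3fff3fff3fff3fff3fff3fff3fff3fff3fff3fff3fff3fff3fff) M) (Nat.ble 1
      (pif (Nat.beq (dg C 0) 0) (ruleP t N idx M (dg C 1) (dg C 2) (Nat.shiftRight C 128))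
      (pif (Nat.beq (dg C 0) 1) (ruleL t N idx M (dg C 1) (dg C 2) (Nat.shiftRight C 128))
      (pif (Nat.beq (dg C 0) 2) (ruleR t N idx M (dg C 1) (dg C 2) (dg C 3) (dg C 4) (dg C 5) (dg C 6)
        (dg C 7) (dg C 8) (Nat.shiftRight C 128))
      (ruleF tab num t N idx M (dg C 1) (smask (dg C 1)) (Nat.land (Nat.shiftRight C 16) 0xffffffffffffff)
        (Nat.land (Nat.shiftRight C 72) 65535) (Nat.shiftRight C 128))))))) (look t idx)

/-- Move 14 numbers of 8 bits into lanes of 128 bits. -/
def sprd (c : Nat) : Nat :=
  Nat.land (Nat.mul (Nat.land c 0xffffffffffffffffffffffffffff) 0x1000000000000000000000000000001000000000000000000000000000001000000000000000000000000000001000000000000000000000000000001000000000000000000000000000001000000000000000000000000000001000000000000000000000000000001000000000000000000000000000001000000000000000000000000000001000000000000000000000000000001000000000000000000000000000001000000000000000000000000000001000000000000000000000000000001) 0xff000000000000000000000000000000ff000000000000000000000000000000ff000000000000000000000000000000ff000000000000000000000000000000ff000000000000000000000000000000ff000000000000000000000000000000ff000000000000000000000000000000ff000000000000000000000000000000ff000000000000000000000000000000ff000000000000000000000000000000ff000000000000000000000000000000ff000000000000000000000000000000ff000000000000000000000000000000ff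

/-- Lane i is set if point i is not on the line. -/
def lineT (X Y Z full a b c : Nat) : Nat :=
  Nat.land (Nat.shiftRight (Nat.add (Nat.xor
    (Nat.add (Nat.add (Nat.mul a X) (Nat.add (Nat.mul b Y) (Nat.mul c Z))) (Nat.mul 49152 0x100000000000000000000000000000001000000000000000000000000000000010000000000000000000000000000000100000000000000000000000000000001000000000000000000000000000000010000000000000000000000000000000100000000000000000000000000000001000000000000000000000000000000010000000000000000000000000000000100000000000000000000000000000001000000000000000000000000000000010000000000000000000000000000000100000000000000000000000000000001))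
    (Nat.add (Nat.mul 128 (Nat.add X (Nat.add Y Z))) (Nat.mul (Nat.mul 128 (Nat.add a (Nat.add b c))) 0x100000000000000000000000000000001000000000000000000000000000000010000000000000000000000000000000100000000000000000000000000000001000000000000000000000000000000010000000000000000000000000000000100000000000000000000000000000001000000000000000000000000000000010000000000000000000000000000000100000000000000000000000000000001000000000000000000000000000000010000000000000000000000000000000100000000000000000000000000000001)))
    0x7fffffffffffffffffffffffffffffff7fffffffffffffffffffffffffffffff7fffffffffffffffffffffffffffffff7fffffffffffffffffffffffffffffff7fffffffffffffffffffffffffffffff7fffffffffffffffffffffffffffffff7fffffffffffffffffffffffffffffff7fffffffffffffffffffffffffffffff7fffffffffffffffffffffffffffffff7fffffffffffffffffffffffffffffff7fffffffffffffffffffffffffffffff7fffffffffffffffffffffffffffffff7fffffffffffffffffffffffffffffff7fffffffffffffffffffffffffffffff) 127) full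

/-- Lane i is set if point i is on line y of M. -/
def lineR (M full y : Nat) : Nat :=
  Nat.land (Nat.mul (rowN M y) 0x80000000000000000000000000000001000000000000000000000000000000020000000000000000000000000000000400000000000000000000000000000008000000000000000000000000000000100000000000000000000000000000002000000000000000000000000000000040000000000000000000000000000000800000000000000000000000000000010000000000000000000000000000000200000000000000000000000000000004000000000000000000000000000000080000000000000000000000000000001) full

def lineOK (M X Y Z full y D : Nat) : Bool :=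
  Nat.beq (Nat.xor (lineT X Y Z full (Nat.land D 255) (Nat.land (Nat.shiftRight D 8) 255)
    (Nat.land (Nat.shiftRight D 16) 255)) (lineR M full y)) full

def zOK (Z full : Nat) : Bool :=
  Nat.beq (Nat.land (Nat.shiftRight (Nat.add (Nat.xor Z (Nat.mul 128 0x100000000000000000000000000000001000000000000000000000000000000010000000000000000000000000000000100000000000000000000000000000001000000000000000000000000000000010000000000000000000000000000000100000000000000000000000000000001000000000000000000000000000000010000000000000000000000000000000100000000000000000000000000000001000000000000000000000000000000010000000000000000000000000000000100000000000000000000000000000001))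
    0x7fffffffffffffffffffffffffffffff7fffffffffffffffffffffffffffffff7fffffffffffffffffffffffffffffff7fffffffffffffffffffffffffffffff7fffffffffffffffffffffffffffffff7fffffffffffffffffffffffffffffff7fffffffffffffffffffffffffffffff7fffffffffffffffffffffffffffffff7fffffffffffffffffffffffffffffff7fffffffffffffffffffffffffffffff7fffffffffffffffffffffffffffffff7fffffffffffffffffffffffffffffff7fffffffffffffffffffffffffffffff7fffffffffffffffffffffffffffffff) 127) full) full

/-- The whole test. -/
def rlz (n full M C : Nat) : Bool :=
  (fun X Y Z => an (zOK Z full)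
    (allB (fun y => lineOK M X Y Z full y (Nat.shiftRight C (Nat.add 336 (Nat.mul 24 y)))) n))
    (sprd C) (sprd (Nat.shiftRight C 112)) (sprd (Nat.shiftRight C 224))

/-- Check of the entries s, ..., e - 1 of tn, with one stream each. -/
def chkL (t : Tr) (N n full : Nat) (tn : Tr) (l : List Nat) : Nat → Nat → Bool :=
  @List.rec Nat (fun _ => Nat → Nat → Bool) (fun s e => Nat.beq s e)
    (fun C _ ih s e => an (chkD t N n full (look tn s) C) (ih (Nat.succ s) e)) l

/-- Check of the states s, ..., e - 1, with one stream each. -/
def stL (tab : Nat → Tr) (num : Nat → Nat) (t : Tr) (N : Nat) (l : List Nat) : Nat → Nat → Bool :=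
  @List.rec Nat (fun _ => Nat → Nat → Bool) (fun s e => Nat.beq s e)
    (fun C _ ih s e => an (stCheck tab num t N s C) (ih (Nat.succ s) e)) l

/-- Check of the coordinates for the entries s, ..., e - 1 of tn. -/
def rlzL (n full : Nat) (tn : Tr) (l : List Nat) : Nat → Nat → Bool :=
  @List.rec Nat (fun _ => Nat → Nat → Bool) (fun s e => Nat.beq s e)
    (fun C _ ih s e => an (rlz n full (look tn s) C) (ih (Nat.succ s) e)) l

/-- All leaves have only bits of the mask. -/
def suppT (mask : Nat) (t : Tr) : Bool :=
  @Tr.rec (fun _ => Bool) (fun v => Nat.beq (Nat.land v mask) v) (fun _ _ a b => an a b) t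

/-- Choice of one of eight by a number from 7 to 14. -/
def pick {α : Type} (a7 a8 a9 a10 a11 a12 a13 a14 : α) (n : Nat) : α :=
  @Bool.rec (fun _ => α) (@Bool.rec (fun _ => α) (@Bool.rec (fun _ => α) (@Bool.rec (fun _ => α)
    (@Bool.rec (fun _ => α) (@Bool.rec (fun _ => α) (@Bool.rec (fun _ => α) a7 a8 (Nat.beq n 8))
    a9 (Nat.beq n 9)) a10 (Nat.beq n 10)) a11 (Nat.beq n 11)) a12 (Nat.beq n 12)) a13 (Nat.beq n 13))
    a14 (Nat.beq n 14)

end

end Pool.Agent.Cfg3
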