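import Pool.Agent.Cfg3.Lanes
import Pool.Agent.Cfg3.Abstract

/-!
Incidence structures stored in natural numbers: bit 16 y + x says that point x is on line y.
-/

namespace Pool.Agent.Cfg3

noncomputable section

theorem tb_eq (M k : ℕ) : tb M k = M.testBit k := by
  have h1 : tb M k = Nat.beq ((M >>> k) &&& 1) 1 := rfl
  rw [h1, Nat.testBit, Nat.and_comm 1]
  rcases Nat.mod_two_eq_zero_or_one (M >>> k) with h | h <;>
    rw [Nat.and_one_is_mod, h] <;> rfl

/-- The number M describes I. -/
def Mod {P L : Type*} (n : ℕ) (M : ℕ) (I : P → L → Prop) : Prop :=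
  ∃ (f : Fin n → P) (g : Fin n → L), Function.Bijective f ∧ Function.Bijective g ∧
    ∀ x y : Fin n, I (f x) (g y) ↔ M.testBit (16 * (y : ℕ) + x) = true

/-- All bits of M are at places of an n times n matrix. -/
def Supp (n M : ℕ) : Prop := ∀ k, M.testBit k = true → k % 16 < n ∧ k / 16 < n

theorem Mod.comp {P L P' L' : Type*} {n M : ℕ} {I : P → L → Prop} {α : P' → P} {β : L' → L}
    (hα : Function.Bijective α) (hβ : Function.Bijective β)
    (h : Mod n M (fun x y => I (α x) (β y))) : Mod n M I := by
  obtain ⟨f, g, hf, hg, h⟩ := h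
  exact ⟨α ∘ f, β ∘ g, hα.comp hf, hβ.comp hg, h⟩

theorem shl_testBit {s : ℕ} (hs : s < 2 ^ 16) {x : ℕ} (hx : x < 16) (i y : ℕ) :
    (s <<< (16 * i)).testBit (16 * y + x) = (decide (y = i) && s.testBit x) := by
  rw [Nat.testBit_shiftLeft]
  rcases lt_trichotomy y i with h | h | h
  · have h1 : ¬ (16 * y + x ≥ 16 * i) := by omega
    have h2 : y ≠ i := by omega
    simp [h1, h2]
  · subst h
    simp
  · have h2 : y ≠ i := by omega
    have h3 : s.testBit (16 * y + x - 16 * i) = false :=
      Nat.testBit_lt_two_pow (lt_of_lt_of_le hs (Nat.pow_le_pow_right (by norm_num) (by omega)))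
    simp [h2, h3]

theorem extN_eq (n M i16 A j16 B : ℕ) : extN n M i16 A j16 B =
    (M ^^^ ((1 <<< A ||| 1 <<< n) <<< i16)) ^^^ (((1 <<< B ||| 1 <<< n) <<< j16) ^^^
      ((1 <<< A ||| 1 <<< B ||| 1 <<< n) <<< (16 * n))) := rfl

theorem one_shl_lt {A : ℕ} (h : A < 16) : 1 <<< A < 2 ^ 16 := by
  rw [Nat.one_shiftLeft]
  exact Nat.pow_lt_pow_right (by norm_num) h

theorem testBit_one_shl (A x : ℕ) : (1 <<< A).testBit x = decide (A = x) := by
  rw [Nat.one_shiftLeft, Nat.testBit_two_pow]

theorem extN_testBit {n M i A j B : ℕ} (hn : n < 16) (hA : A < 16) (hB : B < 16) {x y : ℕ}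
    (hx : x < 16) : (extN n M (16 * i) A (16 * j) B).testBit (16 * y + x) =
    ((M.testBit (16 * y + x) ^^ (decide (y = i) && (decide (A = x) || decide (n = x)))) ^^
      ((decide (y = j) && (decide (B = x) || decide (n = x))) ^^
        (decide (y = n) && (decide (A = x) || decide (B = x) || decide (n = x))))) := by
  have h1 := one_shl_lt hn
  have h2 := one_shl_lt hA
  have h3 := one_shl_lt hB
  rw [extN_eq, Nat.testBit_xor, Nat.testBit_xor, Nat.testBit_xor,
    shl_testBit (Nat.or_lt_two_pow h2 h1) hx, shl_testBit (Nat.or_lt_two_pow h3 h1) hx,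
    shl_testBit (Nat.or_lt_two_pow (Nat.or_lt_two_pow h2 h3) h1) hx]
  simp only [Nat.testBit_or, testBit_one_shl]

theorem extN_supp {n M i A j B : ℕ} (hn : n < 16) (hM : Supp n M) (hi : i < n) (hj : j < n)
    (hA : A < n) (hB : B < n) : Supp (n + 1) (extN n M (16 * i) A (16 * j) B) := by
  intro k hk
  have hx : k % 16 < 16 := Nat.mod_lt _ (by norm_num)
  rw [← Nat.div_add_mod k 16, extN_testBit hn (by omega) (by omega) hx] at hk
  by_contra hcon
  have hM' : M.testBit (16 * (k / 16) + k % 16) = false := by
    by_contra h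
    have := hM _ (by simpa using h)
    rw [Nat.div_add_mod] at this
    omega
  rw [hM'] at hk
  have hcon' : ¬ k % 16 < n + 1 ∨ ¬ k / 16 < n + 1 := by
    by_contra h; push Not at h; exact hcon h
  rcases hcon' with h | h
  · have e1 : A ≠ k % 16 := by omega
    have e2 : B ≠ k % 16 := by omega
    have e3 : n ≠ k % 16 := by omega
    simp [e1, e2, e3] at hk
  · have e1 : k / 16 ≠ i := by omega
    have e2 : k / 16 ≠ j := by omega
    have e3 : k / 16 ≠ n := by omega
    simp [e1, e2, e3] at hk

theorem snoc_bij {n : ℕ} {f : Fin n → Fin n} (hf : Function.Bijective f) :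
    Function.Bijective (fun x : Fin (n + 1) =>
      (Fin.lastCases (motive := fun _ => Fin (n + 1)) (Fin.last n) (fun x => (f x).castSucc) x)) := by
  rw [← Finite.injective_iff_bijective]
  intro x y
  refine Fin.lastCases ?_ (fun x => ?_) x
  · refine Fin.lastCases ?_ (fun y => ?_) y
    · intro _; rfl
    · intro h
      simp only [Fin.lastCases_last, Fin.lastCases_castSucc] at h
      exact absurd h.symm (Fin.castSucc_ne_last _)
  · refine Fin.lastCases ?_ (fun y => ?_) y
    · intro h
      simp only [Fin.lastCases_last, Fin.lastCases_castSucc] at h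
      exact absurd h (Fin.castSucc_ne_last _)
    · intro h
      simp only [Fin.lastCases_castSucc] at h
      rw [hf.1 (Fin.castSucc_injective n h)]

theorem ext_mod {n M : ℕ} (hn : n < 16) {I : Fin (n + 1) → Fin (n + 1) → Prop}
    {m k a b : Fin n} (hI : Conf3 I)
    (h : Flag I (Fin.last n) (Fin.last n) m.castSucc k.castSucc a.castSucc b.castSucc)
    (hS : Supp n M) (hM : Mod n M (red I m k a b)) :
    ∃ i A j B : Fin n, i ≠ j ∧ M.testBit (16 * (i : ℕ) + A) = true ∧
      M.testBit (16 * (j : ℕ) + B) = true ∧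
      (∀ x : Fin n, ¬ (M.testBit (16 * (i : ℕ) + x) = true ∧ M.testBit (16 * (j : ℕ) + x) = true)) ∧
      (∀ y : Fin n, ¬ (M.testBit (16 * (y : ℕ) + A) = true ∧ M.testBit (16 * (y : ℕ) + B) = true)) ∧
      Mod (n + 1) (extN n M (16 * (i : ℕ)) A (16 * (j : ℕ)) B) I := by
  obtain ⟨f, g, hf, hg, hfg⟩ := hM
  have hmk : m ≠ k := fun h' => h.nmk (congrArg _ h')
  have hab : a ≠ b := fun h' => h.ab (congrArg _ h')
  obtain ⟨i, hi⟩ := hg.2 m
  obtain ⟨j, hj⟩ := hg.2 k
  obtain ⟨A, hA⟩ := hf.2 a
  obtain ⟨B, hB⟩ := hf.2 b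
  have hij : i ≠ j := fun e => hmk (by rw [← hi, ← hj, e])
  have hAB : A ≠ B := fun e => hab (by rw [← hA, ← hB, e])
  have bAi : M.testBit (16 * (i : ℕ) + A) = true := by
    rw [← hfg, hA, hi]; exact Or.inr (Or.inl ⟨rfl, rfl⟩)
  have bBj : M.testBit (16 * (j : ℕ) + B) = true := by
    rw [← hfg, hB, hj]; exact Or.inr (Or.inr ⟨rfl, rfl⟩)
  have dis : ∀ x : Fin n, ¬ (red I m k a b x m ∧ red I m k a b x k) := by
    rintro x ⟨h1, h2⟩
    rcases h1 with h1 | ⟨h1, -⟩ | ⟨-, h1⟩
    · rcases h2 with h2 | ⟨-, h2⟩ | ⟨h2, -⟩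
      · exact h.nmk (hI.lin x.castSucc (Fin.last n) _ _ (Fin.castSucc_ne_last x) h1 h.pm h2 h.pk)
      · exact hmk h2.symm
      · subst h2; exact h.b_not_m hI h1
    · subst h1
      rcases h2 with h2 | ⟨-, h2⟩ | ⟨h2, -⟩
      · exact h.a_not_k hI h2
      · exact hmk h2.symm
      · exact hab h2
    · exact hmk h1
  have ncol : ∀ y : Fin n, ¬ (red I m k a b a y ∧ red I m k a b b y) := by
    rintro y ⟨h1, h2⟩
    rcases h1 with h1 | ⟨-, h1⟩ | ⟨h1, -⟩
    · rcases h2 with h2 | ⟨h2, -⟩ | ⟨-, h2⟩
      · exact Fin.castSucc_ne_last y (hI.lin _ _ _ _ h.ab h1 h2 h.al h.bl)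
      · exact hab h2.symm
      · subst h2; exact h.a_not_k hI h1
    · subst h1
      rcases h2 with h2 | ⟨h2, -⟩ | ⟨-, h2⟩
      · exact h.b_not_m hI h2
      · exact hab h2.symm
      · exact hmk h2
    · exact hab h1
  refine ⟨i, A, j, B, hij, bAi, bBj, ?_, ?_, ?_⟩
  · rintro x ⟨h1, h2⟩
    rw [← hfg, hi] at h1
    rw [← hfg, hj] at h2
    exact dis _ ⟨h1, h2⟩
  · rintro y ⟨h1, h2⟩
    rw [← hfg, hA] at h1
    rw [← hfg, hB] at h2
    exact ncol _ ⟨h1, h2⟩
  · refine ⟨_, _, snoc_bij hf, snoc_bij hg, ?_⟩
    have hA16 : (A : ℕ) < 16 := by omega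
    have hB16 : (B : ℕ) < 16 := by omega
    have nsup : ∀ x y : ℕ, x < 16 → (¬ x < n ∨ ¬ y < n) → M.testBit (16 * y + x) = false := by
      intro x y hx hxy
      by_contra hc
      have := hS _ (by simpa using hc)
      have e1 : (16 * y + x) % 16 = x := by omega
      have e2 : (16 * y + x) / 16 = y := by omega
      rw [e1, e2] at this
      omega
    intro x y
    rw [extN_testBit hn hA16 hB16 (by omega)]
    refine Fin.lastCases ?_ (fun x => ?_) x
    · refine Fin.lastCases ?_ (fun y => ?_) y
      · simp only [Fin.lastCases_last, Fin.val_last]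
        rw [nsup n n hn (Or.inl (lt_irrefl n))]
        have e1 : n ≠ (i : ℕ) := by omega
        have e2 : n ≠ (j : ℕ) := by omega
        simp [e1, e2, h.pl]
      · simp only [Fin.lastCases_last, Fin.lastCases_castSucc, Fin.val_last, Fin.val_castSucc]
        rw [nsup n y hn (Or.inl (lt_irrefl n))]
        have e3 : (y : ℕ) ≠ n := by omega
        have e4 : ((y : ℕ) = i ↔ y = i) := ⟨fun h => Fin.ext h, fun h => by rw [h]⟩
        have e5 : ((y : ℕ) = j ↔ y = j) := ⟨fun h => Fin.ext h, fun h => by rw [h]⟩
        constructor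
        · intro hy
          rcases hI.lines_eq h.pl h.pm h.pk h.nlm h.nlk h.nmk hy with h' | h' | h'
          · exact absurd h' (Fin.castSucc_ne_last _)
          · have : y = i := hg.1 (by rw [hi]; exact Fin.castSucc_injective n h')
            subst this
            have e6 : (y : ℕ) ≠ j := fun e => hij (Fin.ext e)
            simp [e3, e6]
          · have : y = j := hg.1 (by rw [hj]; exact Fin.castSucc_injective n h')
            subst this
            have e6 : (y : ℕ) ≠ i := fun e => hij (Fin.ext e.symm)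
            simp [e3, e6]
        · intro hy
          by_cases c1 : y = i
          · rw [c1, hi]; exact h.pm
          · by_cases c2 : y = j
            · rw [c2, hj]; exact h.pk
            · have d1 : (y : ℕ) ≠ i := fun e => c1 (Fin.ext e)
              have d2 : (y : ℕ) ≠ j := fun e => c2 (Fin.ext e)
              simp [e3, d1, d2] at hy
    · refine Fin.lastCases ?_ (fun y => ?_) y
      · simp only [Fin.lastCases_last, Fin.lastCases_castSucc, Fin.val_last, Fin.val_castSucc]
        rw [nsup x n (by omega) (Or.inr (lt_irrefl n))]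
        have e1 : n ≠ (i : ℕ) := by omega
        have e2 : n ≠ (j : ℕ) := by omega
        have e3 : n ≠ (x : ℕ) := by omega
        constructor
        · intro hx
          rcases hI.points_eq h.pl h.al h.bl h.ap.symm h.bp.symm h.ab hx with h' | h' | h'
          · exact absurd h' (Fin.castSucc_ne_last _)
          · have : x = A := hf.1 (by rw [hA]; exact Fin.castSucc_injective n h')
            subst this
            simp [e1, e2]
          · have : x = B := hf.1 (by rw [hB]; exact Fin.castSucc_injective n h')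
            subst this
            simp [e1, e2]
        · intro hx
          by_cases c1 : x = A
          · rw [c1, hA]; exact h.al
          · by_cases c2 : x = B
            · rw [c2, hB]; exact h.bl
            · have d1 : (A : ℕ) ≠ x := fun e => c1 (Fin.ext e.symm)
              have d2 : (B : ℕ) ≠ x := fun e => c2 (Fin.ext e.symm)
              simp [e3, d1, d2] at hx
      · simp only [Fin.lastCases_castSucc, Fin.val_castSucc]
        have e3 : (y : ℕ) ≠ n := by omega
        have e4 : n ≠ (x : ℕ) := by omega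
        have key := hfg x y
        by_cases c1 : x = A ∧ y = i
        · obtain ⟨rfl, rfl⟩ := c1
          have d1 : (y : ℕ) ≠ j := fun e => hij (Fin.ext e)
          rw [bAi]
          have : ¬ I (f x).castSucc (g y).castSucc := by rw [hA, hi]; exact h.a_not_m hI
          simp [e3, e4, d1, this]
        · by_cases c2 : x = B ∧ y = j
          · obtain ⟨rfl, rfl⟩ := c2
            have d1 : (y : ℕ) ≠ i := fun e => hij (Fin.ext e.symm)
            rw [bBj]
            have : ¬ I (f x).castSucc (g y).castSucc := by rw [hB, hj]; exact h.b_not_k hI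
            simp [e3, e4, d1, this]
          · have k1 : ¬ (f x = a ∧ g y = m) := by
              rintro ⟨h1, h2⟩
              exact c1 ⟨hf.1 (h1.trans hA.symm), hg.1 (h2.trans hi.symm)⟩
            have k2 : ¬ (f x = b ∧ g y = k) := by
              rintro ⟨h1, h2⟩
              exact c2 ⟨hf.1 (h1.trans hB.symm), hg.1 (h2.trans hj.symm)⟩
            have k3 : red I m k a b (f x) (g y) ↔ I (f x).castSucc (g y).castSucc := by
              constructor
              · rintro (h' | h' | h')
                · exact h'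
                · exact absurd h' k1
                · exact absurd h' k2
              · exact Or.inl
            rw [← k3, key]
            have c1' : ((decide ((y : ℕ) = i) && (decide ((A : ℕ) = x) || decide (n = (x : ℕ))))) = false := by
              rw [Bool.eq_false_iff]
              intro hh
              simp only [Bool.and_eq_true, decide_eq_true_eq, Bool.or_eq_true, e4, or_false] at hh
              exact c1 ⟨Fin.ext hh.2.symm, Fin.ext hh.1⟩
            have c2' : ((decide ((y : ℕ) = j) && (decide ((B : ℕ) = x) || decide (n = (x : ℕ))))) = false := by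
              rw [Bool.eq_false_iff]
              intro hh
              simp only [Bool.and_eq_true, decide_eq_true_eq, Bool.or_eq_true, e4, or_false] at hh
              exact c2 ⟨Fin.ext hh.2.symm, Fin.ext hh.1⟩
            rw [c1', c2']
            simp [e3]

end

end Pool.Agent.Cfg3
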