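import Pool.Agent.Cfg3.Steps

/-!
A search through partial incidence structures that finds all configurations without a
reducible flag.
-/

namespace Pool.Agent.Cfg3

noncomputable section

theorem an_eq {a b : Bool} : an a b = true ↔ a = true ∧ b = true := by
  cases a <;> cases b <;> simp [an]

theorem pif_ne {b : Bool} {x : ℕ} (h : pif b x 0 ≠ 0) : b = true ∧ x ≠ 0 := by
  cases b
  · exact absurd rfl h
  · exact ⟨rfl, h⟩

end

end Pool.Agent.Cfg3
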