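import Pool.Agent.Cfg3.DagSem

/-!
The search finds all configurations without a reducible flag.
-/

namespace Pool.Agent.Cfg3

theorem top_perm {Z p : ℕ} (hZ : ∀ x < 14, Z.testBit (16 * 15 + x) = true)
    (h : Nat.beq (Nat.shiftRight (permG Z p) 240) 16383 = true) :
    (∀ x < 14, dig p x < 14) ∧ Set.InjOn (dig p) {x | x < 14} := by
  have h1 : permG Z p >>> 240 = 2 ^ 14 - 1 := Nat.eq_of_beq_eq_true h
  have h2 : ∀ b < 16, (permG Z p).testBit (16 * 15 + b) = decide (b < 14) := by
    intro b hb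
    have := congrArg (fun z => Nat.testBit z b) h1
    simp only [Nat.testBit_shiftRight] at this
    rw [two_pow_sub_testBit] at this
    exact this
  have h3 : ∀ x < 14, dig p x < 14 := by
    intro x hx
    have h4 : (permG Z p).testBit (16 * 15 + dig p x) = true := by
      rw [permG_testBit _ _ (by norm_num) (by norm_num) (dig_lt p x)]
      exact ⟨x, hx, hZ x hx, rfl⟩
    rw [h2 _ (dig_lt p x)] at h4
    simpa using h4
  refine ⟨h3, ?_⟩
  let F : Fin 14 → Fin 14 := fun x => ⟨dig p x, h3 x x.2⟩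
  have hs : Function.Surjective F := by
    intro b
    have h4 : (permG Z p).testBit (16 * 15 + b) = true := by
      rw [h2 b (by omega)]
      simp
    rw [permG_testBit _ _ (by norm_num) (by norm_num) (by omega)] at h4
    obtain ⟨x, hx, -, h5⟩ := h4
    exact ⟨⟨x, hx⟩, Fin.ext h5⟩
  have hi := Finite.injective_iff_surjective.2 hs
  intro a ha b hb hab
  have : (⟨a, ha⟩ : Fin 14) = ⟨b, hb⟩ := hi (Fin.ext hab)
  exact congrArg Fin.val this

section
variable {n : ℕ} {I : Fin n → Fin n → Prop} {M : ℕ} {f g : ℕ → Fin n} {X Y : Set ℕ}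

theorem top_bit (S : ℕ) : ∀ x < 14, (S ||| (16383 <<< 240)).testBit (16 * 15 + x) = true := by
  intro x hx
  rw [Nat.testBit_or, Nat.testBit_shiftLeft, show (16383 : ℕ) = 2 ^ 14 - 1 from rfl,
    two_pow_sub_testBit]
  have : 16 * 15 + x ≥ 240 := by omega
  have e : 16 * 15 + x - 240 = x := by omega
  simp [this, hx]

theorem top_bit' : ∀ x < 14, (16383 <<< 240 : ℕ).testBit (16 * 15 + x) = true := by
  intro x hx
  have := top_bit 0 x hx
  rwa [Nat.zero_or] at this

theorem Em.emb {S p s : ℕ} (h : Em I M f g X Y) (hS : Supp 14 S)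
    (hE : embCheck S p s M = true) : ∃ f' g' X' Y', Em I S f' g' X' Y' := by
  have hE' : an (Nat.beq (Nat.shiftRight (permG (Nat.lor S (Nat.shiftLeft 16383 240)) p) 240) 16383)
      (an (Nat.beq (Nat.shiftRight (permG (Nat.shiftLeft 16383 240) s) 240) 16383)
        (allB (fun y => embRow (permG (Nat.lor S (Nat.shiftLeft 16383 240)) p) s M y) 14)) = true := hE
  rw [an_eq, an_eq] at hE'
  obtain ⟨hE1, hE2, hE3⟩ := hE'
  obtain ⟨p1, p2⟩ := top_perm (top_bit S) hE1
  obtain ⟨s1, s2⟩ := top_perm top_bit' hE2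
  refine ⟨fun x => f (dig p x), fun y => g (dig s y), {x | x < 14 ∧ dig p x ∈ X},
    {y | y < 14 ∧ dig s y ∈ Y}, hS, ?_, ?_, ?_⟩
  · intro a ha b hb hab
    exact p2 ha.1 hb.1 (h.injP ha.2 hb.2 hab)
  · intro a ha b hb hab
    exact s2 ha.1 hb.1 (h.injL ha.2 hb.2 hab)
  · intro x y hx hy hb
    have h1 : Nat.land (rowN (permG (S ||| (16383 <<< 240)) p) y) (rowN M (dig s y)) =
        rowN (permG (S ||| (16383 <<< 240)) p) y := Nat.eq_of_beq_eq_true (allB_iff hE3 y hy)
    have h2 : (rowN (permG (S ||| (16383 <<< 240)) p) y).testBit (dig p x) = true := by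
      rw [rowN_testBit (dig_lt p x), permG_testBit _ _ (by omega) (by omega) (dig_lt p x)]
      refine ⟨x, hx, ?_, rfl⟩
      rw [Nat.testBit_or, hb, Bool.true_or]
    have h3 : (rowN (permG (S ||| (16383 <<< 240)) p) y &&& rowN M (dig s y)).testBit (dig p x)
        = true := by
      rw [show (rowN (permG (S ||| (16383 <<< 240)) p) y &&& rowN M (dig s y)) =
        rowN (permG (S ||| (16383 <<< 240)) p) y from h1]
      exact h2
    rw [Nat.testBit_and, Bool.and_eq_true] at h3
    have h4 := h.inc (dig p x) (dig s y) (p1 x hx) (s1 y hy) (rowN_testBit_iff.1 h3.2).2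
    exact ⟨⟨hx, h4.1⟩, ⟨hy, h4.2.1⟩, h4.2.2⟩

theorem smask_bit : ∀ n < 15, ∀ k < 224, (smask n).testBit k =
    (decide (k % 16 < n) && decide (k / 16 < n)) := by decide +kernel

theorem smask_lt : ∀ n < 15, smask n < 2 ^ 224 := by decide +kernel

theorem supp_of_smask {n M : ℕ} (hn : n ≤ 14) (h : Nat.beq (Nat.land M (smask n)) M = true) :
    Supp n M := by
  have h1 : M &&& smask n = M := Nat.eq_of_beq_eq_true h
  intro k hk
  rw [← h1, Nat.testBit_and, Bool.and_eq_true] at hk
  have hk2 := hk.2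
  by_cases hk' : k < 224
  · rw [smask_bit n (by omega) k hk'] at hk2
    simpa using hk2
  · rw [Nat.testBit_lt_two_pow (lt_of_lt_of_le (smask_lt n (by omega))
      (Nat.pow_le_pow_right (by norm_num) (by omega)))] at hk2
    exact absurd hk2 Bool.false_ne_true

theorem closed_line (hI : Conf3 I) (h : Em I M f g X Y) {k : ℕ} (hk : Supp k M) (hk14 : k ≤ 14)
    (hcol : ∀ x < k, deg3 (col M x) = true) {x : ℕ} (hx : x < k) {l : Fin n} (hl : I (f x) l) :
    ∃ y < k, g y = l ∧ M.testBit (16 * y + x) = true := by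
  obtain ⟨a, b, c, hab, hac, hbc, ha, hb, hc⟩ := deg3_iff.1 (hcol x hx)
  rw [col_testBit_iff] at ha hb hc
  have sa := hk.bit (by omega : x < 16) ha.2.2
  have sb := hk.bit (by omega : x < 16) hb.2.2
  have sc := hk.bit (by omega : x < 16) hc.2.2
  have ia := h.inc x (a / 16) (by omega) (by omega) ha.2.2
  have ib := h.inc x (b / 16) (by omega) (by omega) hb.2.2
  have ic := h.inc x (c / 16) (by omega) (by omega) hc.2.2
  have n1 : g (a / 16) ≠ g (b / 16) := fun e => hab (by have := h.injL ia.2.1 ib.2.1 e; omega)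
  have n2 : g (a / 16) ≠ g (c / 16) := fun e => hac (by have := h.injL ia.2.1 ic.2.1 e; omega)
  have n3 : g (b / 16) ≠ g (c / 16) := fun e => hbc (by have := h.injL ib.2.1 ic.2.1 e; omega)
  rcases hI.lines_eq ia.2.2 ib.2.2 ic.2.2 n1 n2 n3 hl with e | e | e
  · exact ⟨a / 16, sa.2, e.symm, ha.2.2⟩
  · exact ⟨b / 16, sb.2, e.symm, hb.2.2⟩
  · exact ⟨c / 16, sc.2, e.symm, hc.2.2⟩

theorem closed_point (hI : Conf3 I) (h : Em I M f g X Y) {k : ℕ} (hk : Supp k M) (hk14 : k ≤ 14)
    (hrow : ∀ y < k, deg3 (rowN M y) = true) {y : ℕ} (hy : y < k) {p : Fin n} (hp : I p (g y)) :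
    ∃ x < k, f x = p ∧ M.testBit (16 * y + x) = true := by
  obtain ⟨a, b, c, hab, hac, hbc, ha, hb, hc⟩ := deg3_iff.1 (hrow y hy)
  rw [rowN_testBit_iff] at ha hb hc
  have sa := hk.bit ha.1 ha.2
  have sb := hk.bit hb.1 hb.2
  have sc := hk.bit hc.1 hc.2
  have ia := h.inc a y (by omega) (by omega) ha.2
  have ib := h.inc b y (by omega) (by omega) hb.2
  have ic := h.inc c y (by omega) (by omega) hc.2
  have n1 : f a ≠ f b := fun e => hab (h.injP ia.1 ib.1 e)
  have n2 : f a ≠ f c := fun e => hac (h.injP ia.1 ic.1 e)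
  have n3 : f b ≠ f c := fun e => hbc (h.injP ib.1 ic.1 e)
  rcases hI.points_eq ia.2.2 ib.2.2 ic.2.2 n1 n2 n3 hp with e | e | e
  · exact ⟨a, sa.1, e.symm, ha.2⟩
  · exact ⟨b, sb.1, e.symm, hb.2⟩
  · exact ⟨c, sc.1, e.symm, hc.2⟩

/-- The configuration is one of the stored ones. -/
def Goal (tab : ℕ → Tr) (num : ℕ → ℕ) {n : ℕ} (I : Fin n → Fin n → Prop) : Prop :=
  ∃ j < num n, Mod n (look (tab n) j) I

theorem QF.sem {tab : ℕ → Tr} {num : ℕ → ℕ} {t : Tr} {N idx k c j : ℕ} (hn : n ≤ 14)
    (hI : Conf3 I) (htab : ∀ n, 7 ≤ n → n ≤ 14 → ∀ j < num n, Supp n (look (tab n) j))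
    (h : Em I M f g X Y) (hQ : QF tab num t N idx M k (smask k) c j) :
    Goal tab num I ∨ Has I (QM t N idx) := by
  obtain ⟨hcl, hk7, hk14, hj, hiso, hext⟩ := hQ
  have hk7 := Nat.le_of_ble_eq_true hk7
  have hk14 := Nat.le_of_ble_eq_true hk14
  have hj := Nat.le_of_ble_eq_true hj
  unfold closed at hcl
  rw [an_eq, an_eq] at hcl
  obtain ⟨hc1, hc2, hc3⟩ := hcl
  have hS : Supp k M := supp_of_smask hk14 hc1
  have hrow : ∀ y < k, deg3 (rowN M y) = true := allB_iff hc2
  have hcol : ∀ x < k, deg3 (col M x) = true := allB_iff hc3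
  have hX : ∀ x < k, x ∈ X := by
    intro x hx
    obtain ⟨a, -, -, -, -, -, ha, -, -⟩ := deg3_iff.1 (hcol x hx)
    rw [col_testBit_iff] at ha
    exact (h.inc x (a / 16) (by omega) (by omega) ha.2.2).1
  have hY : ∀ y < k, y ∈ Y := by
    intro y hy
    obtain ⟨a, -, -, -, -, -, ha, -, -⟩ := deg3_iff.1 (hrow y hy)
    rw [rowN_testBit_iff] at ha
    have := hS.bit ha.1 ha.2
    exact (h.inc a y (by omega) (by omega) ha.2).2.1
  have finj : Function.Injective (fun x : Fin k => f x) := fun a b hab =>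
    Fin.ext (h.injP (hX a a.2) (hX b b.2) hab)
  have ginj : Function.Injective (fun x : Fin k => g x) := fun a b hab =>
    Fin.ext (h.injL (hY a a.2) (hY b b.2) hab)
  have hkn : k ≤ n := by
    have := Fintype.card_le_of_injective _ finj
    simpa using this
  by_cases hkn' : k = n
  · left
    subst hkn'
    refine ⟨j, hj, ?_⟩
    have hM : Mod k M I := by
      refine ⟨fun x => f x, fun y => g y, Finite.injective_iff_bijective.1 finj,
        Finite.injective_iff_bijective.1 ginj, ?_⟩
      intro x y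
      constructor
      · intro hxy
        obtain ⟨y', hy', e, hb⟩ := closed_line hI h hS hk14 hcol x.2 hxy
        have : y' = y := h.injL (hY y' hy') (hY y y.2) e
        rwa [this] at hb
      · intro hb
        exact (h.inc x y (by omega) (by omega) hb).2.2
    have e : Nat.sub (Nat.shiftLeft 1 k) 1 = 2 ^ k - 1 := by
      show 1 <<< k - 1 = 2 ^ k - 1
      rw [Nat.one_shiftLeft]
    rw [e] at hiso
    exact iso_sound hk14 hS (htab k hk7 hk14 j hj) hiso hI hM
  · right
    -- a point outside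
    have hns : ¬ Function.Surjective (fun x : Fin k => f x) := by
      intro hs
      have := Fintype.card_le_of_surjective _ hs
      simp at this
      omega
    unfold Function.Surjective at hns
    push Not at hns
    obtain ⟨P, hP⟩ := hns
    have hseven := hI.seven P
    have hdis : ∀ x ∈ {x | ∃ l, I P l ∧ I x l}, ∀ x' : Fin k, f x' ≠ x := by
      rintro x ⟨l, hl1, hl2⟩ x' e
      rw [← e] at hl2
      obtain ⟨y, hy, e2, -⟩ := closed_line hI h hS hk14 hcol x'.2 hl2
      rw [← e2] at hl1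
      obtain ⟨x2, hx2, e3, -⟩ := closed_point hI h hS hk14 hrow hy hl1
      exact hP ⟨x2, hx2⟩ e3
    have hcard : 7 + k ≤ n := by
      have h1 : (Set.range (fun x : Fin k => f x)).ncard = k := by
        rw [← Set.image_univ, Set.ncard_image_of_injective _ finj, Set.ncard_univ]
        simp
      have h2 : Disjoint {x | ∃ l, I P l ∧ I x l} (Set.range (fun x : Fin k => f x)) := by
        rw [Set.disjoint_left]
        rintro x hx ⟨x', hx'⟩
        exact hdis x hx x' hx'
      have h3 := Set.ncard_union_eq h2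
      rw [hseven, h1] at h3
      rw [← h3]
      have h4 := Set.ncard_le_ncard (Set.subset_univ
        ({x | ∃ l, I P l ∧ I x l} ∪ Set.range (fun x : Fin k => f x)))
      rwa [Set.ncard_univ, Nat.card_eq_fintype_card, Fintype.card_fin] at h4
    have hk : k = 7 := by omega
    subst hk
    have hq := hext rfl
    obtain ⟨l, m, k', hlm, hlk, hmk, hSet⟩ := Set.ncard_eq_three.1 (hI.col P)
    have hl : I P l := by
      have : l ∈ {l | I P l} := by rw [hSet]; simp
      exact this
    have hgl : ∀ y < 7, g y ≠ l := by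
      intro y hy e
      rw [← e] at hl
      obtain ⟨x2, hx2, e3, -⟩ := closed_point hI h hS hk14 hrow hy hl
      exact hP ⟨x2, hx2⟩ e3
    refine ⟨_, Function.update f 7 P, Function.update g 7 l, {x | x < 8}, {y | y < 8}, hq, ?_⟩
    have E0 : Em I M (Function.update f 7 P) (Function.update g 7 l) {x | x < 8} {y | y < 8} := by
      refine ⟨h.supp, ?_, ?_, ?_⟩
      · intro a ha b hb hab
        have ha : a < 8 := ha
        have hb : b < 8 := hb
        by_cases ha7 : a = 7 <;> by_cases hb7 : b = 7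
        · rw [ha7, hb7]
        · rw [ha7, Function.update_self, Function.update_of_ne hb7] at hab
          exact absurd hab.symm (hP ⟨b, by omega⟩)
        · rw [hb7, Function.update_self, Function.update_of_ne ha7] at hab
          exact absurd hab (hP ⟨a, by omega⟩)
        · rw [Function.update_of_ne ha7, Function.update_of_ne hb7] at hab
          exact h.injP (hX a (by omega)) (hX b (by omega)) hab
      · intro a ha b hb hab
        have ha : a < 8 := ha
        have hb : b < 8 := hb
        by_cases ha7 : a = 7 <;> by_cases hb7 : b = 7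
        · rw [ha7, hb7]
        · rw [ha7, Function.update_self, Function.update_of_ne hb7] at hab
          exact absurd hab.symm (hgl b (by omega))
        · rw [hb7, Function.update_self, Function.update_of_ne ha7] at hab
          exact absurd hab (hgl a (by omega))
        · rw [Function.update_of_ne ha7, Function.update_of_ne hb7] at hab
          exact h.injL (hY a (by omega)) (hY b (by omega)) hab
      · intro x y hx hy hb
        have hs := hS.bit (by omega : x < 16) hb
        have hi := h.inc x y hx hy hb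
        refine ⟨by show x < 8; omega, by show y < 8; omega, ?_⟩
        rw [Function.update_of_ne (by omega), Function.update_of_ne (by omega)]
        exact hi.2.2
    exact E0.add (by show 7 < 8; norm_num) (by show 7 < 8; norm_num) (by norm_num) (by norm_num)
      (by rw [Function.update_self, Function.update_self]; exact hl)

end

theorem dg_lt (C i : ℕ) : dg C i < 16 := Nat.lt_succ_of_le Nat.and_le_right

theorem pif_cases {b : Bool} {x y : ℕ} (h : pif b x y ≠ 0) : x ≠ 0 ∨ y ≠ 0 := by
  cases b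
  · exact Or.inr h
  · exact Or.inl h

theorem supp14_of_mask {M : ℕ}
    (h : Nat.beq (Nat.land M 0x3fff3fff3fff3fff3fff3fff3fff3fff3fff3fff3fff3fff3fff3fff) M = true) :
    Supp 14 M := by
  apply supp_of_smask (le_refl 14)
  have : smask 14 = 0x3fff3fff3fff3fff3fff3fff3fff3fff3fff3fff3fff3fff3fff3fff := by decide +kernel
  rw [this]
  exact h

theorem dag_sound {tab : ℕ → Tr} {num : ℕ → ℕ} {t : Tr} {N : ℕ} (hN : 0 < N)
    (hroot : look t 0 = 0x100010007) (hall : ∀ idx < N, ∃ C, stCheck tab num t N idx C = true)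
    (htab : ∀ n, 7 ≤ n → n ≤ 14 → ∀ j < num n, Supp n (look (tab n) j))
    {n : ℕ} (hn : n ≤ 14) (hn1 : 0 < n) {I : Fin n → Fin n → Prop} (hI : Conf3 I)
    (hno : ∀ p l m k a b, ¬ Flag I p l m k a b) : Goal tab num I := by
  have hst : ∀ idx < N, Supp 14 (look t idx) ∧ ∀ f g X Y, Em I (look t idx) f g X Y →
      Goal tab num I ∨ Has I (QM t N idx) := by
    intro idx hidx
    obtain ⟨C, hC⟩ := hall idx hidx
    have hC' : an (Nat.beq (Nat.land (look t idx) 0x3fff3fff3fff3fff3fff3fff3fff3fff3fff3fff3fff3fff3fff3fff) (look t idx)) (Nat.ble 1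
      (pif (Nat.beq (dg C 0) 0) (ruleP t N idx (look t idx) (dg C 1) (dg C 2) (Nat.shiftRight C 128))
      (pif (Nat.beq (dg C 0) 1) (ruleL t N idx (look t idx) (dg C 1) (dg C 2) (Nat.shiftRight C 128))
      (pif (Nat.beq (dg C 0) 2) (ruleR t N idx (look t idx) (dg C 1) (dg C 2) (dg C 3) (dg C 4) (dg C 5) (dg C 6)
        (dg C 7) (dg C 8) (Nat.shiftRight C 128))
      (ruleF tab num t N idx (look t idx) (dg C 1) (smask (dg C 1)) (Nat.land (Nat.shiftRight C 16) 0xffffffffffffff)
        (Nat.land (Nat.shiftRight C 72) 65535) (Nat.shiftRight C 128)))))) = true := hC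
    rw [an_eq] at hC'
    obtain ⟨h1, h2⟩ := hC'
    refine ⟨supp14_of_mask h1, ?_⟩
    intro f g X Y hE
    have h3 := Nat.le_of_ble_eq_true h2
    rcases pif_cases (Nat.one_le_iff_ne_zero.1 h3) with h4 | h4
    · exact Or.inr (QP.sem hn hI hE (dg_lt C 1) (ruleP_str _ _ _ _ _ _ _ h4).2)
    rcases pif_cases h4 with h5 | h5
    · exact Or.inr (QL.sem hn hI hE (ruleL_str _ _ _ _ _ _ _ h5).2)
    rcases pif_cases h5 with h6 | h6
    · exact Or.inr (QR.sem hn hI hno (dg_lt C 1) (dg_lt C 5) (dg_lt C 6) hE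
        (ruleR_str _ _ _ _ _ _ _ _ _ _ _ _ _ h6).2)
    · exact QF.sem hn hI htab hE (ruleF_str _ _ _ _ _ _ _ _ _ _ _ h6).2
  have main : ∀ d idx, idx < N → N - idx ≤ d → ∀ f g X Y, Em I (look t idx) f g X Y →
      Goal tab num I := by
    intro d
    induction d with
    | zero => intro idx h1 h2; omega
    | succ d ih =>
      intro idx h1 h2 f g X Y hE
      rcases (hst idx h1).2 f g X Y hE with h3 | ⟨M, f', g', X', Y', ⟨j, p, s, hj1, hj2, hj3⟩, hE'⟩
      · exact h3
      · obtain ⟨f2, g2, X2, Y2, hE2⟩ := hE'.emb (hst j hj2).1 hj3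
        exact ih j hj2 (by omega) f2 g2 X2 Y2 hE2
  -- the root
  have P : Fin n := ⟨0, hn1⟩
  obtain ⟨l, m, k, hlm, hlk, hmk, hSet⟩ := Set.ncard_eq_three.1 (hI.col P)
  have hl : I P l := by
    have : l ∈ {l | I P l} := by rw [hSet]; simp
    exact this
  have hm : I P m := by
    have : m ∈ {l | I P l} := by rw [hSet]; simp
    exact this
  have hk : I P k := by
    have : k ∈ {l | I P l} := by rw [hSet]; simp
    exact this
  have h1 : ({x | I x l} \ {P}).ncard = 2 := by
    rw [Set.ncard_sdiff_singleton_of_mem (show P ∈ {x | I x l} from hl), hI.row]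
  obtain ⟨a, b, hab, h2⟩ := Set.ncard_eq_two.1 h1
  have ha : a ∈ {x | I x l} \ {P} := by rw [h2]; simp
  have hb : b ∈ {x | I x l} \ {P} := by rw [h2]; simp
  have haP : a ≠ P := ha.2
  have hbP : b ≠ P := hb.2
  have hal : I a l := ha.1
  have hbl : I b l := hb.1
  let f : ℕ → Fin n := fun x => if x = 0 then P else if x = 1 then a else b
  let g : ℕ → Fin n := fun y => if y = 0 then l else if y = 1 then m else k
  refine main N 0 hN (by omega) f g {x | x < 3} {y | y < 3} ?_
  refine ⟨(hst 0 hN).1, ?_, ?_, ?_⟩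
  · intro x hx y hy hxy
    have hx : x < 3 := hx
    have hy : y < 3 := hy
    have n1 := haP.symm
    have n2 := hbP.symm
    have n3 := hab.symm
    interval_cases x <;> interval_cases y <;> simp_all [f]
  · intro x hx y hy hxy
    have hx : x < 3 := hx
    have hy : y < 3 := hy
    have n1 := hlm.symm
    have n2 := hlk.symm
    have n3 := hmk.symm
    interval_cases x <;> interval_cases y <;> simp_all [g]
  · intro x y hx hy hb
    rw [hroot] at hb
    have key : ∀ k < 224, Nat.testBit 0x100010007 k = true →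
        k = 0 ∨ k = 16 ∨ k = 32 ∨ k = 1 ∨ k = 2 := by
      decide +kernel
    have key2 : (x = 0 ∧ y = 0) ∨ (x = 0 ∧ y = 1) ∨ (x = 0 ∧ y = 2) ∨ (x = 1 ∧ y = 0) ∨
        (x = 2 ∧ y = 0) := by
      have := key _ (by omega) hb
      omega
    rcases key2 with ⟨rfl, rfl⟩ | ⟨rfl, rfl⟩ | ⟨rfl, rfl⟩ | ⟨rfl, rfl⟩ | ⟨rfl, rfl⟩
    · exact ⟨by show 0 < 3; norm_num, by show 0 < 3; norm_num, hl⟩
    · exact ⟨by show 0 < 3; norm_num, by show 1 < 3; norm_num, hm⟩
    · exact ⟨by show 0 < 3; norm_num, by show 2 < 3; norm_num, hk⟩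
    · exact ⟨by show 1 < 3; norm_num, by show 0 < 3; norm_num, hal⟩
    · exact ⟨by show 2 < 3; norm_num, by show 0 < 3; norm_num, hbl⟩

end Pool.Agent.Cfg3
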