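import Pool.Agent.Cfg3.DagSound

/-!
The rules of the search.
-/

namespace Pool.Agent.Cfg3

/-- T only continues from nonzero streams, and shows Q. -/
def Str (T : ℕ → ℕ) (Q : Prop) : Prop := ∀ C, T C ≠ 0 → C ≠ 0 ∧ Q

theorem loop_str {body : ℕ → ℕ → ℕ} {Q : ℕ → Prop} (h : ∀ i, Str (body i) (Q i)) :
    ∀ n, Str (loop body n) (∀ i < n, Q i)
  | 0 => fun C hC => ⟨hC, fun i hi => absurd hi (Nat.not_lt_zero i)⟩
  | n + 1 => fun C hC => by
      have hC' : body n (loop body n C) ≠ 0 := hC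
      obtain ⟨h1, h2⟩ := h n _ hC'
      obtain ⟨h3, h4⟩ := loop_str h n _ h1
      refine ⟨h3, fun i hi => ?_⟩
      rcases Nat.lt_succ_iff_lt_or_eq.1 hi with h5 | rfl
      · exact h4 i h5
      · exact h2

theorem allB_iff {f : ℕ → Bool} : ∀ {n : ℕ}, allB f n = true → ∀ i < n, f i = true
  | 0, _, i, hi => absurd hi (Nat.not_lt_zero i)
  | n + 1, h, i, hi => by
      have h' : an (allB f n) (f n) = true := h
      rw [an_eq] at h'
      rcases Nat.lt_succ_iff_lt_or_eq.1 hi with h5 | rfl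
      · exact allB_iff h'.1 i h5
      · exact h'.2

/-- Some later state is contained in M. -/
def QM (t : Tr) (N idx M : ℕ) : Prop :=
  ∃ j p s, idx < j ∧ j < N ∧ embCheck (look t j) p s M = true

theorem mtch_str (t : Tr) (N idx M : ℕ) : Str (mtch t N idx M) (QM t N idx M) := by
  intro C hC
  have hC' : pif (Nat.ble (Nat.succ idx) (Nat.land C 65535))
      (pif (Nat.ble (Nat.succ (Nat.land C 65535)) N)
      (pif (embCheck (look t (Nat.land C 65535)) (Nat.land (Nat.shiftRight C 16) 0xffffffffffffff)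
      (Nat.land (Nat.shiftRight C 72) 0xffffffffffffff) M) (Nat.shiftRight C 128) 0) 0) 0 ≠ 0 := hC
  obtain ⟨h1, h2⟩ := pif_ne hC'
  obtain ⟨h3, h4⟩ := pif_ne h2
  obtain ⟨h5, h6⟩ := pif_ne h4
  refine ⟨?_, _, _, _, Nat.le_of_ble_eq_true h1, Nat.le_of_ble_eq_true h3, h5⟩
  rintro rfl
  exact h6 (Nat.zero_shiftRight 128)

def QK (M x y : ℕ) (Q : ℕ → Prop) : Prop :=
  (M.testBit (16 * y + x) = true → Q M) ∧
    (¬ M.testBit (16 * y + x) = true → feas M x y = true → Q (Nat.lor M (bitN x y)))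

def QN (M x y : ℕ) (Q : ℕ → Prop) : Prop :=
  ¬ M.testBit (16 * y + x) = true → feas M x y = true → Q (Nat.lor M (bitN x y))

theorem pif_true (x y : ℕ) : pif true x y = x := rfl
theorem pif_false (x y : ℕ) : pif false x y = y := rfl

theorem addK_str {M x y : ℕ} {k : ℕ → ℕ → ℕ} {Q : ℕ → Prop} (h : ∀ M', Str (k M') (Q M')) :
    Str (addK M x y k) (QK M x y Q) := by
  intro C hC
  unfold addK at hC
  have e : tb M (Nat.add (Nat.mul 16 y) x) = M.testBit (16 * y + x) := tb_eq _ _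
  rw [e] at hC
  by_cases hb : M.testBit (16 * y + x) = true
  · rw [hb, pif_true] at hC
    obtain ⟨h1, h2⟩ := h M C hC
    exact ⟨h1, fun _ => h2, fun h3 => absurd hb h3⟩
  · rw [Bool.eq_false_of_not_eq_true hb, pif_false] at hC
    by_cases hf : feas M x y = true
    · rw [hf, pif_true] at hC
      obtain ⟨h1, h2⟩ := h _ C hC
      exact ⟨h1, fun h3 => absurd h3 hb, fun _ _ => h2⟩
    · rw [Bool.eq_false_of_not_eq_true hf, pif_false] at hC
      exact ⟨hC, fun h3 => absurd h3 hb, fun _ h3 => absurd h3 hf⟩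

theorem addN_str {M x y : ℕ} {k : ℕ → ℕ → ℕ} {Q : ℕ → Prop} (h : ∀ M', Str (k M') (Q M')) :
    Str (addN M x y k) (QN M x y Q) := by
  intro C hC
  unfold addN at hC
  have e : tb M (Nat.add (Nat.mul 16 y) x) = M.testBit (16 * y + x) := tb_eq _ _
  rw [e] at hC
  by_cases hb : M.testBit (16 * y + x) = true
  · rw [hb, pif_true] at hC
    exact ⟨hC, fun h3 => absurd hb h3⟩
  · rw [Bool.eq_false_of_not_eq_true hb, pif_false] at hC
    by_cases hf : feas M x y = true
    · rw [hf, pif_true] at hC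
      obtain ⟨h1, h2⟩ := h _ C hC
      exact ⟨h1, fun _ _ => h2⟩
    · rw [Bool.eq_false_of_not_eq_true hf, pif_false] at hC
      exact ⟨hC, fun _ h3 => absurd h3 hf⟩

theorem pif_str {b : Bool} {T : ℕ → ℕ} {Q : Prop} (h : Str T Q) :
    Str (fun C => pif b (T C) 0) (b = true ∧ Q) := by
  intro C hC
  obtain ⟨h1, h2⟩ := pif_ne hC
  obtain ⟨h3, h4⟩ := h C h2
  exact ⟨h3, h1, h4⟩

theorem skip_str {b : Bool} {T : ℕ → ℕ} {Q : Prop} (h : Str T Q) :
    Str (fun C => pif b C (T C)) (b = false → Q) := by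
  intro C hC
  have hC' : pif b C (T C) ≠ 0 := hC
  cases b
  · obtain ⟨h3, h4⟩ := h C hC'
    exact ⟨h3, fun _ => h4⟩
  · exact ⟨hC', fun h => absurd h Bool.true_eq_false_eq_False⟩

def QP (t : Tr) (N idx M w V : ℕ) : Prop :=
  boundL M V = true ∧ notB (deg3 (col M w)) = true ∧ Nat.ble 1 (col M w) = true ∧
    ∀ y < lab V, QN M w y (QM t N idx)

theorem ruleP_str (t : Tr) (N idx M w V : ℕ) : Str (ruleP t N idx M w V) (QP t N idx M w V) :=
  pif_str (pif_str (pif_str (loop_str (fun _ => addN_str (fun M' => mtch_str t N idx M')) (lab V))))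

def QL (t : Tr) (N idx M w U : ℕ) : Prop :=
  boundP M U = true ∧ notB (deg3 (rowN M w)) = true ∧ Nat.ble 1 (rowN M w) = true ∧
    ∀ x < lab U, QN M x w (QM t N idx)

theorem ruleL_str (t : Tr) (N idx M w U : ℕ) : Str (ruleL t N idx M w U) (QL t N idx M w U) :=
  pif_str (pif_str (pif_str (loop_str (fun _ => addN_str (fun M' => mtch_str t N idx M')) (lab U))))

def QH (t : Tr) (N idx M p l m a U V : ℕ) : Prop :=
  ∀ x < lab U, Nat.beq x p = false → QK M x m (fun M1 => ∀ y < lab V, Nat.beq y l = false →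
    QK M1 a y (fun M2 => QK M2 x y (QM t N idx)))

theorem half_str (t : Tr) (N idx M p l m a U V : ℕ) :
    Str (half t N idx M p l m a U V) (QH t N idx M p l m a U V) :=
  loop_str (fun _ => skip_str (addK_str (fun _ => loop_str (fun _ => skip_str
    (addK_str (fun _ => addK_str (fun M' => mtch_str t N idx M')))) (lab V)))) (lab U)

def QR (t : Tr) (N idx M p l m k a b U V : ℕ) : Prop :=
  boundP M U = true ∧ boundL M V = true ∧ five M p l m k a b = true ∧ ne3 p a b = true ∧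
    ne3 l m k = true ∧ QH t N idx M p l m a U V ∧ QH t N idx M p l k b U V

theorem comp_str {T T' : ℕ → ℕ} {Q Q' : Prop} (h : Str T Q) (h' : Str T' Q') :
    Str (fun C => T' (T C)) (Q ∧ Q') := by
  intro C hC
  obtain ⟨h1, h2⟩ := h' _ hC
  obtain ⟨h3, h4⟩ := h _ h1
  exact ⟨h3, h4, h2⟩

theorem ruleR_str (t : Tr) (N idx M p l m k a b U V : ℕ) :
    Str (ruleR t N idx M p l m k a b U V) (QR t N idx M p l m k a b U V) :=
  pif_str (pif_str (pif_str (pif_str (pif_str
    (comp_str (half_str t N idx M p l m a U V) (half_str t N idx M p l k b U V))))))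

def QF (tab : ℕ → Tr) (num : ℕ → ℕ) (t : Tr) (N idx M n msk c j : ℕ) : Prop :=
  closed n msk M = true ∧ Nat.ble 7 n = true ∧ Nat.ble n 14 = true ∧
    Nat.ble (Nat.succ j) (num n) = true ∧
    isoCheck (Nat.sub (Nat.shiftLeft 1 n) 1) M c (look (tab n) j) = true ∧
    (Nat.beq n 7 = true → QM t N idx (Nat.lor M (bitN 7 7)))

theorem maybe_str {b : Bool} {T : ℕ → ℕ} {Q : Prop} (h : Str T Q) :
    Str (fun C => pif b (T C) C) (b = true → Q) := by
  intro C hC
  have hC' : pif b (T C) C ≠ 0 := hC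
  cases b
  · exact ⟨hC', fun h => absurd h Bool.false_ne_true⟩
  · obtain ⟨h3, h4⟩ := h C hC'
    exact ⟨h3, fun _ => h4⟩

theorem ruleF_str (tab : ℕ → Tr) (num : ℕ → ℕ) (t : Tr) (N idx M n msk c j : ℕ) :
    Str (ruleF tab num t N idx M n msk c j) (QF tab num t N idx M n msk c j) :=
  pif_str (pif_str (pif_str (pif_str (pif_str (maybe_str (mtch_str t N idx _))))))

end Pool.Agent.Cfg3
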