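import Pool.Agent.Cfg3.DagRules

/-!
What the rules of the search mean for configurations.
-/

namespace Pool.Agent.Cfg3

theorem lab_eq (U : ℕ) : lab U = 14 - (13 - U) := rfl

/-- Every element of a small set gets a label. -/
theorem free_label {n : ℕ} (hn : n ≤ 14) {f : ℕ → Fin n} {X : Set ℕ} (hf : Set.InjOn f X) {U : ℕ}
    (hX : ∀ x ∈ X, x < U ∧ x < 14) (P : Fin n) :
    ∃ (f' : ℕ → Fin n) (X' : Set ℕ) (x : ℕ), x < lab U ∧ x < 14 ∧ f' x = P ∧ x ∈ X' ∧
      Set.InjOn f' X' ∧ (∀ z ∈ X, f' z = f z ∧ z ∈ X') := by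
  by_cases hP : ∃ x ∈ X, f x = P
  · obtain ⟨x, hx, hfx⟩ := hP
    have := hX x hx
    exact ⟨f, X, x, by rw [lab_eq]; omega, this.2, hfx, hx, hf, fun z hz => ⟨rfl, hz⟩⟩
  · push Not at hP
    have hfree : ∃ x < lab U, x < 14 ∧ x ∉ X := by
      by_cases hU : U ≤ 13
      · exact ⟨U, by rw [lab_eq]; omega, by omega, fun h => absurd (hX U h).1 (lt_irrefl U)⟩
      · by_contra hc
        push Not at hc
        have all : ∀ x < 14, x ∈ X := fun x hx => hc x (by rw [lab_eq]; omega) hx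
        have hinj : Function.Injective (fun x : Fin 14 => f x) := by
          intro a b hab
          exact Fin.ext (hf (all a a.2) (all b b.2) hab)
        have hcard : 14 ≤ n := by
          have := Fintype.card_le_of_injective _ hinj
          simpa using this
        have hn' : n = 14 := le_antisymm hn hcard
        subst hn'
        obtain ⟨x, hx⟩ := (Finite.injective_iff_surjective.1 hinj) P
        exact hP x (all x x.2) hx
    obtain ⟨x, hx1, hx2, hx3⟩ := hfree
    refine ⟨Function.update f x P, insert x X, x, hx1, hx2, Function.update_self x P f,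
      Set.mem_insert x X, ?_, ?_⟩
    · rw [Set.injOn_insert hx3]
      have hagree : ∀ z ∈ X, Function.update f x P z = f z := fun z hz =>
        Function.update_of_ne (fun h : z = x => hx3 (h ▸ hz)) P f
      constructor
      · intro a ha b hb hab
        rw [hagree a ha, hagree b hb] at hab
        exact hf ha hb hab
      · rintro ⟨z, hz, hz'⟩
        rw [hagree z hz, Function.update_self] at hz'
        exact hP z hz hz'
    · intro z hz
      exact ⟨Function.update_of_ne (fun h : z = x => hx3 (h ▸ hz)) P f, Set.mem_insert_of_mem x hz⟩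

section
variable {n : ℕ} {I : Fin n → Fin n → Prop} {M : ℕ} {f g : ℕ → Fin n} {X Y : Set ℕ}

theorem Em.changeP (h : Em I M f g X Y) {f' : ℕ → Fin n} {X' : Set ℕ} (hf : Set.InjOn f' X')
    (hz : ∀ z ∈ X, f' z = f z ∧ z ∈ X') : Em I M f' g X' Y where
  supp := h.supp
  injP := hf
  injL := h.injL
  inc := fun x y hx hy hb => by
    obtain ⟨h1, h2, h3⟩ := h.inc x y hx hy hb
    exact ⟨(hz x h1).2, h2, by rw [(hz x h1).1]; exact h3⟩

theorem Em.changeL (h : Em I M f g X Y) {g' : ℕ → Fin n} {Y' : Set ℕ} (hg : Set.InjOn g' Y')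
    (hz : ∀ z ∈ Y, g' z = g z ∧ z ∈ Y') : Em I M f g' X Y' where
  supp := h.supp
  injP := h.injP
  injL := hg
  inc := fun x y hx hy hb => by
    obtain ⟨h1, h2, h3⟩ := h.inc x y hx hy hb
    exact ⟨h1, (hz y h2).2, by rw [(hz y h2).1]; exact h3⟩

theorem boundP_bit {U x y : ℕ} (h : boundP M U = true) (hx : x < 14) (hy : y < 14)
    (hb : M.testBit (16 * y + x) = true) : x < U := by
  by_contra hc
  have hU : U < 14 := by omega
  have h1 : M &&& ((65536 - 1 <<< U) * ones 14) = 0 := by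
    have h2 : ones 14 = 0x10001000100010001000100010001000100010001000100010001 := by
      decide +kernel
    rw [h2]
    exact Nat.eq_of_beq_eq_true h
  have h3 : ((65536 - 1 <<< U) * ones 14).testBit (16 * y + x) = true := by
    rw [← testBit_lane' (by omega : x < 16), lane_mul_ones _ (by
      have : 1 <<< U > 0 := by rw [Nat.one_shiftLeft]; exact Nat.two_pow_pos U
      omega) 14 y hy]
    have key : ∀ U < 14, ∀ x < 14, U ≤ x → (65536 - 1 <<< U).testBit x = true := by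
      decide +kernel
    exact key U hU x hx (by omega)
  have h4 := congrArg (fun z => Nat.testBit z (16 * y + x)) h1
  simp only [Nat.testBit_and, hb, h3, Nat.zero_testBit] at h4
  exact Bool.false_ne_true h4.symm

theorem boundL_bit {V x y : ℕ} (h : boundL M V = true)
    (hb : M.testBit (16 * y + x) = true) : y < V := by
  by_contra hc
  have h1 : M >>> (16 * V) = 0 := Nat.eq_of_beq_eq_true h
  have h4 := congrArg (fun z => Nat.testBit z (16 * (y - V) + x)) h1
  simp only [Nat.testBit_shiftRight, Nat.zero_testBit] at h4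
  have : 16 * V + (16 * (y - V) + x) = 16 * y + x := by omega
  rw [this, hb] at h4
  exact Bool.false_ne_true h4.symm

theorem Em.restrictP {U : ℕ} (h : Em I M f g X Y) (hU : boundP M U = true) :
    Em I M f g {x | x ∈ X ∧ x < U ∧ x < 14} Y where
  supp := h.supp
  injP := h.injP.mono (fun _ hx => hx.1)
  injL := h.injL
  inc := fun x y hx hy hb => by
    obtain ⟨h1, h2, h3⟩ := h.inc x y hx hy hb
    exact ⟨⟨h1, boundP_bit hU hx hy hb, hx⟩, h2, h3⟩

theorem Em.restrictL {V : ℕ} (h : Em I M f g X Y) (hV : boundL M V = true) :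
    Em I M f g X {y | y ∈ Y ∧ y < V ∧ y < 14} where
  supp := h.supp
  injP := h.injP
  injL := h.injL.mono (fun _ hx => hx.1)
  inc := fun x y hx hy hb => by
    obtain ⟨h1, h2, h3⟩ := h.inc x y hx hy hb
    exact ⟨h1, ⟨h2, boundL_bit hV hb, hy⟩, h3⟩

theorem Em.useK (hI : Conf3 I) (h : Em I M f g X Y) {x y : ℕ} (hx : x ∈ X) (hy : y ∈ Y)
    (hx14 : x < 14) (hy14 : y < 14) (hxy : I (f x) (g y)) {Q : ℕ → Prop} (hQ : QK M x y Q) :
    ∃ M', Q M' ∧ Em I M' f g X Y := by
  by_cases hb : M.testBit (16 * y + x) = true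
  · exact ⟨M, hQ.1 hb, h⟩
  · exact ⟨_, hQ.2 hb (h.feas hI hx hy hx14 hy14 hxy hb), h.add hx hy hx14 hy14 hxy⟩

/-- Some state with property Q is embedded. -/
def Has {n : ℕ} (I : Fin n → Fin n → Prop) (Q : ℕ → Prop) : Prop :=
  ∃ M f g X Y, Q M ∧ Em I M f g X Y

theorem QP.sem {t : Tr} {N idx w V : ℕ} (hn : n ≤ 14) (hI : Conf3 I) (h : Em I M f g X Y)
    (hw : w < 16) (hQ : QP t N idx M w V) : Has I (QM t N idx) := by
  obtain ⟨hV, hd, hne, hall⟩ := hQ
  have hr := h.restrictL hV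
  have hne' : col M w ≠ 0 := by have := Nat.le_of_ble_eq_true hne; omega
  obtain ⟨k, hk⟩ := exists_bit_ne hne'
  rw [col_testBit_iff] at hk
  have sw := h.supp.bit hw hk.2.2
  have hwX := (h.inc w (k / 16) sw.1 sw.2 hk.2.2).1
  obtain ⟨l1, l2, l3, h12, h13, h23, hS⟩ := Set.ncard_eq_three.1 (hI.col (f w))
  have m1 : I (f w) l1 := by
    have : l1 ∈ {l | I (f w) l} := by rw [hS]; simp
    exact this
  have m2 : I (f w) l2 := by
    have : l2 ∈ {l | I (f w) l} := by rw [hS]; simp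
    exact this
  have m3 : I (f w) l3 := by
    have : l3 ∈ {l | I (f w) l} := by rw [hS]; simp
    exact this
  have key : ∃ l, I (f w) l ∧ ∀ y < 14, g y = l → ¬ M.testBit (16 * y + w) = true := by
    by_contra hc
    push Not at hc
    obtain ⟨y1, hy1, e1, b1⟩ := hc l1 m1
    obtain ⟨y2, hy2, e2, b2⟩ := hc l2 m2
    obtain ⟨y3, hy3, e3, b3⟩ := hc l3 m3
    rw [notB_eq] at hd
    have : deg3 (col M w) = true := by
      rw [deg3_iff]
      refine ⟨16 * y1, 16 * y2, 16 * y3, ?_, ?_, ?_, ?_, ?_, ?_⟩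
      · intro e; apply h12; rw [← e1, ← e2]; congr 1; omega
      · intro e; apply h13; rw [← e1, ← e3]; congr 1; omega
      · intro e; apply h23; rw [← e2, ← e3]; congr 1; omega
      · rw [col_testBit_iff]
        refine ⟨by omega, by omega, ?_⟩
        rw [show 16 * y1 / 16 = y1 by omega]; exact b1
      · rw [col_testBit_iff]
        refine ⟨by omega, by omega, ?_⟩
        rw [show 16 * y2 / 16 = y2 by omega]; exact b2
      · rw [col_testBit_iff]
        refine ⟨by omega, by omega, ?_⟩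
        rw [show 16 * y3 / 16 = y3 by omega]; exact b3
    rw [this] at hd
    exact Bool.false_ne_true hd.symm
  obtain ⟨l, hl, hl'⟩ := key
  obtain ⟨g', Y', y, hy1, hy2, hy3, hy4, hy5, hy6⟩ := free_label hn hr.injL (U := V)
    (fun y hy => hy.2) l
  have h' := hr.changeL hy5 hy6
  have hb : ¬ M.testBit (16 * y + w) = true := by
    intro hb
    have h1 := hr.inc w y sw.1 hy2 hb
    exact hl' y hy2 (by rw [← (hy6 y h1.2.1).1, hy3]) hb
  have hgl : I (f w) (g' y) := by rw [hy3]; exact hl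
  exact ⟨_, f, g', X, Y', hall y hy1 hb (h'.feas hI hwX hy4 sw.1 hy2 hgl hb),
    h'.add hwX hy4 sw.1 hy2 hgl⟩

theorem QL.sem {t : Tr} {N idx w U : ℕ} (hn : n ≤ 14) (hI : Conf3 I) (h : Em I M f g X Y)
    (hQ : QL t N idx M w U) : Has I (QM t N idx) := by
  obtain ⟨hU, hd, hne, hall⟩ := hQ
  have hr := h.restrictP hU
  have hne' : rowN M w ≠ 0 := by have := Nat.le_of_ble_eq_true hne; omega
  obtain ⟨k, hk⟩ := exists_bit_ne hne'
  rw [rowN_testBit_iff] at hk
  have sw := h.supp.bit hk.1 hk.2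
  have hwY := (h.inc k w sw.1 sw.2 hk.2).2.1
  obtain ⟨l1, l2, l3, h12, h13, h23, hS⟩ := Set.ncard_eq_three.1 (hI.row (g w))
  have m1 : I l1 (g w) := by
    have : l1 ∈ {p | I p (g w)} := by rw [hS]; simp
    exact this
  have m2 : I l2 (g w) := by
    have : l2 ∈ {p | I p (g w)} := by rw [hS]; simp
    exact this
  have m3 : I l3 (g w) := by
    have : l3 ∈ {p | I p (g w)} := by rw [hS]; simp
    exact this
  have key : ∃ l, I l (g w) ∧ ∀ x < 14, f x = l → ¬ M.testBit (16 * w + x) = true := by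
    by_contra hc
    push Not at hc
    obtain ⟨y1, hy1, e1, b1⟩ := hc l1 m1
    obtain ⟨y2, hy2, e2, b2⟩ := hc l2 m2
    obtain ⟨y3, hy3, e3, b3⟩ := hc l3 m3
    rw [notB_eq] at hd
    have : deg3 (rowN M w) = true := by
      rw [deg3_iff]
      refine ⟨y1, y2, y3, ?_, ?_, ?_, ?_, ?_, ?_⟩
      · intro e; apply h12; rw [← e1, ← e2, e]
      · intro e; apply h13; rw [← e1, ← e3, e]
      · intro e; apply h23; rw [← e2, ← e3, e]
      · rw [rowN_testBit_iff]; exact ⟨by omega, b1⟩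
      · rw [rowN_testBit_iff]; exact ⟨by omega, b2⟩
      · rw [rowN_testBit_iff]; exact ⟨by omega, b3⟩
    rw [this] at hd
    exact Bool.false_ne_true hd.symm
  obtain ⟨l, hl, hl'⟩ := key
  obtain ⟨f', X', x, hy1, hy2, hy3, hy4, hy5, hy6⟩ := free_label hn hr.injP (U := U)
    (fun y hy => hy.2) l
  have h' := hr.changeP hy5 hy6
  have hb : ¬ M.testBit (16 * w + x) = true := by
    intro hb
    have h1 := hr.inc x w hy2 sw.2 hb
    exact hl' x hy2 (by rw [← (hy6 x h1.1).1, hy3]) hb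
  have hgl : I (f' x) (g w) := by rw [hy3]; exact hl
  exact ⟨_, f', g, X', Y, hall x hy1 hb (h'.feas hI hy4 hwY hy2 sw.2 hgl hb),
    h'.add hy4 hwY hy2 sw.2 hgl⟩

theorem QH.sem {t : Tr} {N idx p l m a U V : ℕ} (hn : n ≤ 14) (hI : Conf3 I)
    (h : Em I M f g X Y) (hU : boundP M U = true) (hV : boundL M V = true)
    (hp : p ∈ X) (hp14 : p < 14) (hl : l ∈ Y) (hl14 : l < 14)
    (hbp : M.testBit (16 * l + p) = true) (hbm : M.testBit (16 * m + p) = true) (hm14 : m < 14)
    (hba : M.testBit (16 * l + a) = true) (ha14 : a < 14)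
    (hQ : QH t N idx M p l m a U V) {xx : Fin n} {yy : Fin n}
    (h1 : yy ≠ g l) (h2 : I (f a) yy) (h3 : xx ≠ f p) (h4 : I xx (g m)) (h5 : I xx yy) :
    Has I (QM t N idx) := by
  have hr := (h.restrictP hU).restrictL hV
  have ip := hr.inc p l hp14 hl14 hbp
  have im := hr.inc p m hp14 hm14 hbm
  have ia := hr.inc a l ha14 hl14 hba
  obtain ⟨f', X', x, hx1, hx2, hx3, hx4, hx5, hx6⟩ := free_label hn hr.injP (U := U)
    (fun y hy => hy.2) xx
  have h' := hr.changeP hx5 hx6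
  have hxp : Nat.beq x p = false := by
    by_contra hc
    rw [Bool.not_eq_false] at hc
    have := Nat.eq_of_beq_eq_true hc
    subst this
    apply h3
    rw [← hx3, (hx6 x ip.1).1]
  obtain ⟨M1, hM1, hE1⟩ := h'.useK hI hx4 im.2.1 hx2 hm14 (by rw [hx3]; exact h4) (hQ x hx1 hxp)
  obtain ⟨g', Y', y, hy1, hy2, hy3, hy4, hy5, hy6⟩ := free_label hn hE1.injL (U := V)
    (fun y hy => hy.2) yy
  have h'' := hE1.changeL hy5 hy6
  have hyl : Nat.beq y l = false := by
    by_contra hc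
    rw [Bool.not_eq_false] at hc
    have := Nat.eq_of_beq_eq_true hc
    subst this
    apply h1
    rw [← hy3, (hy6 y ip.2.1).1]
  obtain ⟨M2, hM2, hE2⟩ := h''.useK hI (hx6 a ia.1).2 hy4 ha14 hy2 (by
    rw [hy3, (hx6 a ia.1).1]; exact h2) (hM1 y hy1 hyl)
  obtain ⟨M3, hM3, hE3⟩ := hE2.useK hI hx4 hy4 hx2 hy2 (by rw [hy3, hx3]; exact h5) hM2
  exact ⟨M3, _, _, _, _, hM3, hE3⟩

theorem notB_beq {a b : ℕ} (h : notB (Nat.beq a b) = true) : a ≠ b := by
  rw [notB_eq] at h
  rintro rfl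
  rw [Nat.beq_refl] at h
  exact Bool.false_ne_true h.symm

theorem QR.sem {t : Tr} {N idx p l m k a b U V : ℕ} (hn : n ≤ 14) (hI : Conf3 I)
    (hno : ∀ p l m k a b, ¬ Flag I p l m k a b) (hp : p < 16) (ha : a < 16) (hb : b < 16)
    (h : Em I M f g X Y) (hQ : QR t N idx M p l m k a b U V) : Has I (QM t N idx) := by
  obtain ⟨hU, hV, hf5, hd1, hd2, hH1, hH2⟩ := hQ
  unfold five at hf5
  unfold ne3 at hd1 hd2
  simp only [an_eq] at hf5 hd1 hd2
  have tbe : ∀ x y, tb M (Nat.add (Nat.mul 16 y) x) = M.testBit (16 * y + x) := fun x y => tb_eq _ _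
  simp only [tbe] at hf5
  obtain ⟨b1, b2, b3, b4, b5⟩ := hf5
  obtain ⟨npa, npb, nab⟩ := hd1
  obtain ⟨nlm, nlk, nmk⟩ := hd2
  have s1 := h.supp.bit hp b1
  have s2 := h.supp.bit hp b2
  have s3 := h.supp.bit hp b3
  have s4 := h.supp.bit ha b4
  have s5 := h.supp.bit hb b5
  have i1 := h.inc p l s1.1 s1.2 b1
  have i2 := h.inc p m s2.1 s2.2 b2
  have i3 := h.inc p k s3.1 s3.2 b3
  have i4 := h.inc a l s4.1 s4.2 b4
  have i5 := h.inc b l s5.1 s5.2 b5
  by_contra hcon
  apply hno (f p) (g l) (g m) (g k) (f a) (f b)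
  refine ⟨i1.2.2, i2.2.2, i3.2.2, ?_, ?_, ?_, i4.2.2, i5.2.2, ?_, ?_, ?_, ?_, ?_⟩
  · exact fun e => notB_beq nlm (h.injL i1.2.1 i2.2.1 e)
  · exact fun e => notB_beq nlk (h.injL i1.2.1 i3.2.1 e)
  · exact fun e => notB_beq nmk (h.injL i2.2.1 i3.2.1 e)
  · exact fun e => notB_beq npa (h.injP i1.1 i4.1 e.symm)
  · exact fun e => notB_beq npb (h.injP i1.1 i5.1 e.symm)
  · exact fun e => notB_beq nab (h.injP i4.1 i5.1 e)
  · intro y x e1 e2 e3 e4 e5
    exact hcon (QH.sem hn hI h hU hV i1.1 s1.1 i1.2.1 s1.2 b1 b2 s2.2 b4 s4.1 hH1 e1 e2 e3 e4 e5)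
  · intro y x e1 e2 e3 e4 e5
    exact hcon (QH.sem hn hI h hU hV i1.1 s1.1 i1.2.1 s1.2 b1 b3 s3.2 b5 s5.1 hH2 e1 e2 e3 e4 e5)

end

end Pool.Agent.Cfg3
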