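import Pool.Agent.Cfg3.Dag

/-!
Soundness of the search through partial incidence structures.
-/

namespace Pool.Agent.Cfg3

theorem pifB_false (x y : Bool) : pifB false x y = y := rfl

theorem notB_eq {b : Bool} : notB b = true ↔ b = false := by cases b <;> simp [notB]

theorem clr_spec : ∀ r : ℕ, r ≠ 0 → ∃ j, r.testBit j = true ∧
    ∀ k, (clr r).testBit k = (r.testBit k && !decide (j = k)) := by
  intro r
  induction r using Nat.strong_induction_on with
  | _ r ih =>
    intro h
    have hc : clr r = r &&& (r - 1) := rfl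
    by_cases hodd : r % 2 = 1
    · refine ⟨0, by rw [Nat.testBit_zero]; simpa using hodd, ?_⟩
      intro k
      rw [hc, Nat.testBit_and]
      rcases k with _ | k
      · have : (r - 1).testBit 0 = false := by
          rw [Nat.testBit_zero]; simp; omega
        rw [this]; simp
      · rw [Nat.testBit_succ, Nat.testBit_succ]
        have : (r - 1) / 2 = r / 2 := by omega
        rw [this]; simp
    · obtain ⟨j, hj, hk⟩ := ih (r / 2) (by omega) (by omega)
      refine ⟨j + 1, by rw [Nat.testBit_succ]; exact hj, ?_⟩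
      intro k
      rw [hc, Nat.testBit_and]
      rcases k with _ | k
      · have : r.testBit 0 = false := by
          rw [Nat.testBit_zero]; simp; omega
        rw [this]; simp
      · rw [Nat.testBit_succ, Nat.testBit_succ]
        have h1 : (r - 1) / 2 = r / 2 - 1 := by omega
        have h2 := hk k
        have h3 : clr (r / 2) = r / 2 &&& (r / 2 - 1) := rfl
        rw [h3, Nat.testBit_and] at h2
        rw [h1, h2]
        congr 2
        simp

theorem exists_bit_ne {r : ℕ} (h : r ≠ 0) : ∃ k, r.testBit k = true := ⟨_, Nat.testBit_log2 h⟩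

theorem ne_zero_of_testBit {r k : ℕ} (h : r.testBit k = true) : r ≠ 0 := by
  rintro rfl
  rw [Nat.zero_testBit] at h
  exact Bool.false_ne_true h

theorem clr_zero : clr 0 = 0 := rfl

theorem deg3_iff {r : ℕ} : deg3 r = true ↔ ∃ a b c, a ≠ b ∧ a ≠ c ∧ b ≠ c ∧
    r.testBit a = true ∧ r.testBit b = true ∧ r.testBit c = true := by
  have hd : deg3 r = true ↔ clr (clr r) ≠ 0 := by
    constructor
    · intro h
      have := Nat.le_of_ble_eq_true h
      omega
    · intro h
      exact Nat.ble_eq_true_of_le (Nat.one_le_iff_ne_zero.2 h)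
  rw [hd]
  constructor
  · intro h3
    have h2 : clr r ≠ 0 := by
      intro h; rw [h, clr_zero] at h3; exact h3 rfl
    have h1 : r ≠ 0 := by
      intro h; rw [h, clr_zero] at h2; exact h2 rfl
    obtain ⟨a, ha, ha'⟩ := clr_spec r h1
    obtain ⟨b, hb, hb'⟩ := clr_spec (clr r) h2
    obtain ⟨c, hc⟩ := exists_bit_ne h3
    rw [hb', ha'] at hc
    rw [ha'] at hb
    simp only [Bool.and_eq_true, Bool.not_eq_true', decide_eq_false_iff_not] at hc hb
    exact ⟨a, b, c, hb.2, hc.1.2, hc.2, ha, hb.1, hc.1.1⟩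
  · rintro ⟨a, b, c, hab, hac, hbc, ha, hb, hc⟩
    obtain ⟨j, -, hj⟩ := clr_spec r (ne_zero_of_testBit ha)
    -- two of the three remain
    have key : ∃ x y, x ≠ y ∧ (clr r).testBit x = true ∧ (clr r).testBit y = true := by
      by_cases h2 : j = a
      · refine ⟨b, c, hbc, ?_, ?_⟩ <;> rw [hj]
        · have : j ≠ b := fun e => hab (h2.symm.trans e)
          simp [hb, this]
        · have : j ≠ c := fun e => hac (h2.symm.trans e)
          simp [hc, this]
      · by_cases h3 : j = b
        · refine ⟨a, c, hac, ?_, ?_⟩ <;> rw [hj]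
          · simp [ha, h2]
          · have : j ≠ c := fun e => hbc (h3.symm.trans e)
            simp [hc, this]
        · refine ⟨a, b, hab, ?_, ?_⟩ <;> rw [hj]
          · simp [ha, h2]
          · simp [hb, h3]
    obtain ⟨x, y, hxy, hx, hy⟩ := key
    obtain ⟨i, -, hi⟩ := clr_spec (clr r) (ne_zero_of_testBit hx)
    by_cases h4 : i = x
    · apply ne_zero_of_testBit (k := y)
      rw [hi]
      have : i ≠ y := fun e => hxy (h4.symm.trans e)
      simp [hy, this]
    · apply ne_zero_of_testBit (k := x)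
      rw [hi]
      simp [hx, h4]

theorem rowN_eq (M y : ℕ) : rowN M y = lane M y := shr_land M y

theorem rowN_testBit {M y x : ℕ} (hx : x < 16) : (rowN M y).testBit x = M.testBit (16 * y + x) := by
  rw [rowN_eq, testBit_lane' hx]

theorem rowN_testBit_iff {M y x : ℕ} :
    (rowN M y).testBit x = true ↔ x < 16 ∧ M.testBit (16 * y + x) = true := by
  rw [rowN_eq, testBit_lane]
  simp

theorem col_testBit_iff {M x k : ℕ} :
    (col M x).testBit k = true ↔ k % 16 = 0 ∧ k / 16 < 14 ∧ M.testBit (16 * (k / 16) + x) = true := by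
  rw [col_eq, Nat.testBit_and, Nat.testBit_shiftRight, testBit_ones]
  simp only [Bool.and_eq_true, decide_eq_true_eq]
  constructor
  · rintro ⟨h1, h2, h3⟩
    refine ⟨h2, h3, ?_⟩
    have : 16 * (k / 16) + x = x + k := by omega
    rw [this]; exact h1
  · rintro ⟨h2, h3, h1⟩
    refine ⟨?_, h2, h3⟩
    have : x + k = 16 * (k / 16) + x := by omega
    rw [this]; exact h1

theorem bitN_testBit {x y x' y' : ℕ} (hx : x < 16) (hx' : x' < 16) :
    (bitN x y).testBit (16 * y' + x') = (decide (x = x') && decide (y = y')) := by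
  have : bitN x y = 1 <<< (16 * y + x) := rfl
  rw [this, testBit_one_shl]
  by_cases h : x = x' ∧ y = y'
  · obtain ⟨rfl, rfl⟩ := h; simp
  · have h1 : ¬ (16 * y + x = 16 * y' + x') := fun e => h (by constructor <;> omega)
    simp only [h1, decide_false]
    symm
    rw [Bool.and_eq_false_iff]
    by_contra hc
    push Not at hc
    simp only [ne_eq, decide_eq_false_iff_not, not_not] at hc
    exact h hc

theorem cyc_eq (M x y : ℕ) : cyc M x y =
    Nat.beq ((((M &&& (rowN M y * ones 14)) + lows 14) >>> 15) &&& col M x) 0 := by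
  have h1 : ones 14 = 0x10001000100010001000100010001000100010001000100010001 := by decide +kernel
  have h2 : lows 14 = 0x7fff7fff7fff7fff7fff7fff7fff7fff7fff7fff7fff7fff7fff7fff := by decide +kernel
  rw [h1, h2]
  rfl

/-- The partial structure M is embedded in I. -/
structure Em {n : ℕ} (I : Fin n → Fin n → Prop) (M : ℕ) (f g : ℕ → Fin n) (X Y : Set ℕ) :
    Prop where
  supp : Supp 14 M
  injP : Set.InjOn f X
  injL : Set.InjOn g Y
  inc : ∀ x y, x < 14 → y < 14 → M.testBit (16 * y + x) = true → x ∈ X ∧ y ∈ Y ∧ I (f x) (g y)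

theorem Supp.bit {n M x y : ℕ} (h : Supp n M) (hx : x < 16) (hb : M.testBit (16 * y + x) = true) :
    x < n ∧ y < n := by
  have := h _ hb
  have e1 : (16 * y + x) % 16 = x := by omega
  have e2 : (16 * y + x) / 16 = y := by omega
  rwa [e1, e2] at this

section
variable {n : ℕ} {I : Fin n → Fin n → Prop} {M : ℕ} {f g : ℕ → Fin n} {X Y : Set ℕ}

theorem Em.add (h : Em I M f g X Y) {x y : ℕ} (hx : x ∈ X) (hy : y ∈ Y) (hx14 : x < 14)
    (hy14 : y < 14) (hI : I (f x) (g y)) : Em I (Nat.lor M (bitN x y)) f g X Y where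
  supp := by
    intro k hk
    have hk' : (M ||| bitN x y).testBit k = true := hk
    rw [← Nat.div_add_mod k 16, Nat.testBit_or, bitN_testBit (by omega) (by omega), Nat.div_add_mod] at hk'
    simp only [Bool.or_eq_true, Bool.and_eq_true, decide_eq_true_eq] at hk'
    rcases hk' with hk' | hk'
    · exact h.supp k hk'
    · omega
  injP := h.injP
  injL := h.injL
  inc := by
    intro x' y' h1 h2 h3
    have h3' : (M ||| bitN x y).testBit (16 * y' + x') = true := h3
    rw [Nat.testBit_or, bitN_testBit (by omega) (by omega)] at h3'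
    simp only [Bool.or_eq_true, Bool.and_eq_true, decide_eq_true_eq] at h3'
    rcases h3' with h3' | ⟨rfl, rfl⟩
    · exact h.inc x' y' h1 h2 h3'
    · exact ⟨hx, hy, hI⟩

theorem Em.feas (hI : Conf3 I) (h : Em I M f g X Y) {x y : ℕ} (hx : x ∈ X) (hy : y ∈ Y)
    (hx14 : x < 14) (hy14 : y < 14) (hxy : I (f x) (g y))
    (hnb : ¬ M.testBit (16 * y + x) = true) : feas M x y = true := by
  have e : Pool.Agent.Cfg3.feas M x y =
      pifB (deg3 (col M x)) false (pifB (deg3 (rowN M y)) false (cyc M x y)) := rfl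
  have h1 : deg3 (col M x) = false := by
    by_contra hc
    rw [Bool.not_eq_false, deg3_iff] at hc
    obtain ⟨a, b, c, hab, hac, hbc, ha, hb, hc'⟩ := hc
    rw [col_testBit_iff] at ha hb hc'
    have ia := h.inc x (a / 16) hx14 ha.2.1 ha.2.2
    have ib := h.inc x (b / 16) hx14 hb.2.1 hb.2.2
    have ic := h.inc x (c / 16) hx14 hc'.2.1 hc'.2.2
    have nab : g (a / 16) ≠ g (b / 16) := fun e => by
      have := h.injL ia.2.1 ib.2.1 e; omega
    have nac : g (a / 16) ≠ g (c / 16) := fun e => by
      have := h.injL ia.2.1 ic.2.1 e; omega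
    have nbc : g (b / 16) ≠ g (c / 16) := fun e => by
      have := h.injL ib.2.1 ic.2.1 e; omega
    rcases hI.lines_eq ia.2.2 ib.2.2 ic.2.2 nab nac nbc hxy with e | e | e
    · rw [← h.injL hy ia.2.1 e] at ha; exact hnb ha.2.2
    · rw [← h.injL hy ib.2.1 e] at hb; exact hnb hb.2.2
    · rw [← h.injL hy ic.2.1 e] at hc'; exact hnb hc'.2.2
  have h2 : deg3 (rowN M y) = false := by
    by_contra hc
    rw [Bool.not_eq_false, deg3_iff] at hc
    obtain ⟨a, b, c, hab, hac, hbc, ha, hb, hc'⟩ := hc
    rw [rowN_testBit_iff] at ha hb hc'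
    have sa := h.supp.bit ha.1 ha.2
    have sb := h.supp.bit hb.1 hb.2
    have sc := h.supp.bit hc'.1 hc'.2
    have ia := h.inc a y sa.1 hy14 ha.2
    have ib := h.inc b y sb.1 hy14 hb.2
    have ic := h.inc c y sc.1 hy14 hc'.2
    have nab : f a ≠ f b := fun e => hab (h.injP ia.1 ib.1 e)
    have nac : f a ≠ f c := fun e => hac (h.injP ia.1 ic.1 e)
    have nbc : f b ≠ f c := fun e => hbc (h.injP ib.1 ic.1 e)
    rcases hI.points_eq ia.2.2 ib.2.2 ic.2.2 nab nac nbc hxy with e | e | e
    · rw [← h.injP hx ia.1 e] at ha; exact hnb ha.2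
    · rw [← h.injP hx ib.1 e] at hb; exact hnb hb.2
    · rw [← h.injP hx ic.1 e] at hc'; exact hnb hc'.2
  have h3 : cyc M x y = true := by
    by_contra hc
    have hc' : (((M &&& (rowN M y * ones 14)) + lows 14) >>> 15) &&& col M x ≠ 0 := by
      intro h0
      apply hc
      rw [cyc_eq, h0]
      rfl
    obtain ⟨k, hk⟩ := exists_bit_ne hc'
    rw [Nat.testBit_and, Bool.and_eq_true, col_testBit_iff, Nat.testBit_shiftRight] at hk
    obtain ⟨hk1, hk2, hk3, hk4⟩ := hk
    have hrow : ∀ i < 14, lane (M &&& (rowN M y * ones 14)) i = lane M i &&& rowN M y := by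
      intro i hi
      rw [lane_and, lane_mul_ones _ (by rw [rowN_eq]; exact lane_lt _ _) 14 i hi]
    have hk5 : 15 + k = 16 * (k / 16) + 15 := by omega
    rw [hk5, add_lows_testBit 14 _ (fun i hi => by
      rw [hrow i hi]
      exact lt_of_le_of_lt Nat.and_le_left (h.supp.lane_lt (le_refl 14) i)) _ hk3,
      decide_eq_true_eq, hrow _ hk3] at hk1
    obtain ⟨q, hq⟩ := exists_bit_ne hk1
    rw [Nat.testBit_and, Bool.and_eq_true, testBit_lane, rowN_testBit_iff] at hq
    simp only [Bool.and_eq_true, decide_eq_true_eq] at hq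
    obtain ⟨⟨hq16, hq1⟩, -, hq2⟩ := hq
    have sq := h.supp.bit hq16 hq2
    have i1 := h.inc q (k / 16) sq.1 hk3 hq1
    have i2 := h.inc q y sq.1 hy14 hq2
    have i3 := h.inc x (k / 16) hx14 hk3 hk4
    by_cases e : f q = f x
    · rw [h.injP i1.1 hx e] at hq2
      exact hnb hq2
    · have := h.injL hy i3.2.1 (hI.lin _ _ _ _ e i2.2.2 hxy i1.2.2 i3.2.2)
      rw [this] at hnb
      exact hnb hk4
  rw [e, h1, h2, pifB_false, pifB_false]
  exact h3

end

end Pool.Agent.Cfg3
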