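import Mathlib

/-!
Combinatorial configurations with three points on each line and three lines through each point,
and their realizations in the Euclidean plane.
-/

namespace Pool.Agent.Cfg3

/-- `I` is the incidence relation of a combinatorial configuration with `n` points and `n` lines:
every line has exactly three points, every point is on exactly three lines, and two distinct
points are on at most one common line. -/
structure IsConfiguration (n : ℕ) {P L : Type*} (I : P → L → Prop) : Prop where
  card_points : Nat.card P = n
  card_lines : Nat.card L = n
  three_points : ∀ l, {p | I p l}.ncard = 3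
  three_lines : ∀ p, {l | I p l}.ncard = 3
  linear : ∀ p q : P, p ≠ q → ∀ l m : L, I p l → I q l → I p m → I q m → l = m

/-- The Fano plane: line `j` consists of the points `j`, `j + 1`, `j + 3` modulo 7. -/
def Fano (i j : ZMod 7) : Prop := i = j ∨ i = j + 1 ∨ i = j + 3

/-- `I` is isomorphic to the disjoint union of two copies of the Fano plane. -/
def IsTwoFano {P L : Type*} (I : P → L → Prop) : Prop :=
  ∃ (e : P ≃ Bool × ZMod 7) (e' : L ≃ Bool × ZMod 7),
    ∀ p l, I p l ↔ (e p).1 = (e' l).1 ∧ Fano (e p).2 (e' l).2

/-- There are distinct points and distinct straight lines in the Euclidean plane, one for each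
point and each line of the configuration, such that a point is on a line exactly when the
abstract point and line are incident. -/
def GeometricallyRealizable {P L : Type*} (I : P → L → Prop) : Prop :=
  ∃ (pt : P → EuclideanSpace ℝ (Fin 2)) (ln : L → AffineSubspace ℝ (EuclideanSpace ℝ (Fin 2))),
    Function.Injective pt ∧ Function.Injective ln ∧
    (∀ l, (ln l : Set (EuclideanSpace ℝ (Fin 2))).Nonempty ∧
      Module.finrank ℝ (ln l).direction = 1) ∧
    ∀ p l, pt p ∈ ln l ↔ I p l

end Pool.Agent.Cfg3
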