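import Pool.Agent.Cfg3.Defs
import Pool.Agent.Cfg3.Core

/-!
From integer coordinates to a realization in the Euclidean plane.
-/

namespace Pool.Agent.Cfg3

/-- The line given by an equation. -/
def lineSub (a b c : ℝ) : AffineSubspace ℝ (EuclideanSpace ℝ (Fin 2)) where
  carrier := {q | a * q 0 + b * q 1 + c = 0}
  smul_vsub_vadd_mem' := by
    intro t p q r hp hq hr
    simp only [Set.mem_ofPred_eq, vsub_eq_sub, vadd_eq_add, PiLp.add_apply, PiLp.smul_apply,
      PiLp.sub_apply, smul_eq_mul] at *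
    linear_combination t * hp - t * hq + hr

theorem mem_lineSub {a b c : ℝ} {q : EuclideanSpace ℝ (Fin 2)} :
    q ∈ lineSub a b c ↔ a * q 0 + b * q 1 + c = 0 := Iff.rfl

theorem lineSub_nonempty {a b c : ℝ} (h : a ≠ 0 ∨ b ≠ 0) :
    (lineSub a b c : Set (EuclideanSpace ℝ (Fin 2))).Nonempty := by
  have hpos : a ^ 2 + b ^ 2 ≠ 0 := by
    rcases h with h | h
    · have := pow_pos (abs_pos.2 h) 2
      rw [sq_abs] at this
      have := sq_nonneg b
      positivity
    · have := pow_pos (abs_pos.2 h) 2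
      rw [sq_abs] at this
      have := sq_nonneg a
      positivity
  refine ⟨!₂[-(a * c) / (a ^ 2 + b ^ 2), -(b * c) / (a ^ 2 + b ^ 2)], ?_⟩
  show a * (-(a * c) / (a ^ 2 + b ^ 2)) + b * (-(b * c) / (a ^ 2 + b ^ 2)) + c = 0
  field_simp
  ring

theorem lineSub_finrank {a b c : ℝ} (h : a ≠ 0 ∨ b ≠ 0) :
    Module.finrank ℝ (lineSub a b c).direction = 1 := by
  have hpos : a ^ 2 + b ^ 2 ≠ 0 := by
    rcases h with h | h
    · have := sq_nonneg b
      positivity
    · have := sq_nonneg a
      positivity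
  have hv : (!₂[-b, a] : EuclideanSpace ℝ (Fin 2)) ≠ 0 := by
    intro h0
    have h1 : -b = 0 := congrArg (fun q : EuclideanSpace ℝ (Fin 2) => q 0) h0
    have h2 : a = 0 := congrArg (fun q : EuclideanSpace ℝ (Fin 2) => q 1) h0
    rcases h with h | h
    · exact h h2
    · exact h (by linarith)
  have hd : (lineSub a b c).direction = Submodule.span ℝ {!₂[-b, a]} := by
    ext v
    rw [AffineSubspace.mem_direction_iff_eq_vsub (lineSub_nonempty h), Submodule.mem_span_singleton]
    constructor
    · rintro ⟨p, hp, q, hq, rfl⟩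
      have hp' : a * p 0 + b * p 1 + c = 0 := hp
      have hq' : a * q 0 + b * q 1 + c = 0 := hq
      refine ⟨(-b * (p 0 - q 0) + a * (p 1 - q 1)) / (a ^ 2 + b ^ 2), ?_⟩
      ext i
      fin_cases i
      · show (-b * (p 0 - q 0) + a * (p 1 - q 1)) / (a ^ 2 + b ^ 2) * (-b) = p 0 - q 0
        field_simp
        linear_combination (-a) * hp' + a * hq'
      · show (-b * (p 0 - q 0) + a * (p 1 - q 1)) / (a ^ 2 + b ^ 2) * a = p 1 - q 1
        field_simp
        linear_combination (-b) * hp' + b * hq'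
    · rintro ⟨t, rfl⟩
      obtain ⟨q, hq⟩ := lineSub_nonempty (c := c) h
      have hq' : a * q 0 + b * q 1 + c = 0 := hq
      refine ⟨t • !₂[-b, a] + q, ?_, q, hq, ?_⟩
      · show a * (t * (-b) + q 0) + b * (t * a + q 1) + c = 0
        linear_combination hq'
      · simp
  rw [hd, finrank_span_singleton hv]

theorem realizable_of_coords {n M : ℕ} (hn : 4 ≤ n) {P L : Type*} {I : P → L → Prop}
    (hI : Conf3 I) (hM : Mod n M I) {x y z u v w : ℕ → ℤ} (hz : ∀ i < n, z i ≠ 0)
    (h : ∀ i < n, ∀ j < n, (u j * x i + v j * y i + w j * z i = 0 ↔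
      M.testBit (16 * j + i) = true)) : GeometricallyRealizable I := by
  obtain ⟨f, g, hf, hg, hfg⟩ := hM
  let ef := Equiv.ofBijective f hf
  let eg := Equiv.ofBijective g hg
  have hef : ∀ p, f (ef.symm p) = p := fun p => ef.apply_symm_apply p
  have heg : ∀ l, g (eg.symm l) = l := fun l => eg.apply_symm_apply l
  have huv : ∀ j < n, ((u j : ℝ) ≠ 0 ∨ (v j : ℝ) ≠ 0) := by
    intro j hj
    by_contra hc
    push Not at hc
    obtain ⟨h1, h2⟩ := hc
    have h1 : u j = 0 := by exact_mod_cast h1
    have h2 : v j = 0 := by exact_mod_cast h2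
    have key : ∀ i : Fin n, (w j * z i = 0 ↔ I (f i) (g ⟨j, hj⟩)) := by
      intro i
      have h3 := h i i.2 j hj
      rw [h1, h2, zero_mul, zero_mul, zero_add, zero_add] at h3
      rw [h3]
      exact (hfg i ⟨j, hj⟩).symm
    have hrow := hI.row (g ⟨j, hj⟩)
    by_cases hw : w j = 0
    · have : {p | I p (g ⟨j, hj⟩)} = Set.univ := by
        ext p
        simp only [Set.mem_ofPred_eq, Set.mem_univ, iff_true]
        rw [← hef p, ← key, hw, zero_mul]
      rw [this, Set.ncard_univ, ← Nat.card_congr ef, Nat.card_eq_fintype_card,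
        Fintype.card_fin] at hrow
      omega
    · have : {p | I p (g ⟨j, hj⟩)} = ∅ := by
        ext p
        simp only [Set.mem_ofPred_eq, Set.mem_empty_iff_false, iff_false]
        rw [← hef p, ← key]
        exact mul_ne_zero hw (hz _ (ef.symm p).2)
      rw [this, Set.ncard_empty] at hrow
      omega
  let pt : P → EuclideanSpace ℝ (Fin 2) := fun p =>
    !₂[(x (ef.symm p) : ℝ) / z (ef.symm p), (y (ef.symm p) : ℝ) / z (ef.symm p)]
  let ln : L → AffineSubspace ℝ (EuclideanSpace ℝ (Fin 2)) := fun l =>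
    lineSub (u (eg.symm l)) (v (eg.symm l)) (w (eg.symm l))
  have hinc : ∀ p l, pt p ∈ ln l ↔ I p l := by
    intro p l
    have hz' : (z (ef.symm p) : ℝ) ≠ 0 := by
      exact_mod_cast hz _ (ef.symm p).2
    have h1 : pt p ∈ ln l ↔ (u (eg.symm l) : ℝ) * ((x (ef.symm p) : ℝ) / z (ef.symm p)) +
      v (eg.symm l) * ((y (ef.symm p) : ℝ) / z (ef.symm p)) + w (eg.symm l) = 0 := Iff.rfl
    have h2 : ((u (eg.symm l) : ℝ) * ((x (ef.symm p) : ℝ) / z (ef.symm p)) +
      v (eg.symm l) * ((y (ef.symm p) : ℝ) / z (ef.symm p)) + w (eg.symm l) = 0) ↔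
      ((u (eg.symm l) * x (ef.symm p) + v (eg.symm l) * y (ef.symm p) +
        w (eg.symm l) * z (ef.symm p) : ℤ) : ℝ) = 0 := by
      push_cast
      constructor
      · intro h3
        field_simp at h3
        linear_combination h3
      · intro h3
        field_simp
        linear_combination h3
    rw [h1, h2, Int.cast_eq_zero, h _ (ef.symm p).2 _ (eg.symm l).2, ← hfg, hef, heg]
  refine ⟨pt, ln, ?_, ?_, ?_, hinc⟩
  · intro p q hpq
    by_contra hne
    obtain ⟨l, m, k, hlm, -, -, hS⟩ := Set.ncard_eq_three.1 (hI.col p)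
    have hl : I p l := by
      have : l ∈ {l | I p l} := by rw [hS]; simp
      exact this
    have hm : I p m := by
      have : m ∈ {l | I p l} := by rw [hS]; simp
      exact this
    have hl' : I q l := by rw [← hinc, ← hpq, hinc]; exact hl
    have hm' : I q m := by rw [← hinc, ← hpq, hinc]; exact hm
    exact hlm (hI.lin p q l m hne hl hl' hm hm')
  · intro l m hlm
    by_contra hne
    obtain ⟨p, q, r, hpq, -, -, hS⟩ := Set.ncard_eq_three.1 (hI.row l)
    have hp : I p l := by
      have : p ∈ {p | I p l} := by rw [hS]; simp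
      exact this
    have hq : I q l := by
      have : q ∈ {p | I p l} := by rw [hS]; simp
      exact this
    have hp' : I p m := by rw [← hinc, ← hlm, hinc]; exact hp
    have hq' : I q m := by rw [← hinc, ← hlm, hinc]; exact hq
    exact hne (hI.lin p q l m hpq hp hq hp' hq')
  · intro l
    exact ⟨lineSub_nonempty (huv _ (eg.symm l).2), lineSub_finrank (huv _ (eg.symm l).2)⟩

end Pool.Agent.Cfg3
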