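import Pool.Agent.Cfg3.DagMain

/-!
Every configuration with at most fourteen points is stored, once the tables pass the checks.
-/

namespace Pool.Agent.Cfg3

theorem Conf3.seven_le {n : ℕ} {I : Fin n → Fin n → Prop} (hI : Conf3 I) (hn : 0 < n) : 7 ≤ n := by
  have h1 := hI.seven ⟨0, hn⟩
  have h2 := Set.ncard_le_ncard (Set.subset_univ {x | ∃ l, I ⟨0, hn⟩ l ∧ I x l})
  rwa [h1, Set.ncard_univ, Nat.card_eq_fintype_card, Fintype.card_fin] at h2

theorem Conf3.relabel {P L P' L' : Type*} {I : P → L → Prop} (hI : Conf3 I) {α : P' → P}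
    {β : L' → L} (hα : Function.Bijective α) (hβ : Function.Bijective β) :
    Conf3 (fun x y => I (α x) (β y)) where
  row := fun l => by
    have h1 : α '' {p | I (α p) (β l)} = {p | I p (β l)} := by
      ext p
      constructor
      · rintro ⟨x, hx, rfl⟩; exact hx
      · intro hp
        obtain ⟨x, rfl⟩ := hα.2 p
        exact ⟨x, hp, rfl⟩
    rw [← Set.ncard_image_of_injective _ hα.1, h1, hI.row]
  col := fun p => by
    have h1 : β '' {l | I (α p) (β l)} = {l | I (α p) l} := by
      ext l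
      constructor
      · rintro ⟨x, hx, rfl⟩; exact hx
      · intro hp
        obtain ⟨x, rfl⟩ := hβ.2 l
        exact ⟨x, hp, rfl⟩
    rw [← Set.ncard_image_of_injective _ hβ.1, h1, hI.col]
  lin := fun p q l m hpq h1 h2 h3 h4 => hβ.1 (hI.lin _ _ _ _ (fun h => hpq (hα.1 h)) h1 h2 h3 h4)

theorem Flag.relabel {P L P' L' : Type*} {I : P → L → Prop} {α : P' → P} {β : L' → L}
    (hα : Function.Bijective α) (hβ : Function.Bijective β) {p : P'} {l m k : L'} {a b : P'}
    (h : Flag I (α p) (β l) (β m) (β k) (α a) (α b)) :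
    Flag (fun x y => I (α x) (β y)) p l m k a b where
  pl := h.pl
  pm := h.pm
  pk := h.pk
  nlm := fun e => h.nlm (congrArg β e)
  nlk := fun e => h.nlk (congrArg β e)
  nmk := fun e => h.nmk (congrArg β e)
  al := h.al
  bl := h.bl
  ap := fun e => h.ap (congrArg α e)
  bp := fun e => h.bp (congrArg α e)
  ab := fun e => h.ab (congrArg α e)
  nam := fun y x h1 h2 h3 h4 => h.nam (β y) (α x) (fun e => h1 (hβ.1 e)) h2
    (fun e => h3 (hα.1 e)) h4
  nbk := fun y x h1 h2 h3 h4 => h.nbk (β y) (α x) (fun e => h1 (hβ.1 e)) h2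
    (fun e => h3 (hα.1 e)) h4

theorem all_mod {tab : ℕ → Tr} {num : ℕ → ℕ}
    (hSupp : ∀ n, 7 ≤ n → n ≤ 14 → ∀ j < num n, Supp n (look (tab n) j))
    (hGood : ∀ n, 7 ≤ n → n ≤ 13 → ∀ j < num n, Good (tab (n + 1)) (num (n + 1)) n (look (tab n) j))
    (hirr : ∀ n ≤ 14, 0 < n → ∀ I : Fin n → Fin n → Prop, Conf3 I →
      (∀ p l m k a b, ¬ Flag I p l m k a b) → Goal tab num I) :
    ∀ n ≤ 14, 0 < n → ∀ I : Fin n → Fin n → Prop, Conf3 I → Goal tab num I := by
  intro n
  induction n with
  | zero => intro _ h; exact absurd h (lt_irrefl 0)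
  | succ n ih =>
    intro hn hn0 I hI
    by_cases hno : ∀ p l m k a b, ¬ Flag I p l m k a b
    · exact hirr (n + 1) hn hn0 I hI hno
    · push Not at hno
      obtain ⟨p, l, m, k, a, b, hF⟩ := hno
      have hα : Function.Bijective (Equiv.swap p (Fin.last n)) := Equiv.bijective _
      have hβ : Function.Bijective (Equiv.swap l (Fin.last n)) := Equiv.bijective _
      have ep : Equiv.swap p (Fin.last n) (Fin.last n) = p := Equiv.swap_apply_right _ _
      have el : Equiv.swap l (Fin.last n) (Fin.last n) = l := Equiv.swap_apply_right _ _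
      have hcs : ∀ (q x : Fin (n + 1)), x ≠ q → ∃ z : Fin n,
          Equiv.swap q (Fin.last n) z.castSucc = x := by
        intro q x hx
        have h1 : Equiv.swap q (Fin.last n) x ≠ Fin.last n := by
          intro e
          apply hx
          have := congrArg (Equiv.swap q (Fin.last n)) e
          rw [Equiv.swap_apply_right, Equiv.swap_apply_self] at this
          exact this
        obtain ⟨z, hz⟩ := Fin.exists_castSucc_eq.2 h1
        exact ⟨z, by rw [hz, Equiv.swap_apply_self]⟩
      obtain ⟨m', hm'⟩ := hcs l m hF.nlm.symm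
      obtain ⟨k', hk'⟩ := hcs l k hF.nlk.symm
      obtain ⟨a', ha'⟩ := hcs p a hF.ap
      obtain ⟨b', hb'⟩ := hcs p b hF.bp
      have hI' := hI.relabel hα hβ
      have hF' : Flag (fun x y => I (Equiv.swap p (Fin.last n) x) (Equiv.swap l (Fin.last n) y))
          (Fin.last n) (Fin.last n) m'.castSucc k'.castSucc a'.castSucc b'.castSucc := by
        apply Flag.relabel hα hβ
        rw [ep, el, hm', hk', ha', hb']
        exact hF
      have hred := red_conf hI' hF'
      have h7 := hI.seven_le hn0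
      have h7' := hred.seven_le (by omega)
      obtain ⟨j, hj, hM⟩ := ih (by omega) (by omega) _ hred
      obtain ⟨i, A, i', B, e1, e2, e3, e4, e5, hE⟩ := ext_mod (by omega) hI' hF'
        (hSupp n h7' (by omega) j hj) hM
      obtain ⟨c, k2, hk2, hiso⟩ := hGood n h7' (by omega) j hj i A i' B e1 e2 e3 e4 e5
      have hS := extN_supp (by omega : n < 16) (hSupp n h7' (by omega) j hj) i.2 i'.2 A.2 B.2
      have := iso_sound hn hS (hSupp (n + 1) h7 hn k2 hk2) hiso hI' hE
      exact ⟨k2, hk2, Mod.comp hα hβ this⟩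

end Pool.Agent.Cfg3
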