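import Mathlib

/-!
Natural numbers seen as vectors of lanes of w bits.
-/

namespace Pool.Agent.Cfg3

/-- Bits 0, w, 2 w, ..., (n-1) w. -/
def gones (w : ℕ) : ℕ → ℕ
  | 0 => 0
  | n + 1 => 2 ^ w * gones w n + 1

/-- The lane i of a. -/
def gl (w a i : ℕ) : ℕ := (a >>> (w * i)) % 2 ^ w

theorem gl_lt (w a i : ℕ) : gl w a i < 2 ^ w := Nat.mod_lt _ (Nat.two_pow_pos w)

theorem testBit_gl (w a i b : ℕ) :
    (gl w a i).testBit b = (decide (b < w) && a.testBit (w * i + b)) := by
  unfold gl
  rw [Nat.testBit_mod_two_pow, Nat.testBit_shiftRight]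

theorem gl_zero (w a : ℕ) : gl w a 0 = a % 2 ^ w := by simp [gl]

theorem gl_succ (w a i : ℕ) : gl w a (i + 1) = gl w (a / 2 ^ w) i := by
  unfold gl
  rw [Nat.shiftRight_eq_div_pow, Nat.shiftRight_eq_div_pow, Nat.div_div_eq_div_mul, ← pow_add]
  congr 3
  ring

theorem gl_zero_left (w i : ℕ) : gl w 0 i = 0 := by
  unfold gl
  simp

theorem gl_mul_ones {w r : ℕ} (hr : r < 2 ^ w) : ∀ {n i : ℕ}, i < n → gl w (r * gones w n) i = r
  | 0, _, h => absurd h (Nat.not_lt_zero _)
  | n + 1, 0, _ => by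
      rw [gl_zero, gones]
      have : r * (2 ^ w * gones w n + 1) = r + 2 ^ w * (r * gones w n) := by ring
      rw [this, Nat.add_mul_mod_self_left, Nat.mod_eq_of_lt hr]
  | n + 1, i + 1, h => by
      rw [gl_succ, gones]
      have : r * (2 ^ w * gones w n + 1) = r + 2 ^ w * (r * gones w n) := by ring
      rw [this, Nat.add_mul_div_left _ _ (Nat.two_pow_pos w), Nat.div_eq_of_lt hr, zero_add]
      exact gl_mul_ones hr (by omega)

theorem gl_add {w : ℕ} : ∀ {i a b : ℕ}, (∀ j ≤ i, gl w a j + gl w b j < 2 ^ w) →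
    gl w (a + b) i = gl w a i + gl w b i
  | 0, a, b, h => by
      have h0 := h 0 (le_refl 0)
      rw [gl_zero, gl_zero] at h0
      rw [gl_zero, gl_zero, gl_zero, Nat.add_mod, Nat.mod_eq_of_lt h0]
  | i + 1, a, b, h => by
      have h0 := h 0 (Nat.zero_le _)
      rw [gl_zero, gl_zero] at h0
      rw [gl_succ, gl_succ, gl_succ]
      have h1 : (a + b) / 2 ^ w = a / 2 ^ w + b / 2 ^ w := by
        rw [Nat.add_div (Nat.two_pow_pos w), if_neg (by omega), Nat.add_zero]
      rw [h1]
      apply gl_add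
      intro j hj
      rw [← gl_succ, ← gl_succ]
      exact h (j + 1) (by omega)

theorem gl_smul {w c : ℕ} : ∀ {i a : ℕ}, (∀ j ≤ i, c * gl w a j < 2 ^ w) →
    gl w (c * a) i = c * gl w a i
  | 0, a, h => by
      have h0 := h 0 (le_refl 0)
      rw [gl_zero] at h0
      rw [gl_zero, gl_zero, Nat.mul_mod, Nat.mul_mod_mod, Nat.mod_mul_mod, Nat.mul_mod]
      rw [← Nat.mul_mod, ← Nat.mul_mod_mod, Nat.mod_eq_of_lt h0]
  | i + 1, a, h => by
      have h0 := h 0 (Nat.zero_le _)
      rw [gl_zero] at h0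
      rw [gl_succ, gl_succ]
      have h1 : (c * a) / 2 ^ w = c * (a / 2 ^ w) := by
        have h2 := Nat.div_add_mod a (2 ^ w)
        have h3 : c * a = c * (a % 2 ^ w) + 2 ^ w * (c * (a / 2 ^ w)) := by
          conv_lhs => rw [← h2]
          ring
        rw [h3, Nat.add_mul_div_left _ _ (Nat.two_pow_pos w), Nat.div_eq_of_lt h0, zero_add]
      rw [h1]
      apply gl_smul
      intro j hj
      rw [← gl_succ]
      exact h (j + 1) (by omega)

theorem gl_xor (w a b i : ℕ) : gl w (a ^^^ b) i = gl w a i ^^^ gl w b i := by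
  apply Nat.eq_of_testBit_eq
  intro j
  rw [testBit_gl, Nat.testBit_xor, Nat.testBit_xor, testBit_gl, testBit_gl]
  cases decide (j < w) <;> simp

theorem testBit_gones {w : ℕ} (hw : 0 < w) : ∀ (n i : ℕ), (gones w n).testBit (w * i) = decide (i < n)
  | 0, i => by simp [gones]
  | n + 1, i => by
      have h1 : 1 < 2 ^ w := Nat.one_lt_two_pow (by omega)
      rw [gones, Nat.testBit_two_pow_mul_add _ h1]
      rcases i with _ | i
      · rw [if_pos (by omega)]
        simp
      · have h2 : ¬ w * (i + 1) < w := by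
          rw [Nat.mul_succ]; omega
        rw [if_neg h2]
        have h3 : w * (i + 1) - w = w * i := by rw [Nat.mul_succ]; omega
        rw [h3, testBit_gones hw n i]
        simp

/-- The top bit of each lane of a + lows shows if the lane of a is nonzero. -/
theorem gl_add_lows {w : ℕ} (hw : 0 < w) {n a i : ℕ} (ha : ∀ j < n, gl w a j < 2 ^ (w - 1))
    (hi : i < n) :
    (a + (2 ^ (w - 1) - 1) * gones w n).testBit (w * i + (w - 1)) = decide (gl w a i ≠ 0) := by
  have hp : 2 ^ w = 2 * 2 ^ (w - 1) := by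
    rw [← pow_succ', Nat.sub_add_cancel hw]
  have hp0 : 0 < 2 ^ (w - 1) := Nat.two_pow_pos _
  have h1 : gl w (a + (2 ^ (w - 1) - 1) * gones w n) i = gl w a i + (2 ^ (w - 1) - 1) := by
    rw [gl_add, gl_mul_ones (by omega) hi]
    intro j hj
    rw [gl_mul_ones (by omega) (by omega)]
    have := ha j (by omega)
    omega
  have h2 := testBit_gl w (a + (2 ^ (w - 1) - 1) * gones w n) i (w - 1)
  rw [h1] at h2
  have h3 : decide (w - 1 < w) = true := by simp; omega
  rw [h3, Bool.true_and] at h2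
  rw [← h2]
  have h4 := ha i hi
  have h5 : (gl w a i + (2 ^ (w - 1) - 1)).testBit (w - 1) = decide (2 ^ (w - 1) ≤ gl w a i + (2 ^ (w - 1) - 1)) := by
    rw [Nat.testBit_eq_decide_div_mod_eq]
    congr 1
    apply propext
    have h6 : gl w a i + (2 ^ (w - 1) - 1) < 2 * 2 ^ (w - 1) := by omega
    constructor
    · intro h
      by_contra hc
      rw [Nat.div_eq_of_lt (by omega)] at h
      simp at h
    · intro h
      have : (gl w a i + (2 ^ (w - 1) - 1)) / 2 ^ (w - 1) = 1 := by
        rw [Nat.div_eq_iff hp0]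
        omega
      rw [this]
  rw [h5]
  congr 1
  apply propext
  constructor <;> intro h <;> omega

end Pool.Agent.Cfg3
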