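import Pool.Agent.Cfg3.Core
import Pool.Agent.Cfg3.LaneG

/-!
The isomorphism test for incidence structures stored in natural numbers.
-/

namespace Pool.Agent.Cfg3

noncomputable section

def onesV : ℕ := 0x1000000010001000100010001000100010001000100010001000100010001

theorem onesV_testBit : ∀ k < 256, onesV.testBit k =
    (decide (k % 16 = 0) && (decide (k / 16 < 14) || decide (k / 16 = 15))) := by
  decide +kernel

/-- One summand of permG. -/
def term (M c x : ℕ) : ℕ := ((M >>> x) &&& onesV) <<< (c >>> (4 * x) &&& 15)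

def dig (c x : ℕ) : ℕ := c >>> (4 * x) &&& 15

theorem dig_lt (c x : ℕ) : dig c x < 16 := by
  unfold dig
  exact Nat.lt_succ_of_le Nat.and_le_right

theorem term_testBit (M c x : ℕ) {i b : ℕ} (hi : i < 16) (hi' : i ≠ 14) (hb : b < 16) :
    (term M c x).testBit (16 * i + b) = (M.testBit (16 * i + x) && decide (dig c x = b)) := by
  have hd := dig_lt c x
  unfold term
  rw [show c >>> (4 * x) &&& 15 = dig c x from rfl]
  rw [Nat.testBit_shiftLeft, Nat.testBit_and, Nat.testBit_shiftRight]
  by_cases h : dig c x = b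
  · subst h
    rw [Nat.add_sub_cancel, onesV_testBit _ (by omega)]
    have h1 : 16 * i % 16 = 0 := by omega
    have h2 : 16 * i / 16 = i := by omega
    rw [h1, h2, Nat.add_comm x]
    have h3 : i < 14 ∨ i = 15 := by omega
    rcases h3 with h3 | h3 <;> simp [h3]
  · have h' : decide (dig c x = b) = false := by simp [h]
    rw [h', Bool.and_false]
    by_cases hge : 16 * i + b ≥ dig c x
    · rw [onesV_testBit _ (by omega)]
      have h1 : ¬ (16 * i + b - dig c x) % 16 = 0 := by omega
      simp [h1]
    · simp [hge]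

theorem permG_eq (M c : ℕ) : permG M c = 
    term M c 0 ||| term M c 1 ||| term M c 2 ||| term M c 3 ||| term M c 4 ||| term M c 5 ||| term M c 6 ||| term M c 7 ||| term M c 8 ||| term M c 9 ||| term M c 10 ||| term M c 11 ||| term M c 12 ||| term M c 13 := rfl

theorem permG_testBit (M c : ℕ) {i b : ℕ} (hi : i < 16) (hi' : i ≠ 14) (hb : b < 16) :
    (permG M c).testBit (16 * i + b) = true ↔
      ∃ x < 14, M.testBit (16 * i + x) = true ∧ dig c x = b := by
  rw [permG_eq]
  simp only [Nat.testBit_or, term_testBit _ _ _ hi hi' hb, Bool.or_eq_true, Bool.and_eq_true,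
    decide_eq_true_eq]
  constructor
  · intro h
    rcases h with (((((((((((((h | h) | h) | h) | h) | h) | h) | h) | h) | h) | h) | h) | h) | h)
    · exact ⟨0, by norm_num, h⟩
    · exact ⟨1, by norm_num, h⟩
    · exact ⟨2, by norm_num, h⟩
    · exact ⟨3, by norm_num, h⟩
    · exact ⟨4, by norm_num, h⟩
    · exact ⟨5, by norm_num, h⟩
    · exact ⟨6, by norm_num, h⟩
    · exact ⟨7, by norm_num, h⟩
    · exact ⟨8, by norm_num, h⟩
    · exact ⟨9, by norm_num, h⟩
    · exact ⟨10, by norm_num, h⟩
    · exact ⟨11, by norm_num, h⟩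
    · exact ⟨12, by norm_num, h⟩
    · exact ⟨13, by norm_num, h⟩
  · rintro ⟨x, hx, h⟩
    interval_cases x <;> simp only [h, and_self, true_or, or_true]

theorem shr_land (a j : ℕ) : Nat.land (Nat.shiftRight a (16 * j)) 65535 = lane a j := by
  have h1 : Nat.land (Nat.shiftRight a (16 * j)) 65535 = (a >>> (16 * j)) &&& (2 ^ 16 - 1) := rfl
  rw [h1, Nat.and_two_pow_sub_one_eq_mod]
  rfl

theorem tile_bit {w A : ℕ} (hA : A < 2 ^ w) {n q b : ℕ} (hq : q < n) (hb : b < w) :
    (A * gones w n).testBit (w * q + b) = A.testBit b := by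
  have h1 := testBit_gl w (A * gones w n) q b
  rw [gl_mul_ones hA hq] at h1
  have h2 : decide (b < w) = true := by simpa using hb
  rw [h2, Bool.true_and] at h1
  exact h1.symm

theorem rowsT_eq (M2 G : ℕ) : rowsT M2 G = ((M2 * gones 224 15) ^^^ (G * gones 240 14)) + lows 210 := by
  have h1 : gones 224 15 = 0x10000000000000000000000000000000000000000000000000000000100000000000000000000000000000000000000000000000000000001000000000000000000000000000000000000000000000000000000010000000000000000000000000000000000000000000000000000000100000000000000000000000000000000000000000000000000000001000000000000000000000000000000000000000000000000000000010000000000000000000000000000000000000000000000000000000100000000000000000000000000000000000000000000000000000001000000000000000000000000000000000000000000000000000000010000000000000000000000000000000000000000000000000000000100000000000000000000000000000000000000000000000000000001000000000000000000000000000000000000000000000000000000010000000000000000000000000000000000000000000000000000000100000000000000000000000000000000000000000000000000000001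 := by decide +kernel
  have h2 : gones 240 14 = 0x1000000000000000000000000000000000000000000000000000000000001000000000000000000000000000000000000000000000000000000000001000000000000000000000000000000000000000000000000000000000001000000000000000000000000000000000000000000000000000000000001000000000000000000000000000000000000000000000000000000000001000000000000000000000000000000000000000000000000000000000001000000000000000000000000000000000000000000000000000000000001000000000000000000000000000000000000000000000000000000000001000000000000000000000000000000000000000000000000000000000001000000000000000000000000000000000000000000000000000000000001000000000000000000000000000000000000000000000000000000000001000000000000000000000000000000000000000000000000000000000001000000000000000000000000000000000000000000000000000000000001 := by decide +kernel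
  have h3 : lows 210 = 0x7fff7fff7fff7fff7fff7fff7fff7fff7fff7fff7fff7fff7fff7fff7fff7fff7fff7fff7fff7fff7fff7fff7fff7fff7fff7fff7fff7fff7fff7fff7fff7fff7fff7fff7fff7fff7fff7fff7fff7fff7fff7fff7fff7fff7fff7fff7fff7fff7fff7fff7fff7fff7fff7fff7fff7fff7fff7fff7fff7fff7fff7fff7fff7fff7fff7fff7fff7fff7fff7fff7fff7fff7fff7fff7fff7fff7fff7fff7fff7fff7fff7fff7fff7fff7fff7fff7fff7fff7fff7fff7fff7fff7fff7fff7fff7fff7fff7fff7fff7fff7fff7fff7fff7fff7fff7fff7fff7fff7fff7fff7fff7fff7fff7fff7fff7fff7fff7fff7fff7fff7fff7fff7fff7fff7fff7fff7fff7fff7fff7fff7fff7fff7fff7fff7fff7fff7fff7fff7fff7fff7fff7fff7fff7fff7fff7fff7fff7fff7fff7fff7fff7fff7fff7fff7fff7fff7fff7fff7fff7fff7fff7fff7fff7fff7fff7fff7fff7fff7fff7fff7fff7fff7fff7fff7fff7fff7fff7fff7fff7fff7fff7fff7fff7fff7fff7fff7fff7fff7fff7fff7fff7fff7fff7fff7fff7fff7fff7fff7fff7fff7fff7fff7fff7fff7fff7fff7fff7fff7fff7fff := by decide +kernel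
  rw [h1, h2, h3]
  rfl

theorem lane_tile {M2 G : ℕ} (h2 : M2 < 2 ^ 224) (hG : G < 2 ^ 240) {s i : ℕ} (hs : s < 14)
    (hi : i < 15) : lane ((M2 * gones 224 15) ^^^ (G * gones 240 14)) (15 * s + i) =
      lane M2 ((15 * s + i) % 14) ^^^ lane G i := by
  apply Nat.eq_of_testBit_eq
  intro b
  rw [testBit_lane, Nat.testBit_xor, Nat.testBit_xor, testBit_lane, testBit_lane]
  by_cases hb : b < 16
  · have e1 : 16 * (15 * s + i) + b = 240 * s + (16 * i + b) := by ring
    have e2 : (G * gones 240 14).testBit (16 * (15 * s + i) + b) = G.testBit (16 * i + b) := by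
      rw [e1, tile_bit hG hs (by omega)]
    have e3 : 16 * (15 * s + i) + b = 224 * ((15 * s + i) / 14) + (16 * ((15 * s + i) % 14) + b) := by
      have := Nat.div_add_mod (15 * s + i) 14
      omega
    have e4 : (M2 * gones 224 15).testBit (16 * (15 * s + i) + b) =
        M2.testBit (16 * ((15 * s + i) % 14) + b) := by
      rw [e3, tile_bit h2 (by omega) (by omega)]
    rw [e2, e4]
    simp [hb]
  · simp [hb]

theorem fold_testBit (a s k : ℕ) : (fold a s).testBit k = (a.testBit k && a.testBit (s + k)) := by
  have : fold a s = a &&& (a >>> s) := rfl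
  rw [this, Nat.testBit_and, Nat.testBit_shiftRight]

theorem fold_all {a k : ℕ} (h : ∀ s < 14, a.testBit (240 * s + k) = true) :
    (fold (fold (fold (fold a 1680) 720) 480) 240).testBit k = true := by
  simp only [fold_testBit, Bool.and_eq_true]
  have h0 := h 0 (by norm_num)
  have h1 := h 1 (by norm_num)
  have h2 := h 2 (by norm_num)
  have h3 := h 3 (by norm_num)
  have h4 := h 4 (by norm_num)
  have h5 := h 5 (by norm_num)
  have h6 := h 6 (by norm_num)
  have h7 := h 7 (by norm_num)
  have h8 := h 8 (by norm_num)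
  have h9 := h 9 (by norm_num)
  have h10 := h 10 (by norm_num)
  have h11 := h 11 (by norm_num)
  have h12 := h 12 (by norm_num)
  have h13 := h 13 (by norm_num)
  simp only [Nat.mul_zero, Nat.zero_add, Nat.reduceMul] at *
  refine ⟨⟨⟨⟨?_, ?_⟩, ?_, ?_⟩, ⟨?_, ?_⟩, ?_, ?_⟩, ⟨⟨?_, ?_⟩, ?_, ?_⟩, ⟨?_, ?_⟩, ?_, ?_⟩ <;>
    first
      | assumption
      | (simp only [← Nat.add_assoc, Nat.reduceAdd]; assumption)

theorem high_testBit : ∀ i < 14, (Nat.testBit 0x80008000800080008000800080008000800080008000800080008000 (16 * i + 15)) = true := by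
  decide +kernel

theorem rowsZ_zero {M2 G : ℕ} (h2' : M2 < 2 ^ 224) (hG' : G < 2 ^ 240)
    (h2 : ∀ j < 14, lane M2 j < 2 ^ 15) (hG : ∀ i < 15, lane G i < 2 ^ 15)
    (h : rowsZ M2 G = 0) {i : ℕ} (hi : i < 14) : ∃ j < 14, lane M2 j = lane G i := by
  by_contra hcon
  push Not at hcon
  have hz : rowsZ M2 G = (fold (fold (fold (fold (rowsT M2 G) 1680) 720) 480) 240) &&& 0x80008000800080008000800080008000800080008000800080008000 := rfl
  have h0 := congrArg (fun x => Nat.testBit x (16 * i + 15)) h
  simp only [hz, Nat.testBit_and, Nat.zero_testBit, high_testBit i hi, Bool.and_true] at h0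
  rw [fold_all] at h0
  · exact Bool.false_ne_true h0.symm
  intro s hs
  have e : 240 * s + (16 * i + 15) = 16 * (15 * s + i) + 15 := by ring
  rw [e, rowsT_eq, add_lows_testBit 210 _ _ _ (by omega), lane_tile h2' hG' hs (by omega)]
  · rw [decide_eq_true_eq, Ne, Nat.xor_eq_zero_iff]
    exact hcon _ (Nat.mod_lt _ (by norm_num))
  · intro L hL
    have e2 : L = 15 * (L / 15) + L % 15 := (Nat.div_add_mod L 15).symm
    have h3 : L % 15 < 15 := Nat.mod_lt _ (by norm_num)
    rw [e2, lane_tile h2' hG' (by omega) h3]
    exact Nat.xor_lt_two_pow (h2 _ (Nat.mod_lt _ (by norm_num))) (hG _ h3)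

theorem mask_testBit : ∀ k < 224, (Nat.testBit 0xffffffffffffffffffffffffffffffffffffffffffffffffffffffff k) = true := by
  decide +kernel

theorem mask_testBit_ge (k : ℕ) (hk : 224 ≤ k) : (Nat.testBit 0xffffffffffffffffffffffffffffffffffffffffffffffffffffffff k) = false :=
  Nat.testBit_lt_two_pow (lt_of_lt_of_le (by norm_num : 0xffffffffffffffffffffffffffffffffffffffffffffffffffffffff < 2 ^ 224)
    (Nat.pow_le_pow_right (by norm_num) hk))

theorem Supp.lane_lt {n M : ℕ} (hn : n ≤ 14) (h : Supp n M) (j : ℕ) : lane M j < 2 ^ 15 := by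
  by_contra hcon
  have h1 : (lane M j).testBit 15 = true := by
    rw [testBit_15_of_lt (Pool.Agent.Cfg3.lane_lt M j)]
    simpa using hcon
  rw [testBit_lane' (by norm_num)] at h1
  have := h _ h1
  omega

theorem Supp.lt {n M : ℕ} (hn : n ≤ 14) (h : Supp n M) : M < 2 ^ 224 := by
  apply Nat.lt_pow_two_of_testBit
  intro k hk
  by_contra hc
  have := h k (by simpa using hc)
  omega

theorem two_pow_sub_testBit {n b : ℕ} : (2 ^ n - 1).testBit b = decide (b < n) := by
  rw [Nat.testBit_two_pow_sub_one]

theorem iso_sound {n : ℕ} (hn : n ≤ 14) {P L : Type*} {I : P → L → Prop} {M c M2 : ℕ}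
    (hS : Supp n M) (hS2 : Supp n M2) (h : isoCheck (2 ^ n - 1) M c M2 = true) (hI : Conf3 I)
    (hM : Mod n M I) : Mod n M2 I := by
  obtain ⟨f, g, hf, hg, hfg⟩ := hM
  set full := 2 ^ n - 1 with hfull
  set G := permG (M ||| (full <<< 240)) c with hG
  have hiso : isoCheck full M c M2 = (@Bool.rec (fun _ => Bool) false
    (Nat.beq (rowsZ M2 (Nat.land G 0xffffffffffffffffffffffffffffffffffffffffffffffffffffffff)) 0) (Nat.beq (Nat.shiftRight G 240) full)) := rfl
  rw [hiso] at h
  have hA : Nat.beq (Nat.shiftRight G 240) full = true := by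
    by_contra hc
    rw [Bool.not_eq_true] at hc
    rw [hc] at h
    exact Bool.false_ne_true h
  rw [hA] at h
  have hB : Nat.beq (rowsZ M2 (Nat.land G 0xffffffffffffffffffffffffffffffffffffffffffffffffffffffff)) 0 = true := h
  have hA' : G >>> 240 = full := Nat.eq_of_beq_eq_true hA
  have hB' : rowsZ M2 (G &&& 0xffffffffffffffffffffffffffffffffffffffffffffffffffffffff) = 0 := Nat.eq_of_beq_eq_true hB
  have big : ∀ i < 14, ∀ x < 16, (M ||| (full <<< 240)).testBit (16 * i + x) = M.testBit (16 * i + x) := by
    intro i hi x hx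
    rw [Nat.testBit_or, Nat.testBit_shiftLeft]
    have : ¬ (16 * i + x ≥ 240) := by omega
    simp [this]
  have nsup : ∀ x y : ℕ, x < 16 → (¬ x < n ∨ ¬ y < n) → M.testBit (16 * y + x) = false := by
    intro x y hx hxy
    by_contra hc
    have := hS _ (by simpa using hc)
    have e1 : (16 * y + x) % 16 = x := by omega
    have e2 : (16 * y + x) / 16 = y := by omega
    rw [e1, e2] at this
    omega
  have nsup2 : ∀ x y : ℕ, x < 16 → (¬ x < n ∨ ¬ y < n) → M2.testBit (16 * y + x) = false := by
    intro x y hx hxy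
    by_contra hc
    have := hS2 _ (by simpa using hc)
    have e1 : (16 * y + x) % 16 = x := by omega
    have e2 : (16 * y + x) / 16 = y := by omega
    rw [e1, e2] at this
    omega
  have top : ∀ b < 16, (b < n ↔ ∃ x < n, dig c x = b) := by
    intro b hb
    have h1 : G.testBit (16 * 15 + b) = decide (b < n) := by
      have := congrArg (fun z => Nat.testBit z b) hA'
      simp only [Nat.testBit_shiftRight] at this
      rw [show 16 * 15 = 240 from rfl, this, hfull, two_pow_sub_testBit]
    have h2 := permG_testBit (M ||| (full <<< 240)) c (i := 15) (b := b) (by norm_num) (by norm_num) hb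
    rw [← hG, h1, decide_eq_true_eq] at h2
    rw [h2]
    have h3 : ∀ x < 14, ((M ||| (full <<< 240)).testBit (16 * 15 + x) = true ↔ x < n) := by
      intro x hx
      rw [Nat.testBit_or, nsup x 15 (by omega) (Or.inr (by omega)), Bool.false_or,
        Nat.testBit_shiftLeft, hfull, two_pow_sub_testBit]
      have : 16 * 15 + x ≥ 240 := by omega
      have e : 16 * 15 + x - 240 = x := by omega
      simp [this]
    constructor
    · rintro ⟨x, hx, h4, h5⟩
      exact ⟨x, (h3 x hx).1 h4, h5⟩
    · rintro ⟨x, hx, h5⟩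
      exact ⟨x, by omega, (h3 x (by omega)).2 hx, h5⟩
  have hdn : ∀ x < n, dig c x < n := fun x hx => (top _ (dig_lt c x)).2 ⟨x, hx, rfl⟩
  let φ : Fin n → Fin n := fun x => ⟨dig c x, hdn x x.2⟩
  have hφs : Function.Surjective φ := by
    intro b
    obtain ⟨x, hx, h1⟩ := (top b (by omega)).1 b.2
    exact ⟨⟨x, hx⟩, Fin.ext h1⟩
  have hφ : Function.Bijective φ := Finite.surjective_iff_bijective.1 hφs
  have lowG : ∀ i < 14, ∀ b < 16, (G.testBit (16 * i + b) = true ↔
      ∃ x < n, M.testBit (16 * i + x) = true ∧ dig c x = b) := by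
    intro i hi b hb
    rw [hG, permG_testBit _ _ (by omega) (by omega) hb]
    constructor
    · rintro ⟨x, hx, h1, h2⟩
      rw [big i hi x (by omega)] at h1
      refine ⟨x, ?_, h1, h2⟩
      by_contra hc
      rw [nsup x i (by omega) (Or.inl hc)] at h1
      exact Bool.false_ne_true h1
    · rintro ⟨x, hx, h1, h2⟩
      refine ⟨x, by omega, ?_, h2⟩
      rw [big i hi x (by omega)]
      exact h1
  have laneG : ∀ i < 14, lane (G &&& 0xffffffffffffffffffffffffffffffffffffffffffffffffffffffff) i = lane G i := by
    intro i hi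
    apply Nat.eq_of_testBit_eq
    intro b
    rw [testBit_lane, testBit_lane, Nat.testBit_and]
    by_cases hb : b < 16
    · rw [mask_testBit _ (by omega), Bool.and_true]
    · simp [hb]
  have rows : ∀ i < 14, ∃ j < 14, lane M2 j = lane G i := by
    intro i hi
    have hlt : G &&& 0xffffffffffffffffffffffffffffffffffffffffffffffffffffffff < 2 ^ 224 :=
      lt_of_le_of_lt Nat.and_le_right (by norm_num)
    obtain ⟨j, hj, h1⟩ := rowsZ_zero (M2 := M2) (G := G &&& 0xffffffffffffffffffffffffffffffffffffffffffffffffffffffff)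
      (hS2.lt hn) (lt_trans hlt (by norm_num)) (fun j _ => hS2.lane_lt hn j) (fun i hi => by
        rcases Nat.lt_or_ge i 14 with hi14 | hi14
        · rw [laneG i hi14]
          by_contra hcon
          have h1 : (lane G i).testBit 15 = true := by
            rw [testBit_15_of_lt (Pool.Agent.Cfg3.lane_lt G i)]
            simpa using hcon
          rw [testBit_lane' (by norm_num), lowG i hi14 15 (by norm_num)] at h1
          obtain ⟨x, hx, -, h2⟩ := h1
          have := hdn x hx
          omega
        · have h14 : i = 14 := by omega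
          subst h14
          unfold lane
          rw [Nat.shiftRight_eq_div_pow, Nat.div_eq_of_lt hlt]
          norm_num) hB' hi
    exact ⟨j, hj, by rw [h1, laneG i hi]⟩
  have key : ∀ i : Fin n, ∃ j : Fin n, ∀ x : Fin n,
      (M2.testBit (16 * (j : ℕ) + φ x) = true ↔ M.testBit (16 * (i : ℕ) + x) = true) := by
    intro i
    obtain ⟨j, hj, h1⟩ := rows i (by omega)
    have h2 : ∀ x : Fin n, (M2.testBit (16 * j + φ x) = true ↔ M.testBit (16 * (i : ℕ) + x) = true) := by
      intro x
      have hx16 : ((φ x : Fin n) : ℕ) < 16 := by omega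
      rw [← testBit_lane' hx16, h1, testBit_lane' hx16, lowG i (by omega) _ hx16]
      constructor
      · rintro ⟨x', hx', h3, h4⟩
        have : (⟨x', hx'⟩ : Fin n) = x := hφ.1 (Fin.ext h4)
        rw [← this]
        exact h3
      · intro h3
        exact ⟨x, x.2, h3, rfl⟩
    have hne : ∃ x : Fin n, M.testBit (16 * (i : ℕ) + x) = true := by
      have h3 := hI.row (g i)
      have h4 : {p | I p (g i)}.Nonempty := Set.nonempty_of_ncard_ne_zero (by rw [h3]; norm_num)
      obtain ⟨p, hp⟩ := h4
      obtain ⟨x, rfl⟩ := hf.2 p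
      exact ⟨x, (hfg x i).1 hp⟩
    obtain ⟨x, hx⟩ := hne
    have hjn : j < n := by
      by_contra hc
      have h5 := (h2 x).2 hx
      rw [nsup2 (φ x) j (by omega) (Or.inr hc)] at h5
      exact Bool.false_ne_true h5
    exact ⟨⟨j, hjn⟩, h2⟩
  choose ψ hψ using key
  have hψi : Function.Injective ψ := by
    intro i i' hii
    have h1 : ∀ x : Fin n, I (f x) (g i) ↔ I (f x) (g i') := by
      intro x
      rw [hfg, hfg, ← hψ, ← hψ, hii]
    obtain ⟨p, q, r, hpq, -, -, hpqr⟩ := Set.ncard_eq_three.1 (hI.row (g i))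
    have hp : I p (g i) := by
      have : p ∈ {p | I p (g i)} := by rw [hpqr]; simp
      exact this
    have hq : I q (g i) := by
      have : q ∈ {p | I p (g i)} := by rw [hpqr]; simp
      exact this
    obtain ⟨x, rfl⟩ := hf.2 p
    obtain ⟨y, rfl⟩ := hf.2 q
    exact hg.1 (hI.lin _ _ _ _ hpq hp hq ((h1 x).1 hp) ((h1 y).1 hq))
  have hψb : Function.Bijective ψ := Finite.injective_iff_bijective.1 hψi
  let eφ := Equiv.ofBijective φ hφ
  let eψ := Equiv.ofBijective ψ hψb
  refine ⟨f ∘ eφ.symm, g ∘ eψ.symm, hf.comp eφ.symm.bijective, hg.comp eψ.symm.bijective, ?_⟩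
  intro x y
  have h1 := hψ (eψ.symm y) (eφ.symm x)
  have h2 : ψ (eψ.symm y) = y := eψ.apply_symm_apply y
  have h3 : φ (eφ.symm x) = x := eφ.apply_symm_apply x
  rw [h2, h3] at h1
  rw [h1]
  exact hfg _ _

end

end Pool.Agent.Cfg3
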