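import Mathlib
import Pool.Agent.Cfg3.Chk

/-!
Arithmetic of natural numbers seen as vectors of 16-bit lanes.
-/

namespace Pool.Agent.Cfg3

theorem ones_succ (n : ℕ) : ones (n + 1) = 2 ^ 16 * ones n + 1 := rfl

/-- lows n has all lanes below n equal to 32767. -/
def lows : ℕ → ℕ
  | 0 => 0
  | n + 1 => 2 ^ 16 * lows n + 32767

/-- lane i of a. -/
def lane (a i : ℕ) : ℕ := (a >>> (16 * i)) % 2 ^ 16

theorem lane_lt (a i : ℕ) : lane a i < 2 ^ 16 := Nat.mod_lt _ (by norm_num)

theorem testBit_lane (a i b : ℕ) :
    (lane a i).testBit b = (decide (b < 16) && a.testBit (16 * i + b)) := by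
  unfold lane
  rw [Nat.testBit_mod_two_pow, Nat.testBit_shiftRight]

theorem testBit_lane' {a i b : ℕ} (hb : b < 16) :
    (lane a i).testBit b = a.testBit (16 * i + b) := by
  rw [testBit_lane]; simp [hb]

theorem lane_xor (a b i : ℕ) : lane (a ^^^ b) i = lane a i ^^^ lane b i := by
  apply Nat.eq_of_testBit_eq
  intro j
  rw [testBit_lane, Nat.testBit_xor, Nat.testBit_xor, testBit_lane, testBit_lane]
  cases decide (j < 16) <;> simp

theorem lane_and (a b i : ℕ) : lane (a &&& b) i = lane a i &&& lane b i := by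
  apply Nat.eq_of_testBit_eq
  intro j
  rw [testBit_lane, Nat.testBit_and, Nat.testBit_and, testBit_lane, testBit_lane]
  cases decide (j < 16) <;> simp

theorem lane_zero (a : ℕ) : lane a 0 = a % 2 ^ 16 := by simp [lane]

theorem lane_succ (a i : ℕ) : lane a (i + 1) = lane (a / 2 ^ 16) i := by
  unfold lane
  rw [Nat.shiftRight_eq_div_pow, Nat.shiftRight_eq_div_pow, Nat.div_div_eq_div_mul, ← pow_add]
  congr 3
  ring

theorem lane_ext {a b n : ℕ} (ha : a < 2 ^ (16 * n)) (hb : b < 2 ^ (16 * n))
    (h : ∀ i < n, lane a i = lane b i) : a = b := by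
  apply Nat.eq_of_testBit_eq
  intro j
  by_cases hj : j / 16 < n
  · have h1 := congrArg (fun x => Nat.testBit x (j % 16)) (h _ hj)
    simp only [testBit_lane' (Nat.mod_lt j (by norm_num : 16 > 0))] at h1
    rwa [Nat.div_add_mod] at h1
  · have : 16 * n ≤ j := by omega
    rw [Nat.testBit_lt_two_pow (lt_of_lt_of_le ha (Nat.pow_le_pow_right (by norm_num) this)),
      Nat.testBit_lt_two_pow (lt_of_lt_of_le hb (Nat.pow_le_pow_right (by norm_num) this))]

theorem lane_mul_ones (r : ℕ) (hr : r < 2 ^ 16) : ∀ (n i : ℕ), i < n → lane (r * ones n) i = r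
  | 0, _, h => absurd h (Nat.not_lt_zero _)
  | n + 1, 0, _ => by
      rw [lane_zero, ones_succ]
      have : r * (2 ^ 16 * ones n + 1) = r + 2 ^ 16 * (r * ones n) := by ring
      rw [this, Nat.add_mul_mod_self_left, Nat.mod_eq_of_lt hr]
  | n + 1, i + 1, h => by
      rw [lane_succ, ones_succ]
      have : r * (2 ^ 16 * ones n + 1) = r + 2 ^ 16 * (r * ones n) := by ring
      rw [this, Nat.add_mul_div_left _ _ (by norm_num), Nat.div_eq_of_lt hr, zero_add]
      exact lane_mul_ones r hr n i (by omega)

theorem testBit_15_of_lt {b : ℕ} (hb : b < 2 ^ 16) : b.testBit 15 = decide (2 ^ 15 ≤ b) := by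
  rw [Nat.testBit_eq_decide_div_mod_eq]
  congr 1
  apply propext
  constructor <;> intro h <;> omega

theorem add_lows_testBit : ∀ (n a : ℕ), (∀ i < n, lane a i < 2 ^ 15) → ∀ i < n,
    (a + lows n).testBit (16 * i + 15) = decide (lane a i ≠ 0)
  | 0, _, _ => fun i h => absurd h (Nat.not_lt_zero _)
  | n + 1, a, ha => by
      have h0 : a % 2 ^ 16 < 2 ^ 15 := by
        have := ha 0 (Nat.succ_pos _)
        rwa [lane_zero] at this
      have key : a + lows (n + 1) = 2 ^ 16 * (a / 2 ^ 16 + lows n) + (a % 2 ^ 16 + 32767) := by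
        rw [lows]
        have := Nat.div_add_mod a (2 ^ 16)
        omega
      have hlt : a % 2 ^ 16 + 32767 < 2 ^ 16 := by omega
      intro i hi
      rw [key, Nat.testBit_two_pow_mul_add _ hlt]
      rcases i with _ | i
      · simp only [Nat.mul_zero, Nat.zero_add]
        rw [if_pos (by norm_num), testBit_15_of_lt hlt, lane_zero]
        congr 1
        apply propext
        constructor <;> intro h <;> omega
      · rw [if_neg (by omega)]
        have : 16 * (i + 1) + 15 - 16 = 16 * i + 15 := by omega
        rw [this, add_lows_testBit n (a / 2 ^ 16) (fun j hj => by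
          rw [← lane_succ]; exact ha (j + 1) (by omega)) i (by omega), lane_succ]

theorem testBit_ones : ∀ (n k : ℕ), (ones n).testBit k = (decide (k % 16 = 0) && decide (k / 16 < n))
  | 0, k => by simp [ones]
  | n + 1, k => by
      rw [ones_succ, Nat.testBit_two_pow_mul_add _ (by norm_num)]
      by_cases hk : k < 16
      · rw [if_pos hk]
        have h1 : k / 16 = 0 := by omega
        have h2 : k % 16 = k := by omega
        have h3 : Nat.testBit 1 k = decide (0 = k) := Nat.testBit_two_pow (n := 0)
        rw [h1, h2, h3]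
        simp [eq_comm]
      · rw [if_neg hk, testBit_ones n]
        have h1 : (k - 16) % 16 = k % 16 := by omega
        have h2 : ((k - 16) / 16 < n) = (k / 16 < n + 1) := by
          apply propext
          omega
        rw [h1]
        simp only [h2]

theorem lane_eq_zero_iff {a i : ℕ} : lane a i = 0 ↔ ∀ b < 16, a.testBit (16 * i + b) = false := by
  constructor
  · intro h b hb
    rw [← testBit_lane' hb, h, Nat.zero_testBit]
  · intro h
    apply Nat.eq_of_testBit_eq
    intro j
    rw [testBit_lane, Nat.zero_testBit]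
    by_cases hj : j < 16
    · simp [hj, h j hj]
    · simp [hj]

end Pool.Agent.Cfg3
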