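import Pool.Agent.Cfg3.Range
import Pool.Agent.Cfg3.Geometry
import Pool.Agent.Cfg3.Data.Ext12
import Pool.Agent.Cfg3.Data.Ext13p0
import Pool.Agent.Cfg3.Data.Ext13p1
import Pool.Agent.Cfg3.Data.Ext13p2
import Pool.Agent.Cfg3.Data.Ext13p3
import Pool.Agent.Cfg3.Data.Ext13p4
import Pool.Agent.Cfg3.Data.Ext13p5
import Pool.Agent.Cfg3.Data.Ext13p6
import Pool.Agent.Cfg3.Data.Ext13p7
import Pool.Agent.Cfg3.Data.Ext13p8
import Pool.Agent.Cfg3.Data.Ext13p9
import Pool.Agent.Cfg3.Data.Ext13p10
import Pool.Agent.Cfg3.Data.Ext13p11
import Pool.Agent.Cfg3.Data.Ext13p12
import Pool.Agent.Cfg3.Data.Ext13p13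
import Pool.Agent.Cfg3.Data.Ext13p14
import Pool.Agent.Cfg3.Data.Ext13p15
import Pool.Agent.Cfg3.Data.Real13
import Pool.Agent.Cfg3.Data.Real14p0
import Pool.Agent.Cfg3.Data.Real14p1
import Pool.Agent.Cfg3.Data.Real14p2
import Pool.Agent.Cfg3.Data.Real14p3
import Pool.Agent.Cfg3.Data.Real14p4
import Pool.Agent.Cfg3.Data.Real14p5
import Pool.Agent.Cfg3.Data.Dag

/-!
All configurations with at most fourteen points are in the lists, and those with thirteen or
fourteen points have coordinates, apart from two disjoint Fano planes.
-/

namespace Pool.Agent.Cfg3

theorem skip {Q : ℕ → Prop} {s e : ℕ} (h : ∀ k, s ≤ k → k < e → Q k) :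
    ∀ k, s ≤ k → k < e → (k ≠ 7 → Q k) := fun k h1 h2 _ => h k h1 h2

theorem skip7 {Q : ℕ → Prop} : ∀ k, 7 ≤ k → k < 8 → (k ≠ 7 → Q k) :=
  fun k h1 h2 h3 => absurd (by omega) h3

theorem sup7 : ∀ k, Supp 7 (look t7 k) :=
  AllL.look (suppT_sound (n := 7) (m := 1) (by norm_num) (by decide +kernel) supp7)

theorem sup8 : ∀ k, Supp 8 (look t8 k) :=
  AllL.look (suppT_sound (n := 8) (m := 1) (by norm_num) (by decide +kernel) supp8)

theorem sup9 : ∀ k, Supp 9 (look t9 k) :=
  AllL.look (suppT_sound (n := 9) (m := 3) (by norm_num) (by decide +kernel) supp9)

theorem sup10 : ∀ k, Supp 10 (look t10 k) :=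
  AllL.look (suppT_sound (n := 10) (m := 10) (by norm_num) (by decide +kernel) supp10)

theorem sup11 : ∀ k, Supp 11 (look t11 k) :=
  AllL.look (suppT_sound (n := 11) (m := 31) (by norm_num) (by decide +kernel) supp11)

theorem sup12 : ∀ k, Supp 12 (look t12 k) :=
  AllL.look (suppT_sound (n := 12) (m := 58) (by norm_num) (by decide +kernel) supp12)

theorem sup13 : ∀ k, Supp 13 (look t13 k) :=
  AllL.look (suppT_sound (n := 13) (m := 64) (by norm_num) (by decide +kernel) supp13)

theorem sup14 : ∀ k, Supp 14 (look t14 k) :=
  AllL.look (suppT_sound (n := 14) (m := 84) (by norm_num) (by decide +kernel) supp14)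

theorem good7_0 : ∀ k < 1, Good t8 1 7 (look t7 k) :=
  (chain (fun k hk => absurd hk (Nat.not_lt_zero k))
    (chkL_good (by norm_num) (by norm_num) sup7 e7_0))

theorem good8_0 : ∀ k < 1, Good t9 3 8 (look t8 k) :=
  (chain (fun k hk => absurd hk (Nat.not_lt_zero k))
    (chkL_good (by norm_num) (by norm_num) sup8 e8_0))

theorem good9_0 : ∀ k < 3, Good t10 10 9 (look t9 k) :=
  (chain (fun k hk => absurd hk (Nat.not_lt_zero k))
    (chkL_good (by norm_num) (by norm_num) sup9 e9_0))

theorem good10_0 : ∀ k < 10, Good t11 31 10 (look t10 k) :=
  (chain (fun k hk => absurd hk (Nat.not_lt_zero k))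
    (chkL_good (by norm_num) (by norm_num) sup10 e10_0))

theorem good11_0 : ∀ k < 31, Good t12 229 11 (look t11 k) :=
  (chain (chain (chain (fun k hk => absurd hk (Nat.not_lt_zero k))
    (chkL_good (by norm_num) (by norm_num) sup11 e11_0))
    (chkL_good (by norm_num) (by norm_num) sup11 e11_1))
    (chkL_good (by norm_num) (by norm_num) sup11 e11_2))

theorem good12_0 : ∀ k < 229, Good t13 2036 12 (look t12 k) :=
  (chain (chain (chain (chain (chain (chain (chain (chain (chain (chain (chain (chain (chain (chain (chain (chain (chain (chain (chain (chain (fun k hk => absurd hk (Nat.not_lt_zero k))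
    (chkL_good (by norm_num) (by norm_num) sup12 e12_0))
    (chkL_good (by norm_num) (by norm_num) sup12 e12_1))
    (chkL_good (by norm_num) (by norm_num) sup12 e12_2))
    (chkL_good (by norm_num) (by norm_num) sup12 e12_3))
    (chkL_good (by norm_num) (by norm_num) sup12 e12_4))
    (chkL_good (by norm_num) (by norm_num) sup12 e12_5))
    (chkL_good (by norm_num) (by norm_num) sup12 e12_6))
    (chkL_good (by norm_num) (by norm_num) sup12 e12_7))
    (chkL_good (by norm_num) (by norm_num) sup12 e12_8))
    (chkL_good (by norm_num) (by norm_num) sup12 e12_9))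
    (chkL_good (by norm_num) (by norm_num) sup12 e12_10))
    (chkL_good (by norm_num) (by norm_num) sup12 e12_11))
    (chkL_good (by norm_num) (by norm_num) sup12 e12_12))
    (chkL_good (by norm_num) (by norm_num) sup12 e12_13))
    (chkL_good (by norm_num) (by norm_num) sup12 e12_14))
    (chkL_good (by norm_num) (by norm_num) sup12 e12_15))
    (chkL_good (by norm_num) (by norm_num) sup12 e12_16))
    (chkL_good (by norm_num) (by norm_num) sup12 e12_17))
    (chkL_good (by norm_num) (by norm_num) sup12 e12_18))
    (chkL_good (by norm_num) (by norm_num) sup12 e12_19))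

theorem good13_0 : ∀ k < 256, Good t14 21399 13 (look t13 k) :=
  (chain (chain (chain (chain (chain (chain (chain (chain (chain (chain (chain (chain (chain (chain (chain (chain (chain (chain (chain (chain (chain (chain (chain (chain (chain (chain (chain (chain (chain (chain (chain (chain (fun k hk => absurd hk (Nat.not_lt_zero k))
    (chkL_good (by norm_num) (by norm_num) sup13 e13_0))
    (chkL_good (by norm_num) (by norm_num) sup13 e13_1))
    (chkL_good (by norm_num) (by norm_num) sup13 e13_2))
    (chkL_good (by norm_num) (by norm_num) sup13 e13_3))
    (chkL_good (by norm_num) (by norm_num) sup13 e13_4))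
    (chkL_good (by norm_num) (by norm_num) sup13 e13_5))
    (chkL_good (by norm_num) (by norm_num) sup13 e13_6))
    (chkL_good (by norm_num) (by norm_num) sup13 e13_7))
    (chkL_good (by norm_num) (by norm_num) sup13 e13_8))
    (chkL_good (by norm_num) (by norm_num) sup13 e13_9))
    (chkL_good (by norm_num) (by norm_num) sup13 e13_10))
    (chkL_good (by norm_num) (by norm_num) sup13 e13_11))
    (chkL_good (by norm_num) (by norm_num) sup13 e13_12))
    (chkL_good (by norm_num) (by norm_num) sup13 e13_13))
    (chkL_good (by norm_num) (by norm_num) sup13 e13_14))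
    (chkL_good (by norm_num) (by norm_num) sup13 e13_15))
    (chkL_good (by norm_num) (by norm_num) sup13 e13_16))
    (chkL_good (by norm_num) (by norm_num) sup13 e13_17))
    (chkL_good (by norm_num) (by norm_num) sup13 e13_18))
    (chkL_good (by norm_num) (by norm_num) sup13 e13_19))
    (chkL_good (by norm_num) (by norm_num) sup13 e13_20))
    (chkL_good (by norm_num) (by norm_num) sup13 e13_21))
    (chkL_good (by norm_num) (by norm_num) sup13 e13_22))
    (chkL_good (by norm_num) (by norm_num) sup13 e13_23))
    (chkL_good (by norm_num) (by norm_num) sup13 e13_24))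
    (chkL_good (by norm_num) (by norm_num) sup13 e13_25))
    (chkL_good (by norm_num) (by norm_num) sup13 e13_26))
    (chkL_good (by norm_num) (by norm_num) sup13 e13_27))
    (chkL_good (by norm_num) (by norm_num) sup13 e13_28))
    (chkL_good (by norm_num) (by norm_num) sup13 e13_29))
    (chkL_good (by norm_num) (by norm_num) sup13 e13_30))
    (chkL_good (by norm_num) (by norm_num) sup13 e13_31))

theorem good13_1 : ∀ k < 512, Good t14 21399 13 (look t13 k) :=
  (chain (chain (chain (chain (chain (chain (chain (chain (chain (chain (chain (chain (chain (chain (chain (chain (chain (chain (chain (chain (chain (chain (chain (chain (chain (chain (chain (chain (chain (chain (chain (chain good13_0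
    (chkL_good (by norm_num) (by norm_num) sup13 e13_32))
    (chkL_good (by norm_num) (by norm_num) sup13 e13_33))
    (chkL_good (by norm_num) (by norm_num) sup13 e13_34))
    (chkL_good (by norm_num) (by norm_num) sup13 e13_35))
    (chkL_good (by norm_num) (by norm_num) sup13 e13_36))
    (chkL_good (by norm_num) (by norm_num) sup13 e13_37))
    (chkL_good (by norm_num) (by norm_num) sup13 e13_38))
    (chkL_good (by norm_num) (by norm_num) sup13 e13_39))
    (chkL_good (by norm_num) (by norm_num) sup13 e13_40))
    (chkL_good (by norm_num) (by norm_num) sup13 e13_41))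
    (chkL_good (by norm_num) (by norm_num) sup13 e13_42))
    (chkL_good (by norm_num) (by norm_num) sup13 e13_43))
    (chkL_good (by norm_num) (by norm_num) sup13 e13_44))
    (chkL_good (by norm_num) (by norm_num) sup13 e13_45))
    (chkL_good (by norm_num) (by norm_num) sup13 e13_46))
    (chkL_good (by norm_num) (by norm_num) sup13 e13_47))
    (chkL_good (by norm_num) (by norm_num) sup13 e13_48))
    (chkL_good (by norm_num) (by norm_num) sup13 e13_49))
    (chkL_good (by norm_num) (by norm_num) sup13 e13_50))
    (chkL_good (by norm_num) (by norm_num) sup13 e13_51))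
    (chkL_good (by norm_num) (by norm_num) sup13 e13_52))
    (chkL_good (by norm_num) (by norm_num) sup13 e13_53))
    (chkL_good (by norm_num) (by norm_num) sup13 e13_54))
    (chkL_good (by norm_num) (by norm_num) sup13 e13_55))
    (chkL_good (by norm_num) (by norm_num) sup13 e13_56))
    (chkL_good (by norm_num) (by norm_num) sup13 e13_57))
    (chkL_good (by norm_num) (by norm_num) sup13 e13_58))
    (chkL_good (by norm_num) (by norm_num) sup13 e13_59))
    (chkL_good (by norm_num) (by norm_num) sup13 e13_60))
    (chkL_good (by norm_num) (by norm_num) sup13 e13_61))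
    (chkL_good (by norm_num) (by norm_num) sup13 e13_62))
    (chkL_good (by norm_num) (by norm_num) sup13 e13_63))

theorem good13_2 : ∀ k < 768, Good t14 21399 13 (look t13 k) :=
  (chain (chain (chain (chain (chain (chain (chain (chain (chain (chain (chain (chain (chain (chain (chain (chain (chain (chain (chain (chain (chain (chain (chain (chain (chain (chain (chain (chain (chain (chain (chain (chain good13_1
    (chkL_good (by norm_num) (by norm_num) sup13 e13_64))
    (chkL_good (by norm_num) (by norm_num) sup13 e13_65))
    (chkL_good (by norm_num) (by norm_num) sup13 e13_66))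
    (chkL_good (by norm_num) (by norm_num) sup13 e13_67))
    (chkL_good (by norm_num) (by norm_num) sup13 e13_68))
    (chkL_good (by norm_num) (by norm_num) sup13 e13_69))
    (chkL_good (by norm_num) (by norm_num) sup13 e13_70))
    (chkL_good (by norm_num) (by norm_num) sup13 e13_71))
    (chkL_good (by norm_num) (by norm_num) sup13 e13_72))
    (chkL_good (by norm_num) (by norm_num) sup13 e13_73))
    (chkL_good (by norm_num) (by norm_num) sup13 e13_74))
    (chkL_good (by norm_num) (by norm_num) sup13 e13_75))
    (chkL_good (by norm_num) (by norm_num) sup13 e13_76))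
    (chkL_good (by norm_num) (by norm_num) sup13 e13_77))
    (chkL_good (by norm_num) (by norm_num) sup13 e13_78))
    (chkL_good (by norm_num) (by norm_num) sup13 e13_79))
    (chkL_good (by norm_num) (by norm_num) sup13 e13_80))
    (chkL_good (by norm_num) (by norm_num) sup13 e13_81))
    (chkL_good (by norm_num) (by norm_num) sup13 e13_82))
    (chkL_good (by norm_num) (by norm_num) sup13 e13_83))
    (chkL_good (by norm_num) (by norm_num) sup13 e13_84))
    (chkL_good (by norm_num) (by norm_num) sup13 e13_85))
    (chkL_good (by norm_num) (by norm_num) sup13 e13_86))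
    (chkL_good (by norm_num) (by norm_num) sup13 e13_87))
    (chkL_good (by norm_num) (by norm_num) sup13 e13_88))
    (chkL_good (by norm_num) (by norm_num) sup13 e13_89))
    (chkL_good (by norm_num) (by norm_num) sup13 e13_90))
    (chkL_good (by norm_num) (by norm_num) sup13 e13_91))
    (chkL_good (by norm_num) (by norm_num) sup13 e13_92))
    (chkL_good (by norm_num) (by norm_num) sup13 e13_93))
    (chkL_good (by norm_num) (by norm_num) sup13 e13_94))
    (chkL_good (by norm_num) (by norm_num) sup13 e13_95))

theorem good13_3 : ∀ k < 1024, Good t14 21399 13 (look t13 k) :=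
  (chain (chain (chain (chain (chain (chain (chain (chain (chain (chain (chain (chain (chain (chain (chain (chain (chain (chain (chain (chain (chain (chain (chain (chain (chain (chain (chain (chain (chain (chain (chain (chain good13_2
    (chkL_good (by norm_num) (by norm_num) sup13 e13_96))
    (chkL_good (by norm_num) (by norm_num) sup13 e13_97))
    (chkL_good (by norm_num) (by norm_num) sup13 e13_98))
    (chkL_good (by norm_num) (by norm_num) sup13 e13_99))
    (chkL_good (by norm_num) (by norm_num) sup13 e13_100))
    (chkL_good (by norm_num) (by norm_num) sup13 e13_101))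
    (chkL_good (by norm_num) (by norm_num) sup13 e13_102))
    (chkL_good (by norm_num) (by norm_num) sup13 e13_103))
    (chkL_good (by norm_num) (by norm_num) sup13 e13_104))
    (chkL_good (by norm_num) (by norm_num) sup13 e13_105))
    (chkL_good (by norm_num) (by norm_num) sup13 e13_106))
    (chkL_good (by norm_num) (by norm_num) sup13 e13_107))
    (chkL_good (by norm_num) (by norm_num) sup13 e13_108))
    (chkL_good (by norm_num) (by norm_num) sup13 e13_109))
    (chkL_good (by norm_num) (by norm_num) sup13 e13_110))
    (chkL_good (by norm_num) (by norm_num) sup13 e13_111))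
    (chkL_good (by norm_num) (by norm_num) sup13 e13_112))
    (chkL_good (by norm_num) (by norm_num) sup13 e13_113))
    (chkL_good (by norm_num) (by norm_num) sup13 e13_114))
    (chkL_good (by norm_num) (by norm_num) sup13 e13_115))
    (chkL_good (by norm_num) (by norm_num) sup13 e13_116))
    (chkL_good (by norm_num) (by norm_num) sup13 e13_117))
    (chkL_good (by norm_num) (by norm_num) sup13 e13_118))
    (chkL_good (by norm_num) (by norm_num) sup13 e13_119))
    (chkL_good (by norm_num) (by norm_num) sup13 e13_120))
    (chkL_good (by norm_num) (by norm_num) sup13 e13_121))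
    (chkL_good (by norm_num) (by norm_num) sup13 e13_122))
    (chkL_good (by norm_num) (by norm_num) sup13 e13_123))
    (chkL_good (by norm_num) (by norm_num) sup13 e13_124))
    (chkL_good (by norm_num) (by norm_num) sup13 e13_125))
    (chkL_good (by norm_num) (by norm_num) sup13 e13_126))
    (chkL_good (by norm_num) (by norm_num) sup13 e13_127))

theorem good13_4 : ∀ k < 1280, Good t14 21399 13 (look t13 k) :=
  (chain (chain (chain (chain (chain (chain (chain (chain (chain (chain (chain (chain (chain (chain (chain (chain (chain (chain (chain (chain (chain (chain (chain (chain (chain (chain (chain (chain (chain (chain (chain (chain good13_3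
    (chkL_good (by norm_num) (by norm_num) sup13 e13_128))
    (chkL_good (by norm_num) (by norm_num) sup13 e13_129))
    (chkL_good (by norm_num) (by norm_num) sup13 e13_130))
    (chkL_good (by norm_num) (by norm_num) sup13 e13_131))
    (chkL_good (by norm_num) (by norm_num) sup13 e13_132))
    (chkL_good (by norm_num) (by norm_num) sup13 e13_133))
    (chkL_good (by norm_num) (by norm_num) sup13 e13_134))
    (chkL_good (by norm_num) (by norm_num) sup13 e13_135))
    (chkL_good (by norm_num) (by norm_num) sup13 e13_136))
    (chkL_good (by norm_num) (by norm_num) sup13 e13_137))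
    (chkL_good (by norm_num) (by norm_num) sup13 e13_138))
    (chkL_good (by norm_num) (by norm_num) sup13 e13_139))
    (chkL_good (by norm_num) (by norm_num) sup13 e13_140))
    (chkL_good (by norm_num) (by norm_num) sup13 e13_141))
    (chkL_good (by norm_num) (by norm_num) sup13 e13_142))
    (chkL_good (by norm_num) (by norm_num) sup13 e13_143))
    (chkL_good (by norm_num) (by norm_num) sup13 e13_144))
    (chkL_good (by norm_num) (by norm_num) sup13 e13_145))
    (chkL_good (by norm_num) (by norm_num) sup13 e13_146))
    (chkL_good (by norm_num) (by norm_num) sup13 e13_147))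
    (chkL_good (by norm_num) (by norm_num) sup13 e13_148))
    (chkL_good (by norm_num) (by norm_num) sup13 e13_149))
    (chkL_good (by norm_num) (by norm_num) sup13 e13_150))
    (chkL_good (by norm_num) (by norm_num) sup13 e13_151))
    (chkL_good (by norm_num) (by norm_num) sup13 e13_152))
    (chkL_good (by norm_num) (by norm_num) sup13 e13_153))
    (chkL_good (by norm_num) (by norm_num) sup13 e13_154))
    (chkL_good (by norm_num) (by norm_num) sup13 e13_155))
    (chkL_good (by norm_num) (by norm_num) sup13 e13_156))
    (chkL_good (by norm_num) (by norm_num) sup13 e13_157))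
    (chkL_good (by norm_num) (by norm_num) sup13 e13_158))
    (chkL_good (by norm_num) (by norm_num) sup13 e13_159))

theorem good13_5 : ∀ k < 1536, Good t14 21399 13 (look t13 k) :=
  (chain (chain (chain (chain (chain (chain (chain (chain (chain (chain (chain (chain (chain (chain (chain (chain (chain (chain (chain (chain (chain (chain (chain (chain (chain (chain (chain (chain (chain (chain (chain (chain good13_4
    (chkL_good (by norm_num) (by norm_num) sup13 e13_160))
    (chkL_good (by norm_num) (by norm_num) sup13 e13_161))
    (chkL_good (by norm_num) (by norm_num) sup13 e13_162))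
    (chkL_good (by norm_num) (by norm_num) sup13 e13_163))
    (chkL_good (by norm_num) (by norm_num) sup13 e13_164))
    (chkL_good (by norm_num) (by norm_num) sup13 e13_165))
    (chkL_good (by norm_num) (by norm_num) sup13 e13_166))
    (chkL_good (by norm_num) (by norm_num) sup13 e13_167))
    (chkL_good (by norm_num) (by norm_num) sup13 e13_168))
    (chkL_good (by norm_num) (by norm_num) sup13 e13_169))
    (chkL_good (by norm_num) (by norm_num) sup13 e13_170))
    (chkL_good (by norm_num) (by norm_num) sup13 e13_171))
    (chkL_good (by norm_num) (by norm_num) sup13 e13_172))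
    (chkL_good (by norm_num) (by norm_num) sup13 e13_173))
    (chkL_good (by norm_num) (by norm_num) sup13 e13_174))
    (chkL_good (by norm_num) (by norm_num) sup13 e13_175))
    (chkL_good (by norm_num) (by norm_num) sup13 e13_176))
    (chkL_good (by norm_num) (by norm_num) sup13 e13_177))
    (chkL_good (by norm_num) (by norm_num) sup13 e13_178))
    (chkL_good (by norm_num) (by norm_num) sup13 e13_179))
    (chkL_good (by norm_num) (by norm_num) sup13 e13_180))
    (chkL_good (by norm_num) (by norm_num) sup13 e13_181))
    (chkL_good (by norm_num) (by norm_num) sup13 e13_182))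
    (chkL_good (by norm_num) (by norm_num) sup13 e13_183))
    (chkL_good (by norm_num) (by norm_num) sup13 e13_184))
    (chkL_good (by norm_num) (by norm_num) sup13 e13_185))
    (chkL_good (by norm_num) (by norm_num) sup13 e13_186))
    (chkL_good (by norm_num) (by norm_num) sup13 e13_187))
    (chkL_good (by norm_num) (by norm_num) sup13 e13_188))
    (chkL_good (by norm_num) (by norm_num) sup13 e13_189))
    (chkL_good (by norm_num) (by norm_num) sup13 e13_190))
    (chkL_good (by norm_num) (by norm_num) sup13 e13_191))

theorem good13_6 : ∀ k < 1792, Good t14 21399 13 (look t13 k) :=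
  (chain (chain (chain (chain (chain (chain (chain (chain (chain (chain (chain (chain (chain (chain (chain (chain (chain (chain (chain (chain (chain (chain (chain (chain (chain (chain (chain (chain (chain (chain (chain (chain good13_5
    (chkL_good (by norm_num) (by norm_num) sup13 e13_192))
    (chkL_good (by norm_num) (by norm_num) sup13 e13_193))
    (chkL_good (by norm_num) (by norm_num) sup13 e13_194))
    (chkL_good (by norm_num) (by norm_num) sup13 e13_195))
    (chkL_good (by norm_num) (by norm_num) sup13 e13_196))
    (chkL_good (by norm_num) (by norm_num) sup13 e13_197))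
    (chkL_good (by norm_num) (by norm_num) sup13 e13_198))
    (chkL_good (by norm_num) (by norm_num) sup13 e13_199))
    (chkL_good (by norm_num) (by norm_num) sup13 e13_200))
    (chkL_good (by norm_num) (by norm_num) sup13 e13_201))
    (chkL_good (by norm_num) (by norm_num) sup13 e13_202))
    (chkL_good (by norm_num) (by norm_num) sup13 e13_203))
    (chkL_good (by norm_num) (by norm_num) sup13 e13_204))
    (chkL_good (by norm_num) (by norm_num) sup13 e13_205))
    (chkL_good (by norm_num) (by norm_num) sup13 e13_206))
    (chkL_good (by norm_num) (by norm_num) sup13 e13_207))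
    (chkL_good (by norm_num) (by norm_num) sup13 e13_208))
    (chkL_good (by norm_num) (by norm_num) sup13 e13_209))
    (chkL_good (by norm_num) (by norm_num) sup13 e13_210))
    (chkL_good (by norm_num) (by norm_num) sup13 e13_211))
    (chkL_good (by norm_num) (by norm_num) sup13 e13_212))
    (chkL_good (by norm_num) (by norm_num) sup13 e13_213))
    (chkL_good (by norm_num) (by norm_num) sup13 e13_214))
    (chkL_good (by norm_num) (by norm_num) sup13 e13_215))
    (chkL_good (by norm_num) (by norm_num) sup13 e13_216))
    (chkL_good (by norm_num) (by norm_num) sup13 e13_217))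
    (chkL_good (by norm_num) (by norm_num) sup13 e13_218))
    (chkL_good (by norm_num) (by norm_num) sup13 e13_219))
    (chkL_good (by norm_num) (by norm_num) sup13 e13_220))
    (chkL_good (by norm_num) (by norm_num) sup13 e13_221))
    (chkL_good (by norm_num) (by norm_num) sup13 e13_222))
    (chkL_good (by norm_num) (by norm_num) sup13 e13_223))

theorem good13_7 : ∀ k < 2036, Good t14 21399 13 (look t13 k) :=
  (chain (chain (chain (chain (chain (chain (chain (chain (chain (chain (chain (chain (chain (chain (chain (chain (chain (chain (chain (chain (chain (chain (chain (chain (chain (chain (chain (chain (chain (chain (chain good13_6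
    (chkL_good (by norm_num) (by norm_num) sup13 e13_224))
    (chkL_good (by norm_num) (by norm_num) sup13 e13_225))
    (chkL_good (by norm_num) (by norm_num) sup13 e13_226))
    (chkL_good (by norm_num) (by norm_num) sup13 e13_227))
    (chkL_good (by norm_num) (by norm_num) sup13 e13_228))
    (chkL_good (by norm_num) (by norm_num) sup13 e13_229))
    (chkL_good (by norm_num) (by norm_num) sup13 e13_230))
    (chkL_good (by norm_num) (by norm_num) sup13 e13_231))
    (chkL_good (by norm_num) (by norm_num) sup13 e13_232))
    (chkL_good (by norm_num) (by norm_num) sup13 e13_233))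
    (chkL_good (by norm_num) (by norm_num) sup13 e13_234))
    (chkL_good (by norm_num) (by norm_num) sup13 e13_235))
    (chkL_good (by norm_num) (by norm_num) sup13 e13_236))
    (chkL_good (by norm_num) (by norm_num) sup13 e13_237))
    (chkL_good (by norm_num) (by norm_num) sup13 e13_238))
    (chkL_good (by norm_num) (by norm_num) sup13 e13_239))
    (chkL_good (by norm_num) (by norm_num) sup13 e13_240))
    (chkL_good (by norm_num) (by norm_num) sup13 e13_241))
    (chkL_good (by norm_num) (by norm_num) sup13 e13_242))
    (chkL_good (by norm_num) (by norm_num) sup13 e13_243))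
    (chkL_good (by norm_num) (by norm_num) sup13 e13_244))
    (chkL_good (by norm_num) (by norm_num) sup13 e13_245))
    (chkL_good (by norm_num) (by norm_num) sup13 e13_246))
    (chkL_good (by norm_num) (by norm_num) sup13 e13_247))
    (chkL_good (by norm_num) (by norm_num) sup13 e13_248))
    (chkL_good (by norm_num) (by norm_num) sup13 e13_249))
    (chkL_good (by norm_num) (by norm_num) sup13 e13_250))
    (chkL_good (by norm_num) (by norm_num) sup13 e13_251))
    (chkL_good (by norm_num) (by norm_num) sup13 e13_252))
    (chkL_good (by norm_num) (by norm_num) sup13 e13_253))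
    (chkL_good (by norm_num) (by norm_num) sup13 e13_254))

theorem coord13_0 : ∀ k < 1920, HasCoords 13 (look t13 k) :=
  (chain (chain (chain (chain (chain (chain (chain (chain (chain (chain (chain (chain (chain (chain (chain (chain (chain (chain (chain (chain (chain (chain (chain (chain (chain (chain (chain (chain (chain (chain (chain (chain (fun k hk => absurd hk (Nat.not_lt_zero k))
    (rlzL_sound (by norm_num) (by decide +kernel) r13_0))
    (rlzL_sound (by norm_num) (by decide +kernel) r13_1))
    (rlzL_sound (by norm_num) (by decide +kernel) r13_2))
    (rlzL_sound (by norm_num) (by decide +kernel) r13_3))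
    (rlzL_sound (by norm_num) (by decide +kernel) r13_4))
    (rlzL_sound (by norm_num) (by decide +kernel) r13_5))
    (rlzL_sound (by norm_num) (by decide +kernel) r13_6))
    (rlzL_sound (by norm_num) (by decide +kernel) r13_7))
    (rlzL_sound (by norm_num) (by decide +kernel) r13_8))
    (rlzL_sound (by norm_num) (by decide +kernel) r13_9))
    (rlzL_sound (by norm_num) (by decide +kernel) r13_10))
    (rlzL_sound (by norm_num) (by decide +kernel) r13_11))
    (rlzL_sound (by norm_num) (by decide +kernel) r13_12))
    (rlzL_sound (by norm_num) (by decide +kernel) r13_13))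
    (rlzL_sound (by norm_num) (by decide +kernel) r13_14))
    (rlzL_sound (by norm_num) (by decide +kernel) r13_15))
    (rlzL_sound (by norm_num) (by decide +kernel) r13_16))
    (rlzL_sound (by norm_num) (by decide +kernel) r13_17))
    (rlzL_sound (by norm_num) (by decide +kernel) r13_18))
    (rlzL_sound (by norm_num) (by decide +kernel) r13_19))
    (rlzL_sound (by norm_num) (by decide +kernel) r13_20))
    (rlzL_sound (by norm_num) (by decide +kernel) r13_21))
    (rlzL_sound (by norm_num) (by decide +kernel) r13_22))
    (rlzL_sound (by norm_num) (by decide +kernel) r13_23))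
    (rlzL_sound (by norm_num) (by decide +kernel) r13_24))
    (rlzL_sound (by norm_num) (by decide +kernel) r13_25))
    (rlzL_sound (by norm_num) (by decide +kernel) r13_26))
    (rlzL_sound (by norm_num) (by decide +kernel) r13_27))
    (rlzL_sound (by norm_num) (by decide +kernel) r13_28))
    (rlzL_sound (by norm_num) (by decide +kernel) r13_29))
    (rlzL_sound (by norm_num) (by decide +kernel) r13_30))
    (rlzL_sound (by norm_num) (by decide +kernel) r13_31))

theorem coord13_1 : ∀ k < 2036, HasCoords 13 (look t13 k) :=
  (chain (chain coord13_0
    (rlzL_sound (by norm_num) (by decide +kernel) r13_32))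
    (rlzL_sound (by norm_num) (by decide +kernel) r13_33))

theorem coord14_0 : ∀ k < 1868, (k ≠ 7 → HasCoords 14 (look t14 k)) :=
  (chain (chain (chain (chain (chain (chain (chain (chain (chain (chain (chain (chain (chain (chain (chain (chain (chain (chain (chain (chain (chain (chain (chain (chain (chain (chain (chain (chain (chain (chain (chain (chain (chain (fun k hk => absurd hk (Nat.not_lt_zero k))
    (skip (rlzL_sound (by norm_num) (by decide +kernel) r14_0)))
    skip7)
    (skip (rlzL_sound (by norm_num) (by decide +kernel) r14_1)))
    (skip (rlzL_sound (by norm_num) (by decide +kernel) r14_2)))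
    (skip (rlzL_sound (by norm_num) (by decide +kernel) r14_3)))
    (skip (rlzL_sound (by norm_num) (by decide +kernel) r14_4)))
    (skip (rlzL_sound (by norm_num) (by decide +kernel) r14_5)))
    (skip (rlzL_sound (by norm_num) (by decide +kernel) r14_6)))
    (skip (rlzL_sound (by norm_num) (by decide +kernel) r14_7)))
    (skip (rlzL_sound (by norm_num) (by decide +kernel) r14_8)))
    (skip (rlzL_sound (by norm_num) (by decide +kernel) r14_9)))
    (skip (rlzL_sound (by norm_num) (by decide +kernel) r14_10)))
    (skip (rlzL_sound (by norm_num) (by decide +kernel) r14_11)))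
    (skip (rlzL_sound (by norm_num) (by decide +kernel) r14_12)))
    (skip (rlzL_sound (by norm_num) (by decide +kernel) r14_13)))
    (skip (rlzL_sound (by norm_num) (by decide +kernel) r14_14)))
    (skip (rlzL_sound (by norm_num) (by decide +kernel) r14_15)))
    (skip (rlzL_sound (by norm_num) (by decide +kernel) r14_16)))
    (skip (rlzL_sound (by norm_num) (by decide +kernel) r14_17)))
    (skip (rlzL_sound (by norm_num) (by decide +kernel) r14_18)))
    (skip (rlzL_sound (by norm_num) (by decide +kernel) r14_19)))
    (skip (rlzL_sound (by norm_num) (by decide +kernel) r14_20)))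
    (skip (rlzL_sound (by norm_num) (by decide +kernel) r14_21)))
    (skip (rlzL_sound (by norm_num) (by decide +kernel) r14_22)))
    (skip (rlzL_sound (by norm_num) (by decide +kernel) r14_23)))
    (skip (rlzL_sound (by norm_num) (by decide +kernel) r14_24)))
    (skip (rlzL_sound (by norm_num) (by decide +kernel) r14_25)))
    (skip (rlzL_sound (by norm_num) (by decide +kernel) r14_26)))
    (skip (rlzL_sound (by norm_num) (by decide +kernel) r14_27)))
    (skip (rlzL_sound (by norm_num) (by decide +kernel) r14_28)))
    (skip (rlzL_sound (by norm_num) (by decide +kernel) r14_29)))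
    (skip (rlzL_sound (by norm_num) (by decide +kernel) r14_30)))
    (skip (rlzL_sound (by norm_num) (by decide +kernel) r14_31)))

theorem coord14_1 : ∀ k < 3788, (k ≠ 7 → HasCoords 14 (look t14 k)) :=
  (chain (chain (chain (chain (chain (chain (chain (chain (chain (chain (chain (chain (chain (chain (chain (chain (chain (chain (chain (chain (chain (chain (chain (chain (chain (chain (chain (chain (chain (chain (chain (chain coord14_0
    (skip (rlzL_sound (by norm_num) (by decide +kernel) r14_32)))
    (skip (rlzL_sound (by norm_num) (by decide +kernel) r14_33)))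
    (skip (rlzL_sound (by norm_num) (by decide +kernel) r14_34)))
    (skip (rlzL_sound (by norm_num) (by decide +kernel) r14_35)))
    (skip (rlzL_sound (by norm_num) (by decide +kernel) r14_36)))
    (skip (rlzL_sound (by norm_num) (by decide +kernel) r14_37)))
    (skip (rlzL_sound (by norm_num) (by decide +kernel) r14_38)))
    (skip (rlzL_sound (by norm_num) (by decide +kernel) r14_39)))
    (skip (rlzL_sound (by norm_num) (by decide +kernel) r14_40)))
    (skip (rlzL_sound (by norm_num) (by decide +kernel) r14_41)))
    (skip (rlzL_sound (by norm_num) (by decide +kernel) r14_42)))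
    (skip (rlzL_sound (by norm_num) (by decide +kernel) r14_43)))
    (skip (rlzL_sound (by norm_num) (by decide +kernel) r14_44)))
    (skip (rlzL_sound (by norm_num) (by decide +kernel) r14_45)))
    (skip (rlzL_sound (by norm_num) (by decide +kernel) r14_46)))
    (skip (rlzL_sound (by norm_num) (by decide +kernel) r14_47)))
    (skip (rlzL_sound (by norm_num) (by decide +kernel) r14_48)))
    (skip (rlzL_sound (by norm_num) (by decide +kernel) r14_49)))
    (skip (rlzL_sound (by norm_num) (by decide +kernel) r14_50)))
    (skip (rlzL_sound (by norm_num) (by decide +kernel) r14_51)))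
    (skip (rlzL_sound (by norm_num) (by decide +kernel) r14_52)))
    (skip (rlzL_sound (by norm_num) (by decide +kernel) r14_53)))
    (skip (rlzL_sound (by norm_num) (by decide +kernel) r14_54)))
    (skip (rlzL_sound (by norm_num) (by decide +kernel) r14_55)))
    (skip (rlzL_sound (by norm_num) (by decide +kernel) r14_56)))
    (skip (rlzL_sound (by norm_num) (by decide +kernel) r14_57)))
    (skip (rlzL_sound (by norm_num) (by decide +kernel) r14_58)))
    (skip (rlzL_sound (by norm_num) (by decide +kernel) r14_59)))
    (skip (rlzL_sound (by norm_num) (by decide +kernel) r14_60)))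
    (skip (rlzL_sound (by norm_num) (by decide +kernel) r14_61)))
    (skip (rlzL_sound (by norm_num) (by decide +kernel) r14_62)))
    (skip (rlzL_sound (by norm_num) (by decide +kernel) r14_63)))

theorem coord14_2 : ∀ k < 5708, (k ≠ 7 → HasCoords 14 (look t14 k)) :=
  (chain (chain (chain (chain (chain (chain (chain (chain (chain (chain (chain (chain (chain (chain (chain (chain (chain (chain (chain (chain (chain (chain (chain (chain (chain (chain (chain (chain (chain (chain (chain (chain coord14_1
    (skip (rlzL_sound (by norm_num) (by decide +kernel) r14_64)))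
    (skip (rlzL_sound (by norm_num) (by decide +kernel) r14_65)))
    (skip (rlzL_sound (by norm_num) (by decide +kernel) r14_66)))
    (skip (rlzL_sound (by norm_num) (by decide +kernel) r14_67)))
    (skip (rlzL_sound (by norm_num) (by decide +kernel) r14_68)))
    (skip (rlzL_sound (by norm_num) (by decide +kernel) r14_69)))
    (skip (rlzL_sound (by norm_num) (by decide +kernel) r14_70)))
    (skip (rlzL_sound (by norm_num) (by decide +kernel) r14_71)))
    (skip (rlzL_sound (by norm_num) (by decide +kernel) r14_72)))
    (skip (rlzL_sound (by norm_num) (by decide +kernel) r14_73)))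
    (skip (rlzL_sound (by norm_num) (by decide +kernel) r14_74)))
    (skip (rlzL_sound (by norm_num) (by decide +kernel) r14_75)))
    (skip (rlzL_sound (by norm_num) (by decide +kernel) r14_76)))
    (skip (rlzL_sound (by norm_num) (by decide +kernel) r14_77)))
    (skip (rlzL_sound (by norm_num) (by decide +kernel) r14_78)))
    (skip (rlzL_sound (by norm_num) (by decide +kernel) r14_79)))
    (skip (rlzL_sound (by norm_num) (by decide +kernel) r14_80)))
    (skip (rlzL_sound (by norm_num) (by decide +kernel) r14_81)))
    (skip (rlzL_sound (by norm_num) (by decide +kernel) r14_82)))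
    (skip (rlzL_sound (by norm_num) (by decide +kernel) r14_83)))
    (skip (rlzL_sound (by norm_num) (by decide +kernel) r14_84)))
    (skip (rlzL_sound (by norm_num) (by decide +kernel) r14_85)))
    (skip (rlzL_sound (by norm_num) (by decide +kernel) r14_86)))
    (skip (rlzL_sound (by norm_num) (by decide +kernel) r14_87)))
    (skip (rlzL_sound (by norm_num) (by decide +kernel) r14_88)))
    (skip (rlzL_sound (by norm_num) (by decide +kernel) r14_89)))
    (skip (rlzL_sound (by norm_num) (by decide +kernel) r14_90)))
    (skip (rlzL_sound (by norm_num) (by decide +kernel) r14_91)))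
    (skip (rlzL_sound (by norm_num) (by decide +kernel) r14_92)))
    (skip (rlzL_sound (by norm_num) (by decide +kernel) r14_93)))
    (skip (rlzL_sound (by norm_num) (by decide +kernel) r14_94)))
    (skip (rlzL_sound (by norm_num) (by decide +kernel) r14_95)))

theorem coord14_3 : ∀ k < 7628, (k ≠ 7 → HasCoords 14 (look t14 k)) :=
  (chain (chain (chain (chain (chain (chain (chain (chain (chain (chain (chain (chain (chain (chain (chain (chain (chain (chain (chain (chain (chain (chain (chain (chain (chain (chain (chain (chain (chain (chain (chain (chain coord14_2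
    (skip (rlzL_sound (by norm_num) (by decide +kernel) r14_96)))
    (skip (rlzL_sound (by norm_num) (by decide +kernel) r14_97)))
    (skip (rlzL_sound (by norm_num) (by decide +kernel) r14_98)))
    (skip (rlzL_sound (by norm_num) (by decide +kernel) r14_99)))
    (skip (rlzL_sound (by norm_num) (by decide +kernel) r14_100)))
    (skip (rlzL_sound (by norm_num) (by decide +kernel) r14_101)))
    (skip (rlzL_sound (by norm_num) (by decide +kernel) r14_102)))
    (skip (rlzL_sound (by norm_num) (by decide +kernel) r14_103)))
    (skip (rlzL_sound (by norm_num) (by decide +kernel) r14_104)))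
    (skip (rlzL_sound (by norm_num) (by decide +kernel) r14_105)))
    (skip (rlzL_sound (by norm_num) (by decide +kernel) r14_106)))
    (skip (rlzL_sound (by norm_num) (by decide +kernel) r14_107)))
    (skip (rlzL_sound (by norm_num) (by decide +kernel) r14_108)))
    (skip (rlzL_sound (by norm_num) (by decide +kernel) r14_109)))
    (skip (rlzL_sound (by norm_num) (by decide +kernel) r14_110)))
    (skip (rlzL_sound (by norm_num) (by decide +kernel) r14_111)))
    (skip (rlzL_sound (by norm_num) (by decide +kernel) r14_112)))
    (skip (rlzL_sound (by norm_num) (by decide +kernel) r14_113)))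
    (skip (rlzL_sound (by norm_num) (by decide +kernel) r14_114)))
    (skip (rlzL_sound (by norm_num) (by decide +kernel) r14_115)))
    (skip (rlzL_sound (by norm_num) (by decide +kernel) r14_116)))
    (skip (rlzL_sound (by norm_num) (by decide +kernel) r14_117)))
    (skip (rlzL_sound (by norm_num) (by decide +kernel) r14_118)))
    (skip (rlzL_sound (by norm_num) (by decide +kernel) r14_119)))
    (skip (rlzL_sound (by norm_num) (by decide +kernel) r14_120)))
    (skip (rlzL_sound (by norm_num) (by decide +kernel) r14_121)))
    (skip (rlzL_sound (by norm_num) (by decide +kernel) r14_122)))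
    (skip (rlzL_sound (by norm_num) (by decide +kernel) r14_123)))
    (skip (rlzL_sound (by norm_num) (by decide +kernel) r14_124)))
    (skip (rlzL_sound (by norm_num) (by decide +kernel) r14_125)))
    (skip (rlzL_sound (by norm_num) (by decide +kernel) r14_126)))
    (skip (rlzL_sound (by norm_num) (by decide +kernel) r14_127)))

theorem coord14_4 : ∀ k < 9548, (k ≠ 7 → HasCoords 14 (look t14 k)) :=
  (chain (chain (chain (chain (chain (chain (chain (chain (chain (chain (chain (chain (chain (chain (chain (chain (chain (chain (chain (chain (chain (chain (chain (chain (chain (chain (chain (chain (chain (chain (chain (chain coord14_3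
    (skip (rlzL_sound (by norm_num) (by decide +kernel) r14_128)))
    (skip (rlzL_sound (by norm_num) (by decide +kernel) r14_129)))
    (skip (rlzL_sound (by norm_num) (by decide +kernel) r14_130)))
    (skip (rlzL_sound (by norm_num) (by decide +kernel) r14_131)))
    (skip (rlzL_sound (by norm_num) (by decide +kernel) r14_132)))
    (skip (rlzL_sound (by norm_num) (by decide +kernel) r14_133)))
    (skip (rlzL_sound (by norm_num) (by decide +kernel) r14_134)))
    (skip (rlzL_sound (by norm_num) (by decide +kernel) r14_135)))
    (skip (rlzL_sound (by norm_num) (by decide +kernel) r14_136)))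
    (skip (rlzL_sound (by norm_num) (by decide +kernel) r14_137)))
    (skip (rlzL_sound (by norm_num) (by decide +kernel) r14_138)))
    (skip (rlzL_sound (by norm_num) (by decide +kernel) r14_139)))
    (skip (rlzL_sound (by norm_num) (by decide +kernel) r14_140)))
    (skip (rlzL_sound (by norm_num) (by decide +kernel) r14_141)))
    (skip (rlzL_sound (by norm_num) (by decide +kernel) r14_142)))
    (skip (rlzL_sound (by norm_num) (by decide +kernel) r14_143)))
    (skip (rlzL_sound (by norm_num) (by decide +kernel) r14_144)))
    (skip (rlzL_sound (by norm_num) (by decide +kernel) r14_145)))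
    (skip (rlzL_sound (by norm_num) (by decide +kernel) r14_146)))
    (skip (rlzL_sound (by norm_num) (by decide +kernel) r14_147)))
    (skip (rlzL_sound (by norm_num) (by decide +kernel) r14_148)))
    (skip (rlzL_sound (by norm_num) (by decide +kernel) r14_149)))
    (skip (rlzL_sound (by norm_num) (by decide +kernel) r14_150)))
    (skip (rlzL_sound (by norm_num) (by decide +kernel) r14_151)))
    (skip (rlzL_sound (by norm_num) (by decide +kernel) r14_152)))
    (skip (rlzL_sound (by norm_num) (by decide +kernel) r14_153)))
    (skip (rlzL_sound (by norm_num) (by decide +kernel) r14_154)))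
    (skip (rlzL_sound (by norm_num) (by decide +kernel) r14_155)))
    (skip (rlzL_sound (by norm_num) (by decide +kernel) r14_156)))
    (skip (rlzL_sound (by norm_num) (by decide +kernel) r14_157)))
    (skip (rlzL_sound (by norm_num) (by decide +kernel) r14_158)))
    (skip (rlzL_sound (by norm_num) (by decide +kernel) r14_159)))

theorem coord14_5 : ∀ k < 11468, (k ≠ 7 → HasCoords 14 (look t14 k)) :=
  (chain (chain (chain (chain (chain (chain (chain (chain (chain (chain (chain (chain (chain (chain (chain (chain (chain (chain (chain (chain (chain (chain (chain (chain (chain (chain (chain (chain (chain (chain (chain (chain coord14_4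
    (skip (rlzL_sound (by norm_num) (by decide +kernel) r14_160)))
    (skip (rlzL_sound (by norm_num) (by decide +kernel) r14_161)))
    (skip (rlzL_sound (by norm_num) (by decide +kernel) r14_162)))
    (skip (rlzL_sound (by norm_num) (by decide +kernel) r14_163)))
    (skip (rlzL_sound (by norm_num) (by decide +kernel) r14_164)))
    (skip (rlzL_sound (by norm_num) (by decide +kernel) r14_165)))
    (skip (rlzL_sound (by norm_num) (by decide +kernel) r14_166)))
    (skip (rlzL_sound (by norm_num) (by decide +kernel) r14_167)))
    (skip (rlzL_sound (by norm_num) (by decide +kernel) r14_168)))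
    (skip (rlzL_sound (by norm_num) (by decide +kernel) r14_169)))
    (skip (rlzL_sound (by norm_num) (by decide +kernel) r14_170)))
    (skip (rlzL_sound (by norm_num) (by decide +kernel) r14_171)))
    (skip (rlzL_sound (by norm_num) (by decide +kernel) r14_172)))
    (skip (rlzL_sound (by norm_num) (by decide +kernel) r14_173)))
    (skip (rlzL_sound (by norm_num) (by decide +kernel) r14_174)))
    (skip (rlzL_sound (by norm_num) (by decide +kernel) r14_175)))
    (skip (rlzL_sound (by norm_num) (by decide +kernel) r14_176)))
    (skip (rlzL_sound (by norm_num) (by decide +kernel) r14_177)))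
    (skip (rlzL_sound (by norm_num) (by decide +kernel) r14_178)))
    (skip (rlzL_sound (by norm_num) (by decide +kernel) r14_179)))
    (skip (rlzL_sound (by norm_num) (by decide +kernel) r14_180)))
    (skip (rlzL_sound (by norm_num) (by decide +kernel) r14_181)))
    (skip (rlzL_sound (by norm_num) (by decide +kernel) r14_182)))
    (skip (rlzL_sound (by norm_num) (by decide +kernel) r14_183)))
    (skip (rlzL_sound (by norm_num) (by decide +kernel) r14_184)))
    (skip (rlzL_sound (by norm_num) (by decide +kernel) r14_185)))
    (skip (rlzL_sound (by norm_num) (by decide +kernel) r14_186)))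
    (skip (rlzL_sound (by norm_num) (by decide +kernel) r14_187)))
    (skip (rlzL_sound (by norm_num) (by decide +kernel) r14_188)))
    (skip (rlzL_sound (by norm_num) (by decide +kernel) r14_189)))
    (skip (rlzL_sound (by norm_num) (by decide +kernel) r14_190)))
    (skip (rlzL_sound (by norm_num) (by decide +kernel) r14_191)))

theorem coord14_6 : ∀ k < 13388, (k ≠ 7 → HasCoords 14 (look t14 k)) :=
  (chain (chain (chain (chain (chain (chain (chain (chain (chain (chain (chain (chain (chain (chain (chain (chain (chain (chain (chain (chain (chain (chain (chain (chain (chain (chain (chain (chain (chain (chain (chain (chain coord14_5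
    (skip (rlzL_sound (by norm_num) (by decide +kernel) r14_192)))
    (skip (rlzL_sound (by norm_num) (by decide +kernel) r14_193)))
    (skip (rlzL_sound (by norm_num) (by decide +kernel) r14_194)))
    (skip (rlzL_sound (by norm_num) (by decide +kernel) r14_195)))
    (skip (rlzL_sound (by norm_num) (by decide +kernel) r14_196)))
    (skip (rlzL_sound (by norm_num) (by decide +kernel) r14_197)))
    (skip (rlzL_sound (by norm_num) (by decide +kernel) r14_198)))
    (skip (rlzL_sound (by norm_num) (by decide +kernel) r14_199)))
    (skip (rlzL_sound (by norm_num) (by decide +kernel) r14_200)))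
    (skip (rlzL_sound (by norm_num) (by decide +kernel) r14_201)))
    (skip (rlzL_sound (by norm_num) (by decide +kernel) r14_202)))
    (skip (rlzL_sound (by norm_num) (by decide +kernel) r14_203)))
    (skip (rlzL_sound (by norm_num) (by decide +kernel) r14_204)))
    (skip (rlzL_sound (by norm_num) (by decide +kernel) r14_205)))
    (skip (rlzL_sound (by norm_num) (by decide +kernel) r14_206)))
    (skip (rlzL_sound (by norm_num) (by decide +kernel) r14_207)))
    (skip (rlzL_sound (by norm_num) (by decide +kernel) r14_208)))
    (skip (rlzL_sound (by norm_num) (by decide +kernel) r14_209)))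
    (skip (rlzL_sound (by norm_num) (by decide +kernel) r14_210)))
    (skip (rlzL_sound (by norm_num) (by decide +kernel) r14_211)))
    (skip (rlzL_sound (by norm_num) (by decide +kernel) r14_212)))
    (skip (rlzL_sound (by norm_num) (by decide +kernel) r14_213)))
    (skip (rlzL_sound (by norm_num) (by decide +kernel) r14_214)))
    (skip (rlzL_sound (by norm_num) (by decide +kernel) r14_215)))
    (skip (rlzL_sound (by norm_num) (by decide +kernel) r14_216)))
    (skip (rlzL_sound (by norm_num) (by decide +kernel) r14_217)))
    (skip (rlzL_sound (by norm_num) (by decide +kernel) r14_218)))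
    (skip (rlzL_sound (by norm_num) (by decide +kernel) r14_219)))
    (skip (rlzL_sound (by norm_num) (by decide +kernel) r14_220)))
    (skip (rlzL_sound (by norm_num) (by decide +kernel) r14_221)))
    (skip (rlzL_sound (by norm_num) (by decide +kernel) r14_222)))
    (skip (rlzL_sound (by norm_num) (by decide +kernel) r14_223)))

theorem coord14_7 : ∀ k < 15308, (k ≠ 7 → HasCoords 14 (look t14 k)) :=
  (chain (chain (chain (chain (chain (chain (chain (chain (chain (chain (chain (chain (chain (chain (chain (chain (chain (chain (chain (chain (chain (chain (chain (chain (chain (chain (chain (chain (chain (chain (chain (chain coord14_6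
    (skip (rlzL_sound (by norm_num) (by decide +kernel) r14_224)))
    (skip (rlzL_sound (by norm_num) (by decide +kernel) r14_225)))
    (skip (rlzL_sound (by norm_num) (by decide +kernel) r14_226)))
    (skip (rlzL_sound (by norm_num) (by decide +kernel) r14_227)))
    (skip (rlzL_sound (by norm_num) (by decide +kernel) r14_228)))
    (skip (rlzL_sound (by norm_num) (by decide +kernel) r14_229)))
    (skip (rlzL_sound (by norm_num) (by decide +kernel) r14_230)))
    (skip (rlzL_sound (by norm_num) (by decide +kernel) r14_231)))
    (skip (rlzL_sound (by norm_num) (by decide +kernel) r14_232)))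
    (skip (rlzL_sound (by norm_num) (by decide +kernel) r14_233)))
    (skip (rlzL_sound (by norm_num) (by decide +kernel) r14_234)))
    (skip (rlzL_sound (by norm_num) (by decide +kernel) r14_235)))
    (skip (rlzL_sound (by norm_num) (by decide +kernel) r14_236)))
    (skip (rlzL_sound (by norm_num) (by decide +kernel) r14_237)))
    (skip (rlzL_sound (by norm_num) (by decide +kernel) r14_238)))
    (skip (rlzL_sound (by norm_num) (by decide +kernel) r14_239)))
    (skip (rlzL_sound (by norm_num) (by decide +kernel) r14_240)))
    (skip (rlzL_sound (by norm_num) (by decide +kernel) r14_241)))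
    (skip (rlzL_sound (by norm_num) (by decide +kernel) r14_242)))
    (skip (rlzL_sound (by norm_num) (by decide +kernel) r14_243)))
    (skip (rlzL_sound (by norm_num) (by decide +kernel) r14_244)))
    (skip (rlzL_sound (by norm_num) (by decide +kernel) r14_245)))
    (skip (rlzL_sound (by norm_num) (by decide +kernel) r14_246)))
    (skip (rlzL_sound (by norm_num) (by decide +kernel) r14_247)))
    (skip (rlzL_sound (by norm_num) (by decide +kernel) r14_248)))
    (skip (rlzL_sound (by norm_num) (by decide +kernel) r14_249)))
    (skip (rlzL_sound (by norm_num) (by decide +kernel) r14_250)))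
    (skip (rlzL_sound (by norm_num) (by decide +kernel) r14_251)))
    (skip (rlzL_sound (by norm_num) (by decide +kernel) r14_252)))
    (skip (rlzL_sound (by norm_num) (by decide +kernel) r14_253)))
    (skip (rlzL_sound (by norm_num) (by decide +kernel) r14_254)))
    (skip (rlzL_sound (by norm_num) (by decide +kernel) r14_255)))

theorem coord14_8 : ∀ k < 17228, (k ≠ 7 → HasCoords 14 (look t14 k)) :=
  (chain (chain (chain (chain (chain (chain (chain (chain (chain (chain (chain (chain (chain (chain (chain (chain (chain (chain (chain (chain (chain (chain (chain (chain (chain (chain (chain (chain (chain (chain (chain (chain coord14_7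
    (skip (rlzL_sound (by norm_num) (by decide +kernel) r14_256)))
    (skip (rlzL_sound (by norm_num) (by decide +kernel) r14_257)))
    (skip (rlzL_sound (by norm_num) (by decide +kernel) r14_258)))
    (skip (rlzL_sound (by norm_num) (by decide +kernel) r14_259)))
    (skip (rlzL_sound (by norm_num) (by decide +kernel) r14_260)))
    (skip (rlzL_sound (by norm_num) (by decide +kernel) r14_261)))
    (skip (rlzL_sound (by norm_num) (by decide +kernel) r14_262)))
    (skip (rlzL_sound (by norm_num) (by decide +kernel) r14_263)))
    (skip (rlzL_sound (by norm_num) (by decide +kernel) r14_264)))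
    (skip (rlzL_sound (by norm_num) (by decide +kernel) r14_265)))
    (skip (rlzL_sound (by norm_num) (by decide +kernel) r14_266)))
    (skip (rlzL_sound (by norm_num) (by decide +kernel) r14_267)))
    (skip (rlzL_sound (by norm_num) (by decide +kernel) r14_268)))
    (skip (rlzL_sound (by norm_num) (by decide +kernel) r14_269)))
    (skip (rlzL_sound (by norm_num) (by decide +kernel) r14_270)))
    (skip (rlzL_sound (by norm_num) (by decide +kernel) r14_271)))
    (skip (rlzL_sound (by norm_num) (by decide +kernel) r14_272)))
    (skip (rlzL_sound (by norm_num) (by decide +kernel) r14_273)))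
    (skip (rlzL_sound (by norm_num) (by decide +kernel) r14_274)))
    (skip (rlzL_sound (by norm_num) (by decide +kernel) r14_275)))
    (skip (rlzL_sound (by norm_num) (by decide +kernel) r14_276)))
    (skip (rlzL_sound (by norm_num) (by decide +kernel) r14_277)))
    (skip (rlzL_sound (by norm_num) (by decide +kernel) r14_278)))
    (skip (rlzL_sound (by norm_num) (by decide +kernel) r14_279)))
    (skip (rlzL_sound (by norm_num) (by decide +kernel) r14_280)))
    (skip (rlzL_sound (by norm_num) (by decide +kernel) r14_281)))
    (skip (rlzL_sound (by norm_num) (by decide +kernel) r14_282)))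
    (skip (rlzL_sound (by norm_num) (by decide +kernel) r14_283)))
    (skip (rlzL_sound (by norm_num) (by decide +kernel) r14_284)))
    (skip (rlzL_sound (by norm_num) (by decide +kernel) r14_285)))
    (skip (rlzL_sound (by norm_num) (by decide +kernel) r14_286)))
    (skip (rlzL_sound (by norm_num) (by decide +kernel) r14_287)))

theorem coord14_9 : ∀ k < 19148, (k ≠ 7 → HasCoords 14 (look t14 k)) :=
  (chain (chain (chain (chain (chain (chain (chain (chain (chain (chain (chain (chain (chain (chain (chain (chain (chain (chain (chain (chain (chain (chain (chain (chain (chain (chain (chain (chain (chain (chain (chain (chain coord14_8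
    (skip (rlzL_sound (by norm_num) (by decide +kernel) r14_288)))
    (skip (rlzL_sound (by norm_num) (by decide +kernel) r14_289)))
    (skip (rlzL_sound (by norm_num) (by decide +kernel) r14_290)))
    (skip (rlzL_sound (by norm_num) (by decide +kernel) r14_291)))
    (skip (rlzL_sound (by norm_num) (by decide +kernel) r14_292)))
    (skip (rlzL_sound (by norm_num) (by decide +kernel) r14_293)))
    (skip (rlzL_sound (by norm_num) (by decide +kernel) r14_294)))
    (skip (rlzL_sound (by norm_num) (by decide +kernel) r14_295)))
    (skip (rlzL_sound (by norm_num) (by decide +kernel) r14_296)))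
    (skip (rlzL_sound (by norm_num) (by decide +kernel) r14_297)))
    (skip (rlzL_sound (by norm_num) (by decide +kernel) r14_298)))
    (skip (rlzL_sound (by norm_num) (by decide +kernel) r14_299)))
    (skip (rlzL_sound (by norm_num) (by decide +kernel) r14_300)))
    (skip (rlzL_sound (by norm_num) (by decide +kernel) r14_301)))
    (skip (rlzL_sound (by norm_num) (by decide +kernel) r14_302)))
    (skip (rlzL_sound (by norm_num) (by decide +kernel) r14_303)))
    (skip (rlzL_sound (by norm_num) (by decide +kernel) r14_304)))
    (skip (rlzL_sound (by norm_num) (by decide +kernel) r14_305)))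
    (skip (rlzL_sound (by norm_num) (by decide +kernel) r14_306)))
    (skip (rlzL_sound (by norm_num) (by decide +kernel) r14_307)))
    (skip (rlzL_sound (by norm_num) (by decide +kernel) r14_308)))
    (skip (rlzL_sound (by norm_num) (by decide +kernel) r14_309)))
    (skip (rlzL_sound (by norm_num) (by decide +kernel) r14_310)))
    (skip (rlzL_sound (by norm_num) (by decide +kernel) r14_311)))
    (skip (rlzL_sound (by norm_num) (by decide +kernel) r14_312)))
    (skip (rlzL_sound (by norm_num) (by decide +kernel) r14_313)))
    (skip (rlzL_sound (by norm_num) (by decide +kernel) r14_314)))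
    (skip (rlzL_sound (by norm_num) (by decide +kernel) r14_315)))
    (skip (rlzL_sound (by norm_num) (by decide +kernel) r14_316)))
    (skip (rlzL_sound (by norm_num) (by decide +kernel) r14_317)))
    (skip (rlzL_sound (by norm_num) (by decide +kernel) r14_318)))
    (skip (rlzL_sound (by norm_num) (by decide +kernel) r14_319)))

theorem coord14_10 : ∀ k < 21068, (k ≠ 7 → HasCoords 14 (look t14 k)) :=
  (chain (chain (chain (chain (chain (chain (chain (chain (chain (chain (chain (chain (chain (chain (chain (chain (chain (chain (chain (chain (chain (chain (chain (chain (chain (chain (chain (chain (chain (chain (chain (chain coord14_9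
    (skip (rlzL_sound (by norm_num) (by decide +kernel) r14_320)))
    (skip (rlzL_sound (by norm_num) (by decide +kernel) r14_321)))
    (skip (rlzL_sound (by norm_num) (by decide +kernel) r14_322)))
    (skip (rlzL_sound (by norm_num) (by decide +kernel) r14_323)))
    (skip (rlzL_sound (by norm_num) (by decide +kernel) r14_324)))
    (skip (rlzL_sound (by norm_num) (by decide +kernel) r14_325)))
    (skip (rlzL_sound (by norm_num) (by decide +kernel) r14_326)))
    (skip (rlzL_sound (by norm_num) (by decide +kernel) r14_327)))
    (skip (rlzL_sound (by norm_num) (by decide +kernel) r14_328)))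
    (skip (rlzL_sound (by norm_num) (by decide +kernel) r14_329)))
    (skip (rlzL_sound (by norm_num) (by decide +kernel) r14_330)))
    (skip (rlzL_sound (by norm_num) (by decide +kernel) r14_331)))
    (skip (rlzL_sound (by norm_num) (by decide +kernel) r14_332)))
    (skip (rlzL_sound (by norm_num) (by decide +kernel) r14_333)))
    (skip (rlzL_sound (by norm_num) (by decide +kernel) r14_334)))
    (skip (rlzL_sound (by norm_num) (by decide +kernel) r14_335)))
    (skip (rlzL_sound (by norm_num) (by decide +kernel) r14_336)))
    (skip (rlzL_sound (by norm_num) (by decide +kernel) r14_337)))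
    (skip (rlzL_sound (by norm_num) (by decide +kernel) r14_338)))
    (skip (rlzL_sound (by norm_num) (by decide +kernel) r14_339)))
    (skip (rlzL_sound (by norm_num) (by decide +kernel) r14_340)))
    (skip (rlzL_sound (by norm_num) (by decide +kernel) r14_341)))
    (skip (rlzL_sound (by norm_num) (by decide +kernel) r14_342)))
    (skip (rlzL_sound (by norm_num) (by decide +kernel) r14_343)))
    (skip (rlzL_sound (by norm_num) (by decide +kernel) r14_344)))
    (skip (rlzL_sound (by norm_num) (by decide +kernel) r14_345)))
    (skip (rlzL_sound (by norm_num) (by decide +kernel) r14_346)))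
    (skip (rlzL_sound (by norm_num) (by decide +kernel) r14_347)))
    (skip (rlzL_sound (by norm_num) (by decide +kernel) r14_348)))
    (skip (rlzL_sound (by norm_num) (by decide +kernel) r14_349)))
    (skip (rlzL_sound (by norm_num) (by decide +kernel) r14_350)))
    (skip (rlzL_sound (by norm_num) (by decide +kernel) r14_351)))

theorem coord14_11 : ∀ k < 21399, (k ≠ 7 → HasCoords 14 (look t14 k)) :=
  (chain (chain (chain (chain (chain (chain coord14_10
    (skip (rlzL_sound (by norm_num) (by decide +kernel) r14_352)))
    (skip (rlzL_sound (by norm_num) (by decide +kernel) r14_353)))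
    (skip (rlzL_sound (by norm_num) (by decide +kernel) r14_354)))
    (skip (rlzL_sound (by norm_num) (by decide +kernel) r14_355)))
    (skip (rlzL_sound (by norm_num) (by decide +kernel) r14_356)))
    (skip (rlzL_sound (by norm_num) (by decide +kernel) r14_357)))

theorem dag_0 : ∀ k < 1920, ∃ C, stCheck tab num tD 3393 k C = true :=
  (chain (chain (chain (chain (chain (chain (chain (chain (chain (chain (chain (chain (chain (chain (chain (chain (chain (chain (chain (chain (chain (chain (chain (chain (chain (chain (chain (chain (chain (chain (chain (chain (fun k hk => absurd hk (Nat.not_lt_zero k))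
    (stL_sound d_0))
    (stL_sound d_1))
    (stL_sound d_2))
    (stL_sound d_3))
    (stL_sound d_4))
    (stL_sound d_5))
    (stL_sound d_6))
    (stL_sound d_7))
    (stL_sound d_8))
    (stL_sound d_9))
    (stL_sound d_10))
    (stL_sound d_11))
    (stL_sound d_12))
    (stL_sound d_13))
    (stL_sound d_14))
    (stL_sound d_15))
    (stL_sound d_16))
    (stL_sound d_17))
    (stL_sound d_18))
    (stL_sound d_19))
    (stL_sound d_20))
    (stL_sound d_21))
    (stL_sound d_22))
    (stL_sound d_23))
    (stL_sound d_24))
    (stL_sound d_25))
    (stL_sound d_26))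
    (stL_sound d_27))
    (stL_sound d_28))
    (stL_sound d_29))
    (stL_sound d_30))
    (stL_sound d_31))

theorem dag_1 : ∀ k < 3393, ∃ C, stCheck tab num tD 3393 k C = true :=
  (chain (chain (chain (chain (chain (chain (chain (chain (chain (chain (chain (chain (chain (chain (chain (chain (chain (chain (chain (chain (chain (chain (chain (chain (chain dag_0
    (stL_sound d_32))
    (stL_sound d_33))
    (stL_sound d_34))
    (stL_sound d_35))
    (stL_sound d_36))
    (stL_sound d_37))
    (stL_sound d_38))
    (stL_sound d_39))
    (stL_sound d_40))
    (stL_sound d_41))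
    (stL_sound d_42))
    (stL_sound d_43))
    (stL_sound d_44))
    (stL_sound d_45))
    (stL_sound d_46))
    (stL_sound d_47))
    (stL_sound d_48))
    (stL_sound d_49))
    (stL_sound d_50))
    (stL_sound d_51))
    (stL_sound d_52))
    (stL_sound d_53))
    (stL_sound d_54))
    (stL_sound d_55))
    (stL_sound d_56))

theorem all_supp : ∀ n, 7 ≤ n → n ≤ 14 → ∀ j < num n, Supp n (look (tab n) j) := by
  intro n h1 h2 j _
  interval_cases n
  · exact sup7 j
  · exact sup8 j
  · exact sup9 j
  · exact sup10 j
  · exact sup11 j
  · exact sup12 j
  · exact sup13 j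
  · exact sup14 j

theorem all_good : ∀ n, 7 ≤ n → n ≤ 13 → ∀ j < num n,
    Good (tab (n + 1)) (num (n + 1)) n (look (tab n) j) := by
  intro n h1 h2 j hj
  interval_cases n
  · exact good7_0 j hj
  · exact good8_0 j hj
  · exact good9_0 j hj
  · exact good10_0 j hj
  · exact good11_0 j hj
  · exact good12_0 j hj
  · exact good13_7 j hj

theorem all_found : ∀ n ≤ 14, 0 < n → ∀ I : Fin n → Fin n → Prop, Conf3 I → Goal tab num I :=
  all_mod all_supp all_good (fun n hn hn1 I hI hno =>
    dag_sound (N := 3393) (by norm_num) (Nat.eq_of_beq_eq_true d_root) dag_1 all_supp hn hn1 hI hno)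

theorem coords13 : ∀ k < 2036, HasCoords 13 (look t13 k) := coord13_1

theorem coords14 : ∀ k < 21399, k ≠ 7 → HasCoords 14 (look t14 k) := coord14_11

end Pool.Agent.Cfg3
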