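import Pool.Agent.Cfg3.LaneG
import Pool.Agent.Cfg3.DagRules

/-!
The check that integer coordinates realize a stored configuration.
-/

namespace Pool.Agent.Cfg3

noncomputable section

theorem gones14 : gones 128 14 = 0x100000000000000000000000000000001000000000000000000000000000000010000000000000000000000000000000100000000000000000000000000000001000000000000000000000000000000010000000000000000000000000000000100000000000000000000000000000001000000000000000000000000000000010000000000000000000000000000000100000000000000000000000000000001000000000000000000000000000000010000000000000000000000000000000100000000000000000000000000000001 := by decide +kernel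
theorem lows14' : (2 ^ (128 - 1) - 1) * gones 128 14 = 0x7fffffffffffffffffffffffffffffff7fffffffffffffffffffffffffffffff7fffffffffffffffffffffffffffffff7fffffffffffffffffffffffffffffff7fffffffffffffffffffffffffffffff7fffffffffffffffffffffffffffffff7fffffffffffffffffffffffffffffff7fffffffffffffffffffffffffffffff7fffffffffffffffffffffffffffffff7fffffffffffffffffffffffffffffff7fffffffffffffffffffffffffffffff7fffffffffffffffffffffffffffffff7fffffffffffffffffffffffffffffff7fffffffffffffffffffffffffffffff := by decide +kernel
theorem mask14 : 255 * gones 128 14 = 0xff000000000000000000000000000000ff000000000000000000000000000000ff000000000000000000000000000000ff000000000000000000000000000000ff000000000000000000000000000000ff000000000000000000000000000000ff000000000000000000000000000000ff000000000000000000000000000000ff000000000000000000000000000000ff000000000000000000000000000000ff000000000000000000000000000000ff000000000000000000000000000000ff000000000000000000000000000000ff := by decide +kernel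
theorem k127 : gones 127 14 = 0x80000000000000000000000000000001000000000000000000000000000000020000000000000000000000000000000400000000000000000000000000000008000000000000000000000000000000100000000000000000000000000000002000000000000000000000000000000040000000000000000000000000000000800000000000000000000000000000010000000000000000000000000000000200000000000000000000000000000004000000000000000000000000000000080000000000000000000000000000001 := by decide +kernel

theorem gl_and (w a b i : ℕ) : gl w (a &&& b) i = gl w a i &&& gl w b i := by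
  apply Nat.eq_of_testBit_eq
  intro j
  rw [testBit_gl, Nat.testBit_and, Nat.testBit_and, testBit_gl, testBit_gl]
  cases decide (j < w) <;> simp

theorem sprd_lt (c : ℕ) {i : ℕ} (hi : i < 14) : gl 128 (sprd c) i < 256 := by
  have h1 : sprd c = ((c &&& 0xffffffffffffffffffffffffffff) * 0x1000000000000000000000000000001000000000000000000000000000001000000000000000000000000000001000000000000000000000000000001000000000000000000000000000001000000000000000000000000000001000000000000000000000000000001000000000000000000000000000001000000000000000000000000000001000000000000000000000000000001000000000000000000000000000001000000000000000000000000000001000000000000000000000000000001) &&& (255 * gones 128 14) := by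
    rw [mask14]; rfl
  rw [h1, gl_and, gl_mul_ones (by norm_num) hi]
  exact Nat.lt_succ_of_le Nat.and_le_right

theorem lane_sum {X Y Z a b c : ℕ} (hX : ∀ i < 14, gl 128 X i < 256)
    (hY : ∀ i < 14, gl 128 Y i < 256) (hZ : ∀ i < 14, gl 128 Z i < 256) (ha : a ≤ 255)
    (hb : b ≤ 255) (hc : c ≤ 255) {e : ℕ} (he : e < 2 ^ 30) {i : ℕ} (hi : i < 14) :
    gl 128 (a * X + (b * Y + c * Z) + e * gones 128 14) i =
      a * gl 128 X i + (b * gl 128 Y i + c * gl 128 Z i) + e := by
  have bX : ∀ j ≤ i, a * gl 128 X j ≤ 255 * 255 := fun j hj =>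
    Nat.mul_le_mul ha (Nat.le_of_lt_succ (hX j (by omega)))
  have bY : ∀ j ≤ i, b * gl 128 Y j ≤ 255 * 255 := fun j hj =>
    Nat.mul_le_mul hb (Nat.le_of_lt_succ (hY j (by omega)))
  have bZ : ∀ j ≤ i, c * gl 128 Z j ≤ 255 * 255 := fun j hj =>
    Nat.mul_le_mul hc (Nat.le_of_lt_succ (hZ j (by omega)))
  have e1 : ∀ j ≤ i, gl 128 (a * X) j = a * gl 128 X j := fun j hj =>
    gl_smul (fun k hk => lt_of_le_of_lt (bX k (by omega)) (by norm_num))
  have e2 : ∀ j ≤ i, gl 128 (b * Y) j = b * gl 128 Y j := fun j hj =>
    gl_smul (fun k hk => lt_of_le_of_lt (bY k (by omega)) (by norm_num))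
  have e3 : ∀ j ≤ i, gl 128 (c * Z) j = c * gl 128 Z j := fun j hj =>
    gl_smul (fun k hk => lt_of_le_of_lt (bZ k (by omega)) (by norm_num))
  have e4 : ∀ j ≤ i, gl 128 (b * Y + c * Z) j = b * gl 128 Y j + c * gl 128 Z j := by
    intro j hj
    rw [gl_add, e2 j hj, e3 j hj]
    intro k hk
    rw [e2 k (by omega), e3 k (by omega)]
    have := bY k (by omega)
    have := bZ k (by omega)
    omega
  have e5 : ∀ j ≤ i, gl 128 (a * X + (b * Y + c * Z)) j =
      a * gl 128 X j + (b * gl 128 Y j + c * gl 128 Z j) := by
    intro j hj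
    rw [gl_add, e1 j hj, e4 j hj]
    intro k hk
    rw [e1 k (by omega), e4 k (by omega)]
    have := bX k (by omega)
    have := bY k (by omega)
    have := bZ k (by omega)
    omega
  have e6 : ∀ j ≤ i, gl 128 (e * gones 128 14) j = e := fun j hj =>
    gl_mul_ones (lt_trans he (by norm_num)) (by omega)
  rw [gl_add, e5 i (le_refl i), e6 i (le_refl i)]
  intro k hk
  rw [e5 k hk, e6 k hk]
  have := bX k (by omega)
  have := bY k (by omega)
  have := bZ k (by omega)
  omega

theorem T_bit {E full i : ℕ} (hE : ∀ i < 14, gl 128 E i < 2 ^ 127) (hi : i < 14)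
    (hf : full.testBit (128 * i) = true) :
    (((E + (2 ^ (128 - 1) - 1) * gones 128 14) >>> 127) &&& full).testBit (128 * i) =
      decide (gl 128 E i ≠ 0) := by
  have h1 := gl_add_lows (w := 128) (n := 14) (a := E) (i := i) (by norm_num) hE hi
  rw [Nat.testBit_and, hf, Bool.and_true, Nat.testBit_shiftRight, ← h1]
  congr 1
  omega

theorem lineT_bit {X Y Z full a b c : ℕ} (hX : ∀ i < 14, gl 128 X i < 256)
    (hY : ∀ i < 14, gl 128 Y i < 256) (hZ : ∀ i < 14, gl 128 Z i < 256) (ha : a ≤ 255)
    (hb : b ≤ 255) (hc : c ≤ 255) {i : ℕ} (hi : i < 14)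
    (hf : full.testBit (128 * i) = true) :
    (lineT X Y Z full a b c).testBit (128 * i) =
      decide (a * gl 128 X i + (b * gl 128 Y i + c * gl 128 Z i) + 49152 ≠
        128 * gl 128 X i + (128 * gl 128 Y i + 128 * gl 128 Z i) + 128 * (a + (b + c))) := by
  have h1 : lineT X Y Z full a b c = ((((a * X + (b * Y + c * Z) + 49152 * gones 128 14) ^^^
      (128 * X + (128 * Y + 128 * Z) + (128 * (a + (b + c))) * gones 128 14)) +
      (2 ^ (128 - 1) - 1) * gones 128 14) >>> 127) &&& full := by
    have h2 : 128 * X + (128 * Y + 128 * Z) = 128 * (X + (Y + Z)) := by ring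
    rw [h2, lows14', gones14]
    rfl
  have eA : ∀ i < 14, gl 128 (a * X + (b * Y + c * Z) + 49152 * gones 128 14) i =
      a * gl 128 X i + (b * gl 128 Y i + c * gl 128 Z i) + 49152 := fun i hi =>
    lane_sum hX hY hZ ha hb hc (by norm_num) hi
  have eB : ∀ i < 14, gl 128 (128 * X + (128 * Y + 128 * Z) + (128 * (a + (b + c))) * gones 128 14) i =
      128 * gl 128 X i + (128 * gl 128 Y i + 128 * gl 128 Z i) + 128 * (a + (b + c)) := fun i hi =>
    lane_sum hX hY hZ (by norm_num) (by norm_num) (by norm_num) (by omega) hi
  have hE : ∀ i < 14, gl 128 ((a * X + (b * Y + c * Z) + 49152 * gones 128 14) ^^^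
      (128 * X + (128 * Y + 128 * Z) + (128 * (a + (b + c))) * gones 128 14)) i < 2 ^ 127 := by
    intro i hi
    rw [gl_xor, eA i hi, eB i hi]
    have := hX i hi
    have := hY i hi
    have := hZ i hi
    have b1 : a * gl 128 X i ≤ 255 * 255 := Nat.mul_le_mul ha (by omega)
    have b2 : b * gl 128 Y i ≤ 255 * 255 := Nat.mul_le_mul hb (by omega)
    have b3 : c * gl 128 Z i ≤ 255 * 255 := Nat.mul_le_mul hc (by omega)
    apply Nat.xor_lt_two_pow
    · omega
    · omega
  rw [h1, T_bit hE hi hf, gl_xor, eA i hi, eB i hi]
  congr 1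
  apply propext
  rw [Ne, Ne, Nat.xor_eq_zero_iff]

theorem lineR_bit {M full y i : ℕ} (hi : i < 14) (hf : full.testBit (128 * i) = true) :
    (lineR M full y).testBit (128 * i) = M.testBit (16 * y + i) := by
  have h1 : lineR M full y = (rowN M y * gones 127 14) &&& full := by
    rw [k127]; rfl
  have hr : rowN M y < 2 ^ 127 := by
    rw [rowN_eq]
    exact lt_trans (lane_lt _ _) (by norm_num)
  have h2 := testBit_gl 127 (rowN M y * gones 127 14) i i
  rw [gl_mul_ones hr hi] at h2
  have h3 : decide (i < 127) = true := by simp; omega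
  rw [h3, Bool.true_and] at h2
  rw [h1, Nat.testBit_and, hf, Bool.and_true, ← rowN_testBit (by omega : i < 16), h2]
  congr 1
  omega

theorem rlz_sound {n M C : ℕ} (hn : n ≤ 14) (h : rlz n (gones 128 n) M C = true) :
    ∃ x y z u v w : ℕ → ℤ, (∀ i < n, z i ≠ 0) ∧ ∀ i < n, ∀ j < n,
      (u j * x i + v j * y i + w j * z i = 0 ↔ M.testBit (16 * j + i) = true) := by
  have h' : an (zOK (sprd (Nat.shiftRight C 224)) (gones 128 n))
    (allB (fun y => lineOK M (sprd C) (sprd (Nat.shiftRight C 112)) (sprd (Nat.shiftRight C 224))
      (gones 128 n) y (Nat.shiftRight C (Nat.add 336 (Nat.mul 24 y)))) n) = true := h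
  rw [an_eq] at h'
  obtain ⟨hz, hl⟩ := h'
  set X := sprd C
  set Y := sprd (Nat.shiftRight C 112)
  set Z := sprd (Nat.shiftRight C 224)
  have hX : ∀ i < 14, gl 128 X i < 256 := fun i hi => sprd_lt _ hi
  have hY : ∀ i < 14, gl 128 Y i < 256 := fun i hi => sprd_lt _ hi
  have hZ : ∀ i < 14, gl 128 Z i < 256 := fun i hi => sprd_lt _ hi
  have hfull : ∀ i < n, (gones 128 n).testBit (128 * i) = true := by
    intro i hi
    rw [testBit_gones (by norm_num)]
    simpa using hi
  refine ⟨fun i => (gl 128 X i : ℤ) - 128, fun i => (gl 128 Y i : ℤ) - 128,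
    fun i => (gl 128 Z i : ℤ) - 128,
    fun j => ((Nat.land (Nat.shiftRight C (Nat.add 336 (Nat.mul 24 j))) 255 : ℕ) : ℤ) - 128,
    fun j => ((Nat.land (Nat.shiftRight (Nat.shiftRight C (Nat.add 336 (Nat.mul 24 j))) 8) 255 : ℕ) : ℤ) - 128,
    fun j => ((Nat.land (Nat.shiftRight (Nat.shiftRight C (Nat.add 336 (Nat.mul 24 j))) 16) 255 : ℕ) : ℤ) - 128,
    ?_, ?_⟩
  · intro i hi hzero
    have h1 : (((Z ^^^ (128 * gones 128 14)) + (2 ^ (128 - 1) - 1) * gones 128 14) >>> 127) &&&
        gones 128 n = gones 128 n := by
      rw [lows14', gones14]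
      exact Nat.eq_of_beq_eq_true hz
    have h2 := congrArg (fun z => Nat.testBit z (128 * i)) h1
    rw [T_bit (fun j hj => by
      rw [gl_xor, gl_mul_ones (by norm_num) hj]
      have := hZ j hj
      apply Nat.xor_lt_two_pow
      · omega
      · norm_num) (by omega) (hfull i hi), hfull i hi, gl_xor, gl_mul_ones (by norm_num) (by omega),
      decide_eq_true_eq, Ne, Nat.xor_eq_zero_iff] at h2
    apply h2
    have h3 : (gl 128 Z i : ℤ) = 128 := by linarith
    exact_mod_cast h3
  · intro i hi j hj
    beta_reduce
    have h1 := allB_iff hl j hj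
    have h2 : Nat.xor (lineT X Y Z (gones 128 n)
        (Nat.land (Nat.shiftRight C (Nat.add 336 (Nat.mul 24 j))) 255)
        (Nat.land (Nat.shiftRight (Nat.shiftRight C (Nat.add 336 (Nat.mul 24 j))) 8) 255)
        (Nat.land (Nat.shiftRight (Nat.shiftRight C (Nat.add 336 (Nat.mul 24 j))) 16) 255))
        (lineR M (gones 128 n) j) = gones 128 n := Nat.eq_of_beq_eq_true h1
    have ha : Nat.land (Nat.shiftRight C (Nat.add 336 (Nat.mul 24 j))) 255 ≤ 255 := Nat.and_le_right
    have hb : Nat.land (Nat.shiftRight (Nat.shiftRight C (Nat.add 336 (Nat.mul 24 j))) 8) 255 ≤ 255 :=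
      Nat.and_le_right
    have hc : Nat.land (Nat.shiftRight (Nat.shiftRight C (Nat.add 336 (Nat.mul 24 j))) 16) 255 ≤ 255 :=
      Nat.and_le_right
    generalize Nat.land (Nat.shiftRight C (Nat.add 336 (Nat.mul 24 j))) 255 = a at *
    generalize Nat.land (Nat.shiftRight (Nat.shiftRight C (Nat.add 336 (Nat.mul 24 j))) 8) 255 = b at *
    generalize Nat.land (Nat.shiftRight (Nat.shiftRight C (Nat.add 336 (Nat.mul 24 j))) 16) 255 = c at *
    have h3 : (lineT X Y Z (gones 128 n) a b c ^^^ lineR M (gones 128 n) j).testBit (128 * i) =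
        (gones 128 n).testBit (128 * i) := congrArg (fun z => Nat.testBit z (128 * i)) h2
    rw [Nat.testBit_xor, lineT_bit hX hY hZ ha hb hc (by omega) (hfull i hi),
      lineR_bit (by omega) (hfull i hi), hfull i hi] at h3
    have key : a * gl 128 X i + (b * gl 128 Y i + c * gl 128 Z i) + 49152 =
        128 * gl 128 X i + (128 * gl 128 Y i + 128 * gl 128 Z i) + 128 * (a + (b + c)) ↔
        M.testBit (16 * j + i) = true := by
      cases hM : M.testBit (16 * j + i)
      · rw [hM] at h3
        simp only [ne_eq, Bool.bne_false, decide_eq_true_eq] at h3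
        simp [h3]
      · rw [hM] at h3
        simp only [ne_eq, Bool.bne_true, Bool.not_eq_true', decide_eq_false_iff_not,
          not_not] at h3
        simp [h3]
    rw [← key]
    constructor
    · intro h4
      zify
      linarith
    · intro h4
      zify at h4
      linarith

end

end Pool.Agent.Cfg3
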