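import Pool.Agent.Cfg3.Induct
import Pool.Agent.Cfg3.Realize

/-!
Checks of whole lists.
-/

namespace Pool.Agent.Cfg3

theorem chkL_good {t : Tr} {N n full : ℕ} {tn : Tr} (hn : n ≤ 14) (hf : full = 2 ^ (n + 1) - 1)
    (hS : ∀ k, Supp n (look tn k)) : ∀ {l : List ℕ} {s e : ℕ}, chkL t N n full tn l s e = true →
    ∀ k, s ≤ k → k < e → Good t N n (look tn k)
  | [], s, e, h => by
      have : s = e := Nat.eq_of_beq_eq_true h
      intro k h1 h2
      omega
  | C :: l, s, e, h => by
      have h' : an (chkD t N n full (look tn s) C) (chkL t N n full tn l (Nat.succ s) e) = true := h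
      rw [an_eq] at h'
      intro k h1 h2
      rcases Nat.eq_or_lt_of_le h1 with h3 | h3
      · subst h3
        subst hf
        exact chkD_good hn (hS s) h'.1
      · exact chkL_good hn hf hS h'.2 k h3 h2

theorem stL_sound {tab : ℕ → Tr} {num : ℕ → ℕ} {t : Tr} {N : ℕ} : ∀ {l : List ℕ} {s e : ℕ},
    stL tab num t N l s e = true → ∀ k, s ≤ k → k < e → ∃ C, stCheck tab num t N k C = true
  | [], s, e, h => by
      have : s = e := Nat.eq_of_beq_eq_true h
      intro k h1 h2
      omega
  | C :: l, s, e, h => by
      have h' : an (stCheck tab num t N s C) (stL tab num t N l (Nat.succ s) e) = true := h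
      rw [an_eq] at h'
      intro k h1 h2
      rcases Nat.eq_or_lt_of_le h1 with h3 | h3
      · subst h3
        exact ⟨C, h'.1⟩
      · exact stL_sound h'.2 k h3 h2

/-- M has integer coordinates. -/
def HasCoords (n M : ℕ) : Prop :=
  ∃ x y z u v w : ℕ → ℤ, (∀ i < n, z i ≠ 0) ∧ ∀ i < n, ∀ j < n,
      (u j * x i + v j * y i + w j * z i = 0 ↔ M.testBit (16 * j + i) = true)

theorem rlzL_sound {n full : ℕ} {tn : Tr} (hn : n ≤ 14) (hf : full = gones 128 n) :
    ∀ {l : List ℕ} {s e : ℕ}, rlzL n full tn l s e = true →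
    ∀ k, s ≤ k → k < e → HasCoords n (look tn k)
  | [], s, e, h => by
      have : s = e := Nat.eq_of_beq_eq_true h
      intro k h1 h2
      omega
  | C :: l, s, e, h => by
      have h' : an (rlz n full (look tn s) C) (rlzL n full tn l (Nat.succ s) e) = true := h
      rw [an_eq] at h'
      intro k h1 h2
      rcases Nat.eq_or_lt_of_le h1 with h3 | h3
      · subst h3
        subst hf
        exact rlz_sound hn h'.1
      · exact rlzL_sound hn hf h'.2 k h3 h2

theorem chain {Q : ℕ → Prop} {s e : ℕ} (h : ∀ k < s, Q k) (h' : ∀ k, s ≤ k → k < e → Q k) :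
    ∀ k < e, Q k := by
  intro k hk
  by_cases h1 : k < s
  · exact h k h1
  · exact h' k (by omega) hk

theorem mul_gones_lt {w r : ℕ} (hr : r < 2 ^ w) : ∀ m, r * gones w m < 2 ^ (w * m)
  | 0 => by simp [gones]
  | m + 1 => by
      have h1 := mul_gones_lt hr m
      have h3 : 2 ^ (w * (m + 1)) = 2 ^ (w * m) * 2 ^ w := by rw [← pow_add, Nat.mul_succ]
      have h2 : r * gones w (m + 1) = (r * gones w m) * 2 ^ w + r := by rw [gones]; ring
      rw [h2, h3]
      calc (r * gones w m) * 2 ^ w + r < (r * gones w m) * 2 ^ w + 2 ^ w := by omega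
        _ = (r * gones w m + 1) * 2 ^ w := by ring
        _ ≤ 2 ^ (w * m) * 2 ^ w := Nat.mul_le_mul_right _ h1

theorem suppT_sound {n m : ℕ} (hn : n ≤ 14) {mask : ℕ} (hm : mask = smask n * gones 224 m) :
    ∀ {t : Tr}, suppT mask t = true → AllL (Supp n) t
  | .leaf v, h => by
      have h1 : v &&& mask = v := Nat.eq_of_beq_eq_true h
      intro k b hb
      have h2 : ((v >>> (k * 224)) &&& 0xffffffffffffffffffffffffffffffffffffffffffffffffffffffff).testBit b = true := hb
      rw [Nat.testBit_and, Bool.and_eq_true] at h2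
      have hb224 : b < 224 := by
        by_contra hc
        rw [mask_testBit_ge b (by omega)] at h2
        exact Bool.false_ne_true h2.2
      rw [Nat.testBit_shiftRight, ← h1, Nat.testBit_and, Bool.and_eq_true] at h2
      have h3 := h2.1.2
      rw [hm] at h3
      have hlt : smask n < 2 ^ 224 := smask_lt n (by omega)
      have hk : k < m := by
        by_contra hc
        have h4 := mul_gones_lt hlt m
        rw [Nat.testBit_lt_two_pow (lt_of_lt_of_le h4 (Nat.pow_le_pow_right (by norm_num) (by
          have : 224 * m ≤ 224 * k := Nat.mul_le_mul_left _ (by omega)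
          omega)))] at h3
        exact Bool.false_ne_true h3
      have h5 := testBit_gl 224 (smask n * gones 224 m) k b
      rw [gl_mul_ones hlt hk] at h5
      have h6 : decide (b < 224) = true := by simpa using hb224
      rw [h6, Bool.true_and, show 224 * k + b = k * 224 + b by ring, h3,
        smask_bit n (by omega) b hb224] at h5
      simpa using h5
  | .node l r, h => by
      have h' : an (suppT mask l) (suppT mask r) = true := h
      rw [an_eq] at h'
      exact ⟨suppT_sound hn hm h'.1, suppT_sound hn hm h'.2⟩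

end Pool.Agent.Cfg3
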