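import Pool.Agent.Cfg3.Iso

/-!
The check that all one-step extensions of a stored configuration are stored one size higher.
-/

namespace Pool.Agent.Cfg3

noncomputable section

/-- All entries of a tree satisfy p. -/
def AllL (p : ℕ → Prop) (t : Tr) : Prop :=
  @Tr.rec (fun _ => Prop) (fun v => ∀ k, p (entry v k)) (fun _ _ a b => a ∧ b) t

theorem AllL.look {p : ℕ → Prop} : ∀ {t : Tr}, AllL p t → ∀ k, p (look t k)
  | .leaf v, h, k => h k
  | .node l r, h, k => by
      have hl : AllL p l := h.1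
      have hr : AllL p r := h.2
      have e : Pool.Agent.Cfg3.look (.node l r) k =
        @Bool.rec (fun _ => ℕ) (Pool.Agent.Cfg3.look r (Nat.shiftRight k 1))
          (Pool.Agent.Cfg3.look l (Nat.shiftRight k 1)) (Nat.beq (Nat.land k 1) 0) := rfl
      rw [e]
      cases Nat.beq (Nat.land k 1) 0
      · exact AllL.look hr _
      · exact AllL.look hl _

/-- What one extension test shows. -/
def StepOk (t : Tr) (N n full M i16 A cA j16 B cB : ℕ) : Prop :=
  cA &&& cB ≠ 0 ∨ ∃ c k, k < N ∧ isoCheck full (extN n M i16 A j16 B) c (look t k) = true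

theorem step_ne {t : Tr} {N n full M i16 A cA j16 B cB C : ℕ}
    (h : step t N n full M i16 A cA j16 B cB C ≠ 0) :
    C ≠ 0 ∧ StepOk t N n full M i16 A cA j16 B cB := by
  unfold step at h
  by_cases h1 : Nat.beq (Nat.land cA cB) 0 = true
  · rw [h1] at h
    by_cases h0 : Nat.ble (Nat.succ (Nat.land (Nat.shiftRight C 56) 65535)) N = true
    · have h' : (@Bool.rec (fun _ => ℕ) 0
        (@Bool.rec (fun _ => ℕ) 0 (Nat.shiftRight C 72)
          (isoCheck full (extN n M i16 A j16 B) (Nat.land C 0xffffffffffffff)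
            (look t (Nat.land (Nat.shiftRight C 56) 65535))))
          (Nat.ble (Nat.succ (Nat.land (Nat.shiftRight C 56) 65535)) N)) ≠ 0 := h
      rw [h0] at h'
      by_cases h2 : isoCheck full (extN n M i16 A j16 B) (Nat.land C 0xffffffffffffff)
          (look t (Nat.land (Nat.shiftRight C 56) 65535)) = true
      · rw [h2] at h'
        refine ⟨?_, Or.inr ⟨_, _, Nat.le_of_ble_eq_true h0, h2⟩⟩
        rintro rfl
        exact h' rfl
      · rw [Bool.not_eq_true] at h2
        rw [h2] at h'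
        exact absurd rfl h'
    · rw [Bool.not_eq_true] at h0
      have h' : (@Bool.rec (fun _ => ℕ) 0
        (@Bool.rec (fun _ => ℕ) 0 (Nat.shiftRight C 72)
          (isoCheck full (extN n M i16 A j16 B) (Nat.land C 0xffffffffffffff)
            (look t (Nat.land (Nat.shiftRight C 56) 65535))))
          (Nat.ble (Nat.succ (Nat.land (Nat.shiftRight C 56) 65535)) N)) ≠ 0 := h
      rw [h0] at h'
      exact absurd rfl h'
  · have h3 : cA &&& cB ≠ 0 := by
      intro h4
      apply h1
      have : Nat.land cA cB = 0 := h4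
      rw [this]
      rfl
    rw [Bool.not_eq_true] at h1
    rw [h1] at h
    exact ⟨h, Or.inl h3⟩

/-- What a pair of rows test shows. -/
def PairOk (t : Tr) (N n full M : ℕ) (p q : Row) : Prop :=
  p.r &&& q.r = 0 → ∀ x ∈ [(p.a, p.ca), (p.b, p.cb), (p.c, p.cc)],
    ∀ y ∈ [(q.a, q.ca), (q.b, q.cb), (q.c, q.cc)],
      StepOk t N n full M p.i16 x.1 x.2 q.i16 y.1 y.2

theorem pairStep_ne {t : Tr} {N n full M : ℕ} {p q : Row} {C : ℕ}
    (h : pairStep t N n full M p q C ≠ 0) : C ≠ 0 ∧ PairOk t N n full M p q := by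
  unfold pairStep at h
  by_cases h1 : Nat.beq (Nat.land p.r q.r) 0 = true
  · rw [h1] at h
    obtain ⟨h, s9⟩ := step_ne h
    obtain ⟨h, s8⟩ := step_ne h
    obtain ⟨h, s7⟩ := step_ne h
    obtain ⟨h, s6⟩ := step_ne h
    obtain ⟨h, s5⟩ := step_ne h
    obtain ⟨h, s4⟩ := step_ne h
    obtain ⟨h, s3⟩ := step_ne h
    obtain ⟨h, s2⟩ := step_ne h
    obtain ⟨h, s1⟩ := step_ne h
    refine ⟨h, fun _ => ?_⟩
    intro x hx y hy
    simp only [List.mem_cons, List.not_mem_nil, or_false] at hx hy
    rcases hx with rfl | rfl | rfl <;> rcases hy with rfl | rfl | rfl <;> assumption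
  · have h3 : p.r &&& q.r ≠ 0 := by
      intro h4
      apply h1
      have : Nat.land p.r q.r = 0 := h4
      rw [this]
      rfl
    rw [Bool.not_eq_true] at h1
    rw [h1] at h
    exact ⟨h, fun h4 => absurd h4 h3⟩

theorem inner_ne {t : Tr} {N n full M : ℕ} {p : Row} : ∀ {qs : List Row} {C : ℕ},
    inner t N n full M p qs C ≠ 0 → C ≠ 0 ∧ ∀ q ∈ qs, PairOk t N n full M p q
  | [], C, h => ⟨h, by simp⟩
  | q :: qs, C, h => by
      have h' : inner t N n full M p qs (pairStep t N n full M p q C) ≠ 0 := h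
      obtain ⟨h1, h2⟩ := inner_ne h'
      obtain ⟨h3, h4⟩ := pairStep_ne h1
      refine ⟨h3, ?_⟩
      intro q' hq'
      rcases List.mem_cons.1 hq' with rfl | hq'
      · exact h4
      · exact h2 _ hq'

theorem outer_ne {t : Tr} {N n full M : ℕ} : ∀ {ps : List Row} {C : ℕ},
    outer t N n full M ps C ≠ 0 → C ≠ 0 ∧ ps.Pairwise (PairOk t N n full M)
  | [], C, h => ⟨h, List.Pairwise.nil⟩
  | p :: ps, C, h => by
      have h' : outer t N n full M ps (inner t N n full M p ps C) ≠ 0 := h
      obtain ⟨h1, h2⟩ := outer_ne h'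
      obtain ⟨h3, h4⟩ := inner_ne h1
      exact ⟨h3, List.Pairwise.cons h4 h2⟩

theorem allOK_mem : ∀ {ps : List Row}, allOK ps = true → ∀ p ∈ ps, rowOK p = true
  | [], _ => by simp
  | p :: ps, h => by
      have h' : (@Bool.rec (fun _ => Bool) false (allOK ps) (rowOK p)) = true := h
      have h1 : rowOK p = true := by
        by_contra hc
        rw [Bool.not_eq_true] at hc
        rw [hc] at h'
        exact Bool.false_ne_true h'
      rw [h1] at h'
      intro q hq
      rcases List.mem_cons.1 hq with rfl | hq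
      · exact h1
      · exact allOK_mem h' q hq

theorem rowsFrom_getElem (M : ℕ) : ∀ (n s i : ℕ) (h : i < (rowsFrom M n s).length),
    (rowsFrom M n s)[i] = mkRow M (s + 16 * i)
  | 0, s, i, h => absurd h (Nat.not_lt_zero _)
  | n + 1, s, 0, h => rfl
  | n + 1, s, i + 1, h => by
      have h1 : (rowsFrom M (n + 1) s)[i + 1] = (rowsFrom M n (s + 16))[i]'(by
        exact Nat.lt_of_succ_lt_succ h) := rfl
      rw [h1, rowsFrom_getElem M n (s + 16) i]
      congr 1
      ring

theorem rowsFrom_length (M : ℕ) : ∀ (n s : ℕ), (rowsFrom M n s).length = n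
  | 0, s => rfl
  | n + 1, s => by
      have h1 : (rowsFrom M (n + 1) s).length = (rowsFrom M n (s + 16)).length + 1 := rfl
      rw [h1, rowsFrom_length M n]

theorem mkRow_i16 (M i16 : ℕ) : (mkRow M i16).i16 = i16 := rfl
theorem mkRow_r (M i : ℕ) : (mkRow M (16 * i)).r = lane M i := shr_land M i
theorem mkRow_ca (M i16 : ℕ) : (mkRow M i16).ca = col M (mkRow M i16).a := rfl
theorem mkRow_cb (M i16 : ℕ) : (mkRow M i16).cb = col M (mkRow M i16).b := rfl
theorem mkRow_cc (M i16 : ℕ) : (mkRow M i16).cc = col M (mkRow M i16).c := rfl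

theorem rowOK_mem {M i x : ℕ} (h : rowOK (mkRow M (16 * i)) = true)
    (hx : (lane M i).testBit x = true) :
    (x, col M x) ∈ [((mkRow M (16 * i)).a, (mkRow M (16 * i)).ca),
      ((mkRow M (16 * i)).b, (mkRow M (16 * i)).cb), ((mkRow M (16 * i)).c, (mkRow M (16 * i)).cc)] := by
  have h1 : (mkRow M (16 * i)).r = ((1 <<< (mkRow M (16 * i)).a) ||| (1 <<< (mkRow M (16 * i)).b))
      ||| (1 <<< (mkRow M (16 * i)).c) := Nat.eq_of_beq_eq_true h
  rw [mkRow_r] at h1
  rw [h1, Nat.testBit_or, Nat.testBit_or, testBit_one_shl, testBit_one_shl, testBit_one_shl] at hx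
  simp only [Bool.or_eq_true, decide_eq_true_eq] at hx
  rcases hx with (hx | hx) | hx
  · subst hx; rw [mkRow_ca]; simp
  · subst hx; rw [mkRow_cb]; simp
  · subst hx; rw [mkRow_cc]; simp

theorem col_eq (M x : ℕ) : col M x = (M >>> x) &&& ones 14 := by
  have : ones 14 = 0x10001000100010001000100010001000100010001000100010001 := by decide +kernel
  rw [this]
  rfl

theorem col_and_ne {M x y : ℕ} (h : col M x &&& col M y ≠ 0) :
    ∃ l < 14, M.testBit (16 * l + x) = true ∧ M.testBit (16 * l + y) = true := by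
  obtain ⟨k, hk⟩ := Nat.exists_testBit_ne_of_ne h
  rw [Nat.zero_testBit, Ne, Bool.not_eq_false, col_eq, col_eq] at hk
  simp only [Nat.testBit_and, Nat.testBit_shiftRight, testBit_ones, Bool.and_eq_true,
    decide_eq_true_eq] at hk
  obtain ⟨⟨h1, h2, h3⟩, h4, -⟩ := hk
  refine ⟨k / 16, h3, ?_, ?_⟩
  · have : 16 * (k / 16) + x = x + k := by omega
    rw [this]; exact h1
  · have : 16 * (k / 16) + y = y + k := by omega
    rw [this]; exact h4

theorem extN_swap (n M i A j B : ℕ) : extN n M i A j B = extN n M j B i A := by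
  rw [extN_eq, extN_eq, Nat.or_comm (1 <<< A) (1 <<< B)]
  generalize (1 <<< A ||| 1 <<< n) <<< i = X
  generalize (1 <<< B ||| 1 <<< n) <<< j = Y
  generalize (1 <<< B ||| 1 <<< A ||| 1 <<< n) <<< (16 * n) = Z
  rw [Nat.xor_assoc, Nat.xor_assoc, ← Nat.xor_assoc X, Nat.xor_comm X Y, Nat.xor_assoc]

/-- M has only stored extensions. -/
def Good (t : Tr) (N n M : ℕ) : Prop :=
  ∀ i A j B : Fin n, i ≠ j → M.testBit (16 * (i : ℕ) + A) = true →
      M.testBit (16 * (j : ℕ) + B) = true →
      (∀ x : Fin n, ¬ (M.testBit (16 * (i : ℕ) + x) = true ∧ M.testBit (16 * (j : ℕ) + x) = true)) →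
      (∀ y : Fin n, ¬ (M.testBit (16 * (y : ℕ) + A) = true ∧ M.testBit (16 * (y : ℕ) + B) = true)) →
      ∃ c k, k < N ∧ isoCheck (2 ^ (n + 1) - 1) (extN n M (16 * (i : ℕ)) A (16 * (j : ℕ)) B) c
        (look t k) = true

theorem chkD_good {t : Tr} {N n M C : ℕ} (hn : n ≤ 14) (hS : Supp n M)
    (h : chkD t N n (2 ^ (n + 1) - 1) M C = true) : Good t N n M := by
  have h' : (@Bool.rec (fun _ => Bool) false
    (Nat.ble 1 (outer t N n (2 ^ (n + 1) - 1) M (rowsFrom M n 0) C)) (allOK (rowsFrom M n 0))) = true := h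
  have h1 : allOK (rowsFrom M n 0) = true := by
    by_contra hc
    rw [Bool.not_eq_true] at hc
    rw [hc] at h'
    exact Bool.false_ne_true h'
  rw [h1] at h'
  have h2 : outer t N n (2 ^ (n + 1) - 1) M (rowsFrom M n 0) C ≠ 0 := by
    intro h3
    have h4 : Nat.ble 1 (outer t N n (2 ^ (n + 1) - 1) M (rowsFrom M n 0) C) = true := h'
    rw [h3] at h4
    exact Bool.false_ne_true h4
  obtain ⟨-, h3⟩ := outer_ne h2
  have hlt : ∀ i j : Fin n, i < j → PairOk t N n (2 ^ (n + 1) - 1) M (mkRow M (16 * (i : ℕ)))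
      (mkRow M (16 * (j : ℕ))) := by
    intro i j hij
    have := List.pairwise_iff_getElem.1 h3 i j (by rw [rowsFrom_length]; exact i.2)
      (by rw [rowsFrom_length]; exact j.2) hij
    rwa [rowsFrom_getElem, rowsFrom_getElem, Nat.zero_add, Nat.zero_add] at this
  have hok : ∀ i : Fin n, rowOK (mkRow M (16 * (i : ℕ))) = true := by
    intro i
    apply allOK_mem h1
    have := rowsFrom_getElem M n 0 i (by rw [rowsFrom_length]; exact i.2)
    rw [Nat.zero_add] at this
    rw [← this]
    exact List.getElem_mem _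
  have main : ∀ i A j B : Fin n, i < j → M.testBit (16 * (i : ℕ) + A) = true →
      M.testBit (16 * (j : ℕ) + B) = true →
      (∀ x : Fin n, ¬ (M.testBit (16 * (i : ℕ) + x) = true ∧ M.testBit (16 * (j : ℕ) + x) = true)) →
      (∀ y : Fin n, ¬ (M.testBit (16 * (y : ℕ) + A) = true ∧ M.testBit (16 * (y : ℕ) + B) = true)) →
      ∃ c k, k < N ∧ isoCheck (2 ^ (n + 1) - 1) (extN n M (16 * (i : ℕ)) A (16 * (j : ℕ)) B) c
        (look t k) = true := by
    intro i A j B hij hA hB hd hc
    have hr : (mkRow M (16 * (i : ℕ))).r &&& (mkRow M (16 * (j : ℕ))).r = 0 := by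
      rw [mkRow_r, mkRow_r]
      apply Nat.eq_of_testBit_eq
      intro x
      rw [Nat.zero_testBit, Nat.testBit_and, testBit_lane, testBit_lane]
      by_contra hcon
      rw [Bool.not_eq_false] at hcon
      simp only [Bool.and_eq_true, decide_eq_true_eq] at hcon
      obtain ⟨⟨hx, hx1⟩, -, hx2⟩ := hcon
      have := (hS _ hx1).1
      have e : (16 * (i : ℕ) + x) % 16 = x := by omega
      rw [e] at this
      exact hd ⟨x, this⟩ ⟨hx1, hx2⟩
    have hA' : (lane M i).testBit A = true := by rw [testBit_lane' (by omega)]; exact hA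
    have hB' : (lane M j).testBit B = true := by rw [testBit_lane' (by omega)]; exact hB
    have := hlt i j hij hr _ (rowOK_mem (hok i) hA') _ (rowOK_mem (hok j) hB')
    rcases this with h4 | h4
    · obtain ⟨l, hl, h5, h6⟩ := col_and_ne h4
      have := (hS _ h5).2
      have e : (16 * l + (A : ℕ)) / 16 = l := by omega
      rw [e] at this
      exact absurd ⟨h5, h6⟩ (hc ⟨l, this⟩)
    · exact h4
  intro i A j B hij hA hB hd hc
  rcases lt_or_gt_of_ne hij with h4 | h4
  · exact main i A j B h4 hA hB hd hc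
  · rw [extN_swap]
    exact main j B i A h4 hB hA (fun x hx => hd x hx.symm) (fun y hy => hc y hy.symm)

end

end Pool.Agent.Cfg3
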